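import Pool.Agent.EXM.Pow

/-!
# EXM-Aff (1.5h): Mueller's argument (Burnside's theorem)

Plan.  Let `k ≥ 1` be the LEAST number with `w_k := ∑ d ∈ E, d ^ k ≠ 0` (`exists_pow_sum_ne_zero`);
`k ≤ E.card`, so `2 k < l`.  Let `P : (ZMod l)[X]` be the polynomial of degree `n ≤ l - 1` with
`P.eval x = g x` for all `x` (Lagrange interpolation `Lagrange.interpolate Finset.univ id g`,
`Lagrange.degree_interpolate_lt`, `Lagrange.eval_interpolate_at_node`).  `n ≥ 1` because `g` is
injective and `l ≥ 2`.  If `n = 1` we are done.  Suppose `n ≥ 2`.  There is `m ≥ 1` with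
`k ≤ n m ≤ l - 1`: if `k ≤ n` take `m = 1`, otherwise `m = ⌈k/n⌉`, `n m ≤ k + n - 1 ≤ 2k - 2`.
For every `x` the map `d ↦ g (x+d) - g x` is an injection of `E` into itself, so a bijection, and
`∑ d ∈ E, (g (x+d))^m = ∑ d ∈ E, (g x + d)^m`.  Hence the polynomial
`Q = ∑ d ∈ E, (P^m).comp (X + C d) - ∑ d ∈ E, (P + C d)^m` vanishes at all `l` points and its degree
is `≤ n m ≤ l - 1`, so `Q = 0`.  Its coefficient at `X^(nm - k)`: with `h = P^m`, `M = n m`, the first
sum is `∑_j (hasse derivative j of h) w_j` (`w_j = 0` for `1 ≤ j < k`), (Taylor: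
`Polynomial.taylor`, `Polynomial.hasseDeriv`, or directly by binomial expansion of monomials), whose
coefficient at `X^(M-k)` is `E.card * h.coeff (M-k) + w_k * choose M k * h.leadingCoeff`; the second
sum is `E.card * P^m + ∑_{j ≥ k} choose m j * w_j * P^(m-j)` and the terms `j ≥ k` have degree
`≤ n (m - k) < M - k` (if `m < k` there are none).  So `w_k * choose M k * leadingCoeff = 0`, and
`choose M k` is not divisible by the prime `l > M`: contradiction.
-/

set_option autoImplicit false

namespace Pool.Agent.EXM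

open Polynomial in
private theorem aff_taylor {F : Type*} [Field F] (h : F[X]) (M k : ℕ) (hM : h.natDegree ≤ M)
    (hk : k ≤ M) (d : F) : (taylor d h).coeff (M - k) =
      ∑ j ∈ Finset.range (k + 1),
        (((j + (M - k)).choose (M - k) : ℕ) : F) * h.coeff (j + (M - k)) * d ^ j := by
  rw [taylor_coeff]
  have h1 : (hasseDeriv (M - k) h).natDegree < k + 1 := by
    have h2 := natDegree_hasseDeriv_le h (M - k)
    omega
  rw [eval_eq_sum_range' h1]
  refine Finset.sum_congr rfl fun j _ => ?_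
  rw [hasseDeriv_coeff]

open Polynomial in
private theorem aff_pow {F : Type*} [Field F] (P : F[X]) (m : ℕ) (E : Finset F) :
    ∑ d ∈ E, (P + C d) ^ m = ∑ j ∈ Finset.range (m + 1),
      P ^ j * C (∑ d ∈ E, d ^ (m - j)) * ((m.choose j : ℕ) : F[X]) := by
  have h1 : ∀ d ∈ E, (P + C d) ^ m = ∑ j ∈ Finset.range (m + 1),
      P ^ j * C (d ^ (m - j)) * ((m.choose j : ℕ) : F[X]) := by
    intro d _
    rw [add_pow]
    refine Finset.sum_congr rfl fun j _ => ?_
    rw [C_pow]
  rw [Finset.sum_congr rfl h1, Finset.sum_comm]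
  refine Finset.sum_congr rfl fun j _ => ?_
  rw [← Finset.sum_mul, ← Finset.mul_sum, map_sum]

open Polynomial in
theorem affine_of_inv {l : ℕ} [Fact l.Prime] (E : Finset (ZMod l)) (hE : E.Nonempty)
    (h0 : (0 : ZMod l) ∉ E) (hc : 2 * E.card < l) (g : ZMod l → ZMod l) (hg : Function.Injective g)
    (hinv : ∀ x : ZMod l, ∀ d ∈ E, g (x + d) - g x ∈ E) :
    ∃ a b : ZMod l, ∀ x, g x = a * x + b := by
  classical
  have hl : l.Prime := Fact.out
  obtain ⟨k, ⟨hk1, hkE, hkne⟩, hkmin⟩ : ∃ k, (1 ≤ k ∧ k ≤ E.card ∧ ∑ d ∈ E, d ^ k ≠ 0) ∧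
      ∀ j, 1 ≤ j → j < k → ∑ d ∈ E, d ^ j = 0 := by
    have hex := exists_pow_sum_ne_zero E hE h0
    refine ⟨Nat.find hex, Nat.find_spec hex, fun j hj1 hj => ?_⟩
    by_contra h2
    exact Nat.find_min hex hj ⟨hj1, (hj.le.trans (Nat.find_spec hex).2.1), h2⟩
  obtain ⟨P, hP⟩ : ∃ P : (ZMod l)[X], P = Lagrange.interpolate Finset.univ id g := ⟨_, rfl⟩
  have hPe : ∀ x, P.eval x = g x := by
    intro x
    rw [hP]
    exact Lagrange.eval_interpolate_at_node g (Set.injOn_id _) (Finset.mem_univ x)
  have hP0 : P ≠ 0 := by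
    intro h
    have h1 := hPe 0
    have h2 := hPe 1
    rw [h, eval_zero] at h1 h2
    have h3 : g 0 = g 1 := by rw [← h1, ← h2]
    exact zero_ne_one (hg h3)
  have hPd : P.natDegree < l := by
    rw [natDegree_lt_iff_degree_lt hP0]
    have h1 := Lagrange.degree_interpolate_lt (s := (Finset.univ : Finset (ZMod l))) (v := id) g
      (Set.injOn_id _)
    rw [← hP, Finset.card_univ, ZMod.card] at h1
    exact h1
  rcases le_or_gt P.natDegree 1 with hn1 | hn2
  · refine ⟨P.coeff 1, P.coeff 0, fun x => ?_⟩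
    rw [← hPe x]
    conv_lhs => rw [eq_X_add_C_of_natDegree_le_one hn1]
    rw [eval_add, eval_mul, eval_C, eval_X, eval_C]
  exfalso
  obtain ⟨n, hn⟩ : ∃ n, n = P.natDegree := ⟨_, rfl⟩
  rw [← hn] at hn2 hPd
  -- the exponent m
  obtain ⟨m, hm1, hkm, hml⟩ : ∃ m : ℕ, 1 ≤ m ∧ k ≤ n * m ∧ n * m < l := by
    refine ⟨(k + n - 1) / n, ?_, ?_, ?_⟩
    · rw [Nat.one_le_div_iff (by omega)]
      omega
    · have h1 := Nat.lt_mul_div_succ (k + n - 1) (show 0 < n by omega)
      rw [Nat.mul_succ] at h1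
      omega
    · rcases le_or_gt k n with h | h
      · have h1 : (k + n - 1) / n = 1 := by
          rw [Nat.div_eq_iff (by omega)]
          omega
        rw [h1, mul_one]
        exact hPd
      · have h1 := Nat.mul_div_le (k + n - 1) n
        omega
  obtain ⟨M, hM⟩ : ∃ M, M = n * m := ⟨_, rfl⟩
  rw [← hM] at hkm hml
  have hhd : (P ^ m).natDegree = M := by
    rw [natDegree_pow, ← hn, hM, mul_comm]
  -- the identity of polynomials
  have hQ : ∑ d ∈ E, taylor d (P ^ m) = ∑ d ∈ E, (P + C d) ^ m := by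
    rw [← sub_eq_zero]
    refine eq_zero_of_natDegree_lt_card_of_eval_eq_zero' _ (Finset.univ : Finset (ZMod l)) ?_ ?_
    · intro x _
      rw [eval_sub, eval_finsetSum, eval_finsetSum, sub_eq_zero]
      have hmap : Set.MapsTo (fun d => g (x + d) - g x) (E : Set (ZMod l)) (E : Set (ZMod l)) :=
        fun d hd => hinv x d hd
      have hinj : Set.InjOn (fun d => g (x + d) - g x) (E : Set (ZMod l)) := by
        intro d _ d' _ h
        have h1 : g (x + d) = g (x + d') := by
          have h2 : g (x + d) - g x = g (x + d') - g x := h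
          exact sub_left_injective h2
        exact add_left_cancel (hg h1)
      refine Finset.sum_nbij (fun d => g (x + d) - g x) (fun d hd => hinv x d hd) hinj
        (Finset.surjOn_of_injOn_of_card_le _ hmap hinj le_rfl) (fun d _ => ?_)
      rw [taylor_eval, eval_pow, eval_pow, eval_add, eval_C, hPe, hPe]
      congr 1
      ring
    · rw [Finset.card_univ, ZMod.card]
      refine lt_of_le_of_lt (natDegree_sub_le _ _) (max_lt ?_ ?_)
      · refine lt_of_le_of_lt (natDegree_sum_le_of_forall_le (n := M) E _ fun d _ => ?_) hml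
        rw [natDegree_taylor, hhd]
      · refine lt_of_le_of_lt (natDegree_sum_le_of_forall_le (n := M) E _ fun d _ => ?_) hml
        refine (natDegree_pow_le).trans ?_
        rw [hM, mul_comm n m]
        refine Nat.mul_le_mul_left m ((natDegree_add_le _ _).trans ?_)
        rw [natDegree_C, ← hn]
        omega
  -- compare the coefficients
  have hco := congrArg (fun q : (ZMod l)[X] => q.coeff (M - k)) hQ
  simp only [finsetSum_coeff] at hco
  have hL : ∑ d ∈ E, (taylor d (P ^ m)).coeff (M - k) =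
      (P ^ m).coeff (M - k) * (∑ d ∈ E, d ^ 0) +
        ((M.choose (M - k) : ℕ) : ZMod l) * (P ^ m).coeff M * (∑ d ∈ E, d ^ k) := by
    rw [Finset.sum_congr rfl fun d _ => aff_taylor (P ^ m) M k hhd.le hkm d, Finset.sum_comm,
      Finset.sum_range_succ, Finset.sum_eq_single 0]
    · rw [← Finset.mul_sum, ← Finset.mul_sum, zero_add, Nat.choose_self, Nat.cast_one, one_mul,
        Nat.add_sub_cancel' hkm]
    · intro j hj hj0
      rw [← Finset.mul_sum, hkmin j (Nat.one_le_iff_ne_zero.2 hj0) (Finset.mem_range.1 hj), mul_zero]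
    · intro h
      exact absurd (Finset.mem_range.2 hk1) h
  have hR : (∑ d ∈ E, (P + C d) ^ m).coeff (M - k) = (P ^ m).coeff (M - k) * (∑ d ∈ E, d ^ 0) := by
    rw [aff_pow, finsetSum_coeff, Finset.sum_range_succ, Finset.sum_eq_zero, zero_add, Nat.sub_self,
      Nat.choose_self, Nat.cast_one, mul_one, coeff_mul_C]
    intro j hj
    have hjm := Finset.mem_range.1 hj
    rcases lt_or_ge (m - j) k with h | h
    · rw [hkmin (m - j) (by omega) h, C_0, mul_zero, zero_mul, coeff_zero]
    · have h1 : (P ^ j).coeff (M - k) = 0 := by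
        apply coeff_eq_zero_of_natDegree_lt
        rw [natDegree_pow, ← hn]
        have h2 : j + k ≤ m := by omega
        have h3 : n * (j + k) ≤ M := by
          rw [hM]
          exact Nat.mul_le_mul_left n h2
        have h4 : n * (j + k) = j * n + n * k := by ring
        have h5 : 2 * k ≤ n * k := Nat.mul_le_mul_right k hn2
        omega
      rw [mul_assoc, mul_comm (C _), ← mul_assoc, coeff_mul_C, ← C_eq_natCast, coeff_mul_C, h1,
        zero_mul, zero_mul]
  rw [finsetSum_coeff] at hR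
  rw [hL, hR] at hco
  have hz : ((M.choose (M - k) : ℕ) : ZMod l) * (P ^ m).coeff M * (∑ d ∈ E, d ^ k) = 0 := by
    linear_combination hco
  have hch : ((M.choose (M - k) : ℕ) : ZMod l) ≠ 0 := by
    intro h
    rw [ZMod.natCast_eq_zero_iff] at h
    have h1 := Nat.choose_mul_factorial_mul_factorial (Nat.sub_le M k)
    have h2 : l ∣ M.factorial := by
      rw [← h1]
      exact dvd_mul_of_dvd_left (dvd_mul_of_dvd_left h _) _
    rw [hl.dvd_factorial] at h2
    omega
  have hlead : (P ^ m).coeff M ≠ 0 := by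
    rw [← hhd]
    exact leadingCoeff_ne_zero.2 (pow_ne_zero m hP0)
  exact mul_ne_zero (mul_ne_zero hch hlead) hkne hz

end Pool.Agent.EXM
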