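import Mathlib

/-!
# EXM-Bnd: the bound for one block (definitions)
-/

set_option autoImplicit false

namespace Pool.Agent.EXM

/-- An upper bound for the order of the Galois group of a block of `b` primes `l ≤ L`. -/
noncomputable def Mb (b L : ℕ) : ℕ := (b * L) ^ (b * L)

/-- The upper bound for `∑ log p / p` over the primes `p ≤ X` for which no polynomial of the block
has a root. -/
noncomputable def bnd (b L : ℕ) (X : ℝ) : ℝ :=
  ((Nat.log 2 (Mb b L) + 1 : ℕ) : ℝ) * (1 / 2) ^ b *
    (2 * Real.log (2 * X) +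
      2 * (Mb b L : ℝ) * Real.log (2 * (Mb b L : ℝ) * ((Mb b L : ℝ) * ((L : ℝ) + 1) ^ (L * (b * L)))))

end Pool.Agent.EXM
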