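import Pool.Agent.EXM.Defs

/-!
# EXM-Card: the roots of `fk l` in `𝓞 N`

If `(X+1)...(X+l) - 1` splits in `N` it has exactly `l` roots in the ring of integers, and the Galois group
permutes them transitively.
-/

set_option autoImplicit false

namespace Pool.Agent.EXM

open Polynomial NumberField Pool.Agent.Helper1.SP

variable {N : Type} [Field N] [NumberField N]

set_option linter.unusedSectionVars false

private theorem map_eq (l : ℕ) : (fk l).map (algebraMap ℤ N) =
    ((fk l).map (Int.castRingHom ℚ)).map (algebraMap ℚ N) := by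
  rw [Polynomial.map_map]
  congr 1
  exact Subsingleton.elim _ _

private theorem aeval_iff (l : ℕ) (x : 𝓞 N) :
    aeval x (fk l) = 0 ↔ ((fk l).map (algebraMap ℤ N)).eval (x : N) = 0 := by
  rw [← aeval_algebraMap_eq_zero_iff N x (fk l), aeval_def, eval_map]

private theorem map_monic (l : ℕ) (hl : 1 ≤ l) : ((fk l).map (algebraMap ℤ N)).Monic :=
  (fk_monic l hl).map _

private theorem inj_rt (l : ℕ) : Function.Injective (fun x : Rt N l => ((x.1 : 𝓞 N) : N)) := by
  intro x y h
  exact Subtype.ext (RingOfIntegers.ext h)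

private theorem mem_rt (l : ℕ) (hl : 1 ≤ l) (x : Rt N l) :
    ((x.1 : 𝓞 N) : N) ∈ ((fk l).map (algebraMap ℤ N)).rootSet N := by
  rw [mem_rootSet]
  refine ⟨(map_monic l hl).ne_zero, ?_⟩
  rw [aeval_def, Algebra.algebraMap_self, eval₂_id]
  exact (aeval_iff l x.1).1 x.2

private noncomputable def toN (l : ℕ) (hl : 1 ≤ l) (x : Rt N l) :
    ((fk l).map (algebraMap ℤ N)).rootSet N := ⟨((x.1 : 𝓞 N) : N), mem_rt l hl x⟩

private theorem toN_inj (l : ℕ) (hl : 1 ≤ l) : Function.Injective (toN (N := N) l hl) := by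
  intro x y h
  have h' : ((x.1 : 𝓞 N) : N) = ((y.1 : 𝓞 N) : N) :=
    congrArg (fun z : ((fk l).map (algebraMap ℤ N)).rootSet N => (z : N)) h
  exact inj_rt l h'

private theorem surj_rt (l : ℕ) (hl : 1 ≤ l) (y : N)
    (hy : y ∈ ((fk l).map (algebraMap ℤ N)).rootSet N) : ∃ x : Rt N l, ((x.1 : 𝓞 N) : N) = y := by
  rw [mem_rootSet] at hy
  have h1 : ((fk l).map (algebraMap ℤ N)).eval y = 0 := by
    have := hy.2
    rwa [aeval_def, Algebra.algebraMap_self, eval₂_id] at this
  have h2 : IsIntegral ℤ y := ⟨fk l, fk_monic l hl, by rwa [eval_map] at h1⟩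
  exact ⟨⟨⟨y, h2⟩, (aeval_iff l _).2 h1⟩, rfl⟩

theorem card_rt (l : ℕ) (hl : 1 ≤ l) (hs : ((fk l).map (algebraMap ℤ N)).Splits) :
    Nat.card (Rt N l) = l := by
  have hsep : ((fk l).map (algebraMap ℤ N)).Separable := by
    rw [map_eq]
    exact (fk_irr l hl).separable.map
  have h1 : Fintype.card (((fk l).map (algebraMap ℤ N)).rootSet N) =
      ((fk l).map (algebraMap ℤ N)).natDegree := by
    apply card_rootSet_eq_natDegree hsep
    rwa [Algebra.algebraMap_self, Polynomial.map_id]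
  rw [(fk_monic l hl).natDegree_map, fk_natDegree, ← Nat.card_eq_fintype_card] at h1
  have hb : Function.Bijective (toN (N := N) l hl) := by
    refine ⟨toN_inj l hl, ?_⟩
    intro y
    obtain ⟨x, hx⟩ := surj_rt l hl y.1 y.2
    exact ⟨x, Subtype.ext hx⟩
  exact (Nat.card_eq_of_bijective (toN (N := N) l hl) hb).trans h1

theorem finite_rt (l : ℕ) (hl : 1 ≤ l) : Finite (Rt N l) := by
  exact Finite.of_injective (toN l hl) (toN_inj l hl)

theorem transitive_rt [IsGalois ℚ N] (l : ℕ) (hl : 1 ≤ l) (x y : Rt N l) : ∃ g : Gl N, g • x = y := by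
  have key : ∀ x : Rt N l, (fk l).map (Int.castRingHom ℚ) = minpoly ℚ ((x.1 : 𝓞 N) : N) := by
    intro x
    apply minpoly.eq_of_irreducible_of_monic (fk_irr l hl) _ ((fk_monic l hl).map _)
    have h1 := (aeval_iff l x.1).1 x.2
    rw [map_eq] at h1
    rw [aeval_def, ← eval_map]
    exact h1
  have h2 : IsConjRoot ℚ ((x.1 : 𝓞 N) : N) ((y.1 : 𝓞 N) : N) := (key x).symm.trans (key y)
  obtain ⟨g, hg⟩ := isConjRoot_iff_exists_algEquiv.1 h2
  exact ⟨g.symm, Subtype.ext (RingOfIntegers.ext ((AlgEquiv.symm_apply_eq g).2 hg.symm))⟩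

end Pool.Agent.EXM
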