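import Mathlib

/-!
# EXM-Der: few elements are derangements on every `Ω i`

Plan.  Let `f i g` be the number of fixed points of `g` on `Ω i` (`Nat.card (MulAction.fixedBy ..)`).
`(f i g - 1) * (f i g - 2) = f (f - 1) - 2 f + 2` is `≥ 0` for every natural number `f i g` and `= 2`
if `f i g = 0`.  So `2 ^ card ι * #{derangements everywhere} ≤ ∑ g, ∏ i, (f (f-1) - 2 f + 2)`.
Expand the product (`Finset.prod_add`, or `Finset.prod_univ_sum` over the functions
`ε : ι → Fin 3`, with `t_0 = f (f-1)`, `t_1 = -2 f`, `t_2 = 2`).  For every `ε` the sum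
`∑ g, ∏_{ε i = 0} f_i (f_i - 1) * ∏_{ε i = 1} f_i` is the number of pairs (g, fixed point of `g` in
the product of the `G`-sets `{(a, b) : a ≠ b}` (`ε i = 0`), `Ω i` (`ε i = 1`), `Unit`), i.e.
`card G *` (number of orbits) (Burnside, `MulAction.sum_card_fixedBy_eq_card_orbits_mul_card_group`),
and there is exactly one orbit by `htr`.  So it is `card G` and the total is
`card G * ∏ i (1 - 2 + 2) = card G`.  (Alternative without the expansion: induction on a finite
set of indices, counting for every choice of pairs the elements of `G` which fix them; or: the number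
of `g` with `g a = a, g b = b` for given pairs `(a_i, b_i)`, `i ∈ A`, and points `a_i`, `i ∈ B`, is
`card G / (∏_A q_i (q_i - 1) ∏_B q_i)` by orbit-stabilizer.)
-/

set_option autoImplicit false

namespace Pool.Agent.EXM

open Finset

private theorem sum_offDiag' {α : Type} [Fintype α] [DecidableEq α] (F : α → α → ℚ) :
    ∑ p ∈ (univ : Finset α).offDiag, F p.1 p.2 = ∑ a, ∑ b, F a b - ∑ a, F a a := by
  have h1 : ∑ p ∈ (univ : Finset α) ×ˢ (univ : Finset α), F p.1 p.2 = ∑ a, ∑ b, F a b :=
    Finset.sum_product' _ _ _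
  have h2 : ∑ p ∈ (univ : Finset α).diag, F p.1 p.2 = ∑ a, F a a := by
    rw [Finset.sum_diag]
  rw [← h1, ← h2, ← Finset.diag_union_offDiag, Finset.sum_union (Finset.disjoint_diag_offDiag _)]
  ring

/-- the weight on pairs -/
private noncomputable def v {α : Type} [Fintype α] [DecidableEq α] (p p' : α × α) : ℚ :=
  (if p'.1 = p.1 then 1 else 0) * (if p'.2 = p.2 then 1 else 0)
    - 2 / ((Fintype.card α : ℚ) - 1) * (if p'.1 = p.1 then 1 else 0)
    + 2 / ((Fintype.card α : ℚ) * ((Fintype.card α : ℚ) - 1))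

private theorem sum_v {α : Type} [Fintype α] [DecidableEq α] (h2 : 2 ≤ Fintype.card α)
    (p : α × α) (hp : p.1 ≠ p.2) : ∑ p' ∈ (univ : Finset α).offDiag, v p p' = 1 := by
  have hq : (2 : ℚ) ≤ (Fintype.card α : ℚ) := by exact_mod_cast h2
  have hq0 : (Fintype.card α : ℚ) ≠ 0 := by linarith
  have hq1 : (Fintype.card α : ℚ) - 1 ≠ 0 := by linarith
  unfold v
  rw [sum_offDiag' (fun a b => (if a = p.1 then (1 : ℚ) else 0) * (if b = p.2 then 1 else 0)
    - 2 / ((Fintype.card α : ℚ) - 1) * (if a = p.1 then 1 else 0)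
    + 2 / ((Fintype.card α : ℚ) * ((Fintype.card α : ℚ) - 1)))]
  have hz : ∀ a : α, (if a = p.1 then (1 : ℚ) else 0) * (if a = p.2 then 1 else 0) = 0 := by
    intro a
    by_cases h : a = p.1
    · have : a ≠ p.2 := by rw [h]; exact hp
      simp [this]
    · simp [h]
  simp only [hz, Finset.sum_add_distrib, Finset.sum_sub_distrib, ← Finset.mul_sum,
    Finset.sum_ite_eq', Finset.mem_univ, if_true, Finset.sum_const, Finset.card_univ,
    nsmul_eq_mul, mul_one, Finset.sum_const_zero, ← Finset.sum_mul]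
  field_simp
  ring

private theorem sum_v_smul {G α : Type} [Group G] [MulAction G α] [Fintype α] [DecidableEq α]
    (h2 : 2 ≤ Fintype.card α) (g : G) :
    ∑ p ∈ (univ : Finset α).offDiag, v p (g • p) =
      (((univ.filter (fun a : α => g • a = a)).card : ℚ) - 1) *
        (((univ.filter (fun a : α => g • a = a)).card : ℚ) - 2) := by
  have hq : (2 : ℚ) ≤ (Fintype.card α : ℚ) := by exact_mod_cast h2
  have hq0 : (Fintype.card α : ℚ) ≠ 0 := by linarith
  have hq1 : (Fintype.card α : ℚ) - 1 ≠ 0 := by linarith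
  have hf : ((univ.filter (fun a : α => g • a = a)).card : ℚ) =
      ∑ a : α, (if g • a = a then (1 : ℚ) else 0) := by
    rw [Finset.sum_boole]
  rw [hf]
  set f : ℚ := ∑ a : α, (if g • a = a then (1 : ℚ) else 0) with hfdef
  unfold v
  simp only [Prod.smul_fst, Prod.smul_snd]
  rw [sum_offDiag' (fun a b => (if g • a = a then (1 : ℚ) else 0) * (if g • b = b then 1 else 0)
    - 2 / ((Fintype.card α : ℚ) - 1) * (if g • a = a then 1 else 0)
    + 2 / ((Fintype.card α : ℚ) * ((Fintype.card α : ℚ) - 1)))]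
  have hz : ∀ a : α, (if g • a = a then (1 : ℚ) else 0) * (if g • a = a then 1 else 0)
      = if g • a = a then (1 : ℚ) else 0 := by
    intro a; by_cases h : g • a = a <;> simp [h]
  simp only [hz, Finset.sum_add_distrib, Finset.sum_sub_distrib, ← Finset.mul_sum,
    Finset.sum_const, Finset.card_univ, nsmul_eq_mul, ← Finset.sum_mul, ← hfdef]
  field_simp
  ring

private theorem sum_orbit {G X : Type} [Group G] [Fintype G] [MulAction G X] [DecidableEq X]
    (D : Finset X) (hD : ∀ (g : G), ∀ p ∈ D, g • p ∈ D)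
    (htr : ∀ p ∈ D, ∀ p' ∈ D, ∃ g : G, g • p = p') (p : X) (hp : p ∈ D) (φ : X → ℚ) :
    (D.card : ℚ) * ∑ g : G, φ (g • p) = (Fintype.card G : ℚ) * ∑ p' ∈ D, φ p' := by
  classical
  have hN : ∀ p' ∈ D, ((univ.filter (fun g : G => g • p = p')).card) =
      (univ.filter (fun g : G => g • p = p)).card := by
    intro p' hp'
    obtain ⟨h, hh⟩ := htr p hp p' hp'
    symm
    apply Finset.card_bij (fun g _ => h * g)
    · intro g hg
      simp only [Finset.mem_filter, Finset.mem_univ, true_and] at hg ⊢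
      rw [mul_smul, hg, hh]
    · intro a _ b _ hab
      exact mul_left_cancel hab
    · intro b hb
      simp only [Finset.mem_filter, Finset.mem_univ, true_and] at hb
      refine ⟨h⁻¹ * b, ?_, by group⟩
      simp only [Finset.mem_filter, Finset.mem_univ, true_and]
      rw [mul_smul, hb, ← hh, inv_smul_smul]
  have hcard : Fintype.card G = D.card * (univ.filter (fun g : G => g • p = p)).card := by
    have := Finset.card_eq_sum_card_fiberwise (f := fun g : G => g • p) (s := univ) (t := D)
      (fun g _ => hD g p hp)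
    rw [Finset.card_univ] at this
    rw [this, Finset.sum_congr rfl hN, Finset.sum_const, smul_eq_mul]
  have hsum : ∑ g : G, φ (g • p) = ∑ p' ∈ D, ((univ.filter (fun g : G => g • p = p)).card : ℚ) * φ p' := by
    rw [← Finset.sum_fiberwise_of_maps_to (s := univ) (t := D) (g := fun g : G => g • p)
      (fun g _ => hD g p hp)]
    apply Finset.sum_congr rfl
    intro p' hp'
    rw [← hN p' hp', Finset.card_eq_sum_ones, Nat.cast_sum, Finset.sum_mul]
    apply Finset.sum_congr rfl
    intro g hg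
    simp only [Finset.mem_filter, Finset.mem_univ, true_and] at hg
    rw [hg]; simp
  rw [hsum, ← Finset.mul_sum, hcard]
  push_cast
  ring

theorem card_derange {G ι : Type} [Group G] [Finite G] [Fintype ι] (Ω : ι → Type)
    [∀ i, MulAction G (Ω i)] [∀ i, Finite (Ω i)] (h2 : ∀ i, 2 ≤ Nat.card (Ω i))
    (htr : ∀ x y x' y' : ∀ i, Ω i, (∀ i, x i ≠ y i) → (∀ i, x' i ≠ y' i) →
      ∃ g : G, ∀ i, g • x i = x' i ∧ g • y i = y' i) :
    2 ^ Fintype.card ι * Nat.card {g : G // ∀ i, ∀ x : Ω i, g • x ≠ x} ≤ Nat.card G := by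
  classical
  haveI : Fintype G := Fintype.ofFinite G
  haveI : ∀ i, Fintype (Ω i) := fun i => Fintype.ofFinite (Ω i)
  have h2' : ∀ i, 2 ≤ Fintype.card (Ω i) := fun i => by
    rw [← Nat.card_eq_fintype_card]; exact h2 i
  set D : Finset (∀ i, Ω i × Ω i) :=
    Fintype.piFinset (fun i => (univ : Finset (Ω i)).offDiag) with hDdef
  have hmem : ∀ p : ∀ i, Ω i × Ω i, p ∈ D ↔ ∀ i, (p i).1 ≠ (p i).2 := by
    intro p
    simp [hDdef, Fintype.mem_piFinset, Finset.mem_offDiag]
  have hD : ∀ (g : G), ∀ p ∈ D, g • p ∈ D := by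
    intro g p hp
    rw [hmem] at hp ⊢
    intro i h
    apply hp i
    simpa using h
  have htr' : ∀ p ∈ D, ∀ p' ∈ D, ∃ g : G, g • p = p' := by
    intro p hp p' hp'
    rw [hmem] at hp hp'
    obtain ⟨g, hg⟩ := htr (fun i => (p i).1) (fun i => (p i).2) (fun i => (p' i).1)
      (fun i => (p' i).2) hp hp'
    refine ⟨g, funext fun i => ?_⟩
    apply Prod.ext
    · exact (hg i).1
    · exact (hg i).2
  have hDne : D.Nonempty := by
    have : ∀ i, ∃ p : Ω i × Ω i, p.1 ≠ p.2 := by
      intro i
      obtain ⟨a, b, hab⟩ := Fintype.exists_pair_of_one_lt_card (h2' i)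
      exact ⟨(a, b), hab⟩
    choose p hp using this
    exact ⟨p, (hmem p).2 hp⟩
  have hDpos : (0 : ℚ) < (D.card : ℚ) := by exact_mod_cast hDne.card_pos
  -- the sum over the group
  have key : ∑ g : G, ∏ i, ∑ p ∈ (univ : Finset (Ω i)).offDiag, v p (g • p) =
      (Fintype.card G : ℚ) := by
    have h1 : ∀ g : G, ∏ i, ∑ p ∈ (univ : Finset (Ω i)).offDiag, v p (g • p) =
        ∑ p ∈ D, ∏ i, v (p i) ((g • p) i) := by
      intro g
      rw [Finset.prod_univ_sum]
      rfl
    simp_rw [h1]
    rw [Finset.sum_comm]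
    have h3 : ∀ p ∈ D, (D.card : ℚ) * ∑ g : G, ∏ i, v (p i) ((g • p) i) =
        (Fintype.card G : ℚ) := by
      intro p hp
      rw [sum_orbit D hD htr' p hp (fun p' => ∏ i, v (p i) (p' i))]
      have : ∑ p' ∈ D, ∏ i, v (p i) (p' i) = 1 := by
        rw [hDdef, ← Finset.prod_univ_sum]
        apply Finset.prod_eq_one
        intro i _
        exact sum_v (h2' i) (p i) ((hmem p).1 hp i)
      rw [this, mul_one]
    have h4 : ∑ p ∈ D, ∑ g : G, ∏ i, v (p i) ((g • p) i) =
        ∑ p ∈ D, (Fintype.card G : ℚ) / (D.card : ℚ) := by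
      apply Finset.sum_congr rfl
      intro p hp
      rw [eq_div_iff hDpos.ne', mul_comm]
      exact h3 p hp
    rw [h4, Finset.sum_const, nsmul_eq_mul]
    field_simp
  have hnn : ∀ g : G, 0 ≤ ∏ i, ∑ p ∈ (univ : Finset (Ω i)).offDiag, v p (g • p) := by
    intro g
    apply Finset.prod_nonneg
    intro i _
    rw [sum_v_smul (h2' i)]
    set n := (univ.filter (fun a : Ω i => g • a = a)).card
    rcases Nat.lt_or_ge n 2 with h | h
    · interval_cases n <;> norm_num
    · have : (2 : ℚ) ≤ (n : ℚ) := by exact_mod_cast h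
      apply mul_nonneg <;> linarith
  have hder : ∀ g : G, (∀ i, ∀ x : Ω i, g • x ≠ x) →
      ∏ i, ∑ p ∈ (univ : Finset (Ω i)).offDiag, v p (g • p) = 2 ^ Fintype.card ι := by
    intro g hg
    rw [Finset.prod_congr rfl (g := fun _ => (2 : ℚ))]
    · simp
    · intro i _
      rw [sum_v_smul (h2' i)]
      have : (univ.filter (fun a : Ω i => g • a = a)) = ∅ := by
        apply Finset.filter_eq_empty_iff.2
        intro a _
        exact hg i a
      rw [this]
      norm_num
  have hle : (2 : ℚ) ^ Fintype.card ι *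
      ((univ.filter (fun g : G => ∀ i, ∀ x : Ω i, g • x ≠ x)).card : ℚ) ≤ (Fintype.card G : ℚ) := by
    rw [← key, mul_comm, ← nsmul_eq_mul, ← Finset.sum_const]
    calc ∑ _g ∈ univ.filter (fun g : G => ∀ i, ∀ x : Ω i, g • x ≠ x), (2 : ℚ) ^ Fintype.card ι
        = ∑ g ∈ univ.filter (fun g : G => ∀ i, ∀ x : Ω i, g • x ≠ x),
            ∏ i, ∑ p ∈ (univ : Finset (Ω i)).offDiag, v p (g • p) := by
          apply Finset.sum_congr rfl
          intro g hg
          rw [hder g (Finset.mem_filter.1 hg).2]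
      _ ≤ _ := by
          apply Finset.sum_le_sum_of_subset_of_nonneg (Finset.filter_subset _ _)
          intro g _ _
          exact hnn g
  rw [Nat.card_eq_fintype_card, Nat.card_eq_fintype_card, Fintype.card_subtype]
  exact_mod_cast hle

end Pool.Agent.EXM
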