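import Pool.Agent.EXM.Defs

/-!
# EXM-ModTwo (1.2h): `(X+1)...(X+l) - 1` modulo 2 for `l = 3` modulo 14

Plan.  Write `l = 14 j + 3`.  Modulo 2 the product is `(X+1)^(7j+2) * X^(7j+1)` (odd / even shifts;
`Finset.prod` over `range`, induction on `l` by steps of 2 or `Finset.prod_range_succ` twice).  So
`f = (X+1)^(7j+2) X^(7j+1) - 1`.
(1) no root in `ZMod 2`: `f(0) = f(1) = -1` (`7j+1 ≥ 1`).
(2) separable: the derivative is `X^(7j) (X+1)^(7j+1) * (a (X+1) + (a+1) X)`, `a = 7j+1` as an element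
of `ZMod 2`, `= X^(7j) (X+1)^(7j+1) (X + a)`, a product of factors `X` and `X+1`; `f` is coprime to `X`
and to `X+1` (it is `-1` modulo each of them), so coprime to the derivative.
(3) `X^3+X+1 ∣ f`: in `A = (ZMod 2)[X] / (X^3+X+1)` (`AdjoinRoot`), `x + 1 = x^3` (char 2) and
`x^7 = 1` (x^3 = x+1, x^4 = x^2+x, x^5 = x^3+x^2 = x^2+x+1, x^6 = x^3+x^2+x = x^2+1, x^7 = x^3+x = 1);
so `(x+1)^(7j+2) x^(7j+1) = x^(21j+6+7j+1) = x^(28 j + 7) = 1`.
-/

set_option autoImplicit false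

namespace Pool.Agent.EXM

open Polynomial NumberField Pool.Agent.Helper1.SP

private theorem prod_two (m : ℕ) :
    ∏ i ∈ Finset.range (2 * m + 1), (X + C ((i : ZMod 2) + 1) : (ZMod 2)[X]) =
      (X + 1) ^ (m + 1) * X ^ m := by
  induction m with
  | zero => simp
  | succ m ih =>
    have e : 2 * (m + 1) + 1 = (2 * m + 1) + 1 + 1 := by ring
    rw [e, Finset.prod_range_succ, Finset.prod_range_succ, ih]
    have e2 : (2 : ZMod 2) = 0 := by decide
    have h1 : (((2 * m + 1 : ℕ) : ZMod 2) + 1) = 0 := by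
      push_cast
      linear_combination ((m : ZMod 2) + 1) * e2
    have h2 : (((2 * m + 1 + 1 : ℕ) : ZMod 2) + 1) = 1 := by
      push_cast
      linear_combination ((m : ZMod 2) + 1) * e2
    rw [h1, h2, C_0, C_1, add_zero]
    ring

private theorem fk_two (l : ℕ) (hl : l % 14 = 3) :
    ∃ a : ℕ, ∃ j : ℕ, a = 7 * j + 1 ∧ (fk l).map (Int.castRingHom (ZMod 2)) =
      (X + 1) ^ (a + 1) * X ^ a - 1 := by
  refine ⟨7 * (l / 14) + 1, l / 14, rfl, ?_⟩
  have e : l = 2 * (7 * (l / 14) + 1) + 1 := by omega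
  have h := prod_two (7 * (l / 14) + 1)
  rw [← h, ← e]
  unfold fk
  simp [Polynomial.map_prod]

theorem mod_two_root (l : ℕ) (hl : l % 14 = 3) (x : ZMod 2) :
    ((fk l).map (Int.castRingHom (ZMod 2))).eval x ≠ 0 := by
  obtain ⟨a, j, ha, h⟩ := fk_two l hl
  rw [h]
  have ha1 : a ≠ 0 := by omega
  have hx : x = 0 ∨ x = 1 := by
    revert x
    decide
  rcases hx with rfl | rfl
  · simp [ha1]
  · have e2 : (1 + 1 : ZMod 2) = 0 := by decide
    simp [e2]

theorem mod_two_separable (l : ℕ) (hl : l % 14 = 3) :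
    ((fk l).map (Int.castRingHom (ZMod 2))).Separable := by
  obtain ⟨a, j, ha, h⟩ := fk_two l hl
  rw [h]
  obtain ⟨b, rfl⟩ : ∃ b, a = b + 1 := ⟨a - 1, by omega⟩
  have e2 : (2 : (ZMod 2)[X]) = 0 := by
    have : (2 : ZMod 2) = 0 := by decide
    have h3 : (2 : (ZMod 2)[X]) = C (2 : ZMod 2) := (map_ofNat C 2).symm
    rw [h3, this, C_0]
  have c1 : IsCoprime ((X + 1) ^ (b + 1 + 1) * X ^ (b + 1) - 1 : (ZMod 2)[X]) X :=
    ⟨-1, (X + 1) ^ (b + 1 + 1) * X ^ b, by ring⟩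
  have c2 : IsCoprime ((X + 1) ^ (b + 1 + 1) * X ^ (b + 1) - 1 : (ZMod 2)[X]) (X + 1) :=
    ⟨-1, (X + 1) ^ (b + 1) * X ^ (b + 1), by ring⟩
  have c3 : IsCoprime ((X + 1) ^ (b + 1 + 1) * X ^ (b + 1) - 1 : (ZMod 2)[X])
      (X + C (((b + 1 : ℕ)) : ZMod 2)) := by
    have hb : (((b + 1 : ℕ)) : ZMod 2) = 0 ∨ (((b + 1 : ℕ)) : ZMod 2) = 1 := by
      generalize (((b + 1 : ℕ)) : ZMod 2) = y
      revert y
      decide
    rcases hb with hb | hb
    · rw [hb, C_0, add_zero]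
      exact c1
    · rw [hb, C_1]
      exact c2
  rw [Polynomial.Separable]
  have hd : derivative ((X + 1) ^ (b + 1 + 1) * X ^ (b + 1) - 1 : (ZMod 2)[X]) =
      (X + 1) ^ (b + 1) * X ^ b * (X + C (((b + 1 : ℕ)) : ZMod 2)) := by
    rw [derivative_sub, derivative_one, sub_zero, derivative_mul, derivative_pow, derivative_pow,
      derivative_add, derivative_X, derivative_one, Nat.add_sub_cancel, Nat.add_sub_cancel]
    simp only [map_natCast]
    push_cast
    linear_combination ((X + 1) ^ (b + 1) * X ^ b * (((b : (ZMod 2)[X]) + 1) * X)) * e2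
  rw [hd]
  exact ((c2.pow_right).mul_right (c1.pow_right)).mul_right c3

private theorem key_two {A : Type*} [CommRing A] (h2 : (2 : A) = 0) (x : A)
    (hq : x ^ 3 + x + 1 = 0) (j : ℕ) :
    (x + 1) ^ (7 * j + 1 + 1) * x ^ (7 * j + 1) = 1 := by
  have h3 : x + 1 = x ^ 3 := by linear_combination hq - x ^ 3 * h2
  have h7 : x ^ 7 = 1 := by
    linear_combination (x ^ 4 + x ^ 2 + x + 1) * hq - (x ^ 5 + x ^ 4 + x ^ 3 + x ^ 2 + x + 1) * h2
  rw [h3, ← pow_mul, ← pow_add]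
  have e : 3 * (7 * j + 1 + 1) + (7 * j + 1) = 7 * (4 * j + 1) := by ring
  rw [e, pow_mul, h7, one_pow]

theorem mod_two_dvd (l : ℕ) (hl : l % 14 = 3) :
    (X ^ 3 + X + 1 : (ZMod 2)[X]) ∣ (fk l).map (Int.castRingHom (ZMod 2)) := by
  obtain ⟨a, j, ha, h⟩ := fk_two l hl
  rw [h, ← Ideal.mem_span_singleton, ← Ideal.Quotient.eq_zero_iff_mem]
  have e2 : (2 : (ZMod 2)[X]) = 0 := by
    have : (2 : ZMod 2) = 0 := by decide
    have h3 : (2 : (ZMod 2)[X]) = C (2 : ZMod 2) := (map_ofNat C 2).symm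
    rw [h3, this, C_0]
  set I : Ideal (ZMod 2)[X] := Ideal.span {X ^ 3 + X + 1} with hI
  have h2 : (2 : (ZMod 2)[X] ⧸ I) = 0 := by
    have := congrArg (Ideal.Quotient.mk I) e2
    rw [map_ofNat, map_zero] at this
    exact this
  have hq : (Ideal.Quotient.mk I X) ^ 3 + (Ideal.Quotient.mk I X) + 1 = 0 := by
    have : Ideal.Quotient.mk I (X ^ 3 + X + 1) = 0 := by
      rw [Ideal.Quotient.eq_zero_iff_mem, hI]
      exact Ideal.mem_span_singleton_self _
    simpa using this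
  have h4 := key_two h2 _ hq j
  rw [ha]
  simp only [map_sub, map_mul, map_pow, map_add, map_one]
  rw [h4, sub_self]

end Pool.Agent.EXM
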