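import Pool.Agent.EXM.Frob
import Pool.Agent.EXM.ModTwo
import Pool.Agent.EXM.Card

/-!
# EXM-FrobTwo (1.3h): the Frobenius at 2
-/

set_option autoImplicit false

namespace Pool.Agent.EXM

open Polynomial NumberField Pool.Agent.Helper1.SP

variable {N : Type} [Field N] [NumberField N]

/-- factorisation of `fk l` over the ring of integers -/
private theorem ft_fact (l : ℕ) (hl : 1 ≤ l) (hs : ((fk l).map (algebraMap ℤ N)).Splits) :
    ∃ R : Multiset (𝓞 N), (∀ r ∈ R, aeval r (fk l) = 0) ∧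
      (fk l).map (algebraMap ℤ (𝓞 N)) = (R.map fun r => X - C r).prod := by
  have hm := fk_monic l hl
  have h1 := hs.eq_prod_roots_of_monic (hm.map _)
  have hint : ∀ r ∈ ((fk l).map (algebraMap ℤ N)).roots, ∃ r' : 𝓞 N, algebraMap (𝓞 N) N r' = r := by
    intro r hr
    have h2 := (mem_roots'.1 hr).2
    rw [IsRoot.def, eval_map_algebraMap] at h2
    have h3 : IsIntegral ℤ r := ⟨fk l, hm, by rw [← aeval_def]; exact h2⟩
    exact ⟨⟨r, h3⟩, rfl⟩
  choose! f hf using hint
  refine ⟨((fk l).map (algebraMap ℤ N)).roots.map f, ?_, ?_⟩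
  · intro r' hr'
    obtain ⟨r, hr, rfl⟩ := Multiset.mem_map.1 hr'
    have h2 := (mem_roots'.1 hr).2
    rw [IsRoot.def, eval_map_algebraMap, ← hf r hr, aeval_algebraMap_apply] at h2
    exact (FaithfulSMul.algebraMap_injective (𝓞 N) N) (h2.trans (map_zero _).symm)
  · apply map_injective (algebraMap (𝓞 N) N) (FaithfulSMul.algebraMap_injective (𝓞 N) N)
    rw [map_map, ← IsScalarTower.algebraMap_eq, h1, Polynomial.map_multiset_prod,
      Multiset.map_map, Multiset.map_map]
    congr 1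
    refine Multiset.map_congr (by rw [← h1]) fun r hr => ?_
    rw [← h1] at hr
    simp only [Function.comp_apply, Polynomial.map_sub, map_X, map_C]
    rw [hf r hr]

theorem frob_two [IsGalois ℚ N] (l : ℕ) (hl : l % 14 = 3)
    (hs : ((fk l).map (algebraMap ℤ N)).Splits) :
    ∃ g : Gl N, (∀ x : Rt N l, g • x ≠ x) ∧ ∃ x : Rt N l, g ^ 3 • x = x := by
  have hl1 : 1 ≤ l := by omega
  obtain ⟨Q, hQ⟩ := exists_above (N := N) 2 Nat.prime_two
  obtain ⟨g, hg⟩ := exists_frob 2 Nat.prime_two Q hQ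
  have hQp : Q.IsPrime := hQ.1
  let π : 𝓞 N →+* 𝓞 N ⧸ Q := Ideal.Quotient.mk Q
  have hπ : ∀ y : 𝓞 N, π (g • y) = π y ^ 2 := by
    intro y
    rw [← map_pow]
    exact Ideal.Quotient.eq.2 (hg y)
  have h2 : (2 : 𝓞 N ⧸ Q) = 0 := by
    have h := Ideal.Quotient.eq_zero_iff_mem.2 hQ.2
    rw [map_natCast] at h
    exact_mod_cast h
  have hchar : CharP (𝓞 N ⧸ Q) 2 := CharTwo.of_one_ne_zero_of_two_eq_zero one_ne_zero h2
  let c : ZMod 2 →+* 𝓞 N ⧸ Q := ZMod.castHom (dvd_refl 2) (𝓞 N ⧸ Q)
  have hc : Function.Injective c := c.injective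
  have hcomp : π.comp (algebraMap ℤ (𝓞 N)) = c.comp (Int.castRingHom (ZMod 2)) :=
    Subsingleton.elim _ _
  -- the polynomial over the residue field
  set F : (𝓞 N ⧸ Q)[X] := ((fk l).map (Int.castRingHom (ZMod 2))).map c with hF
  have hF' : F = ((fk l).map (algebraMap ℤ (𝓞 N))).map π := by
    rw [hF, map_map, map_map, hcomp]
  have hroot : ∀ x : 𝓞 N, aeval x (fk l) = 0 → F.eval (π x) = 0 := by
    intro x hx
    rw [hF', eval_map, eval₂_at_apply, eval_map_algebraMap, hx, map_zero]
  refine ⟨g, ?_, ?_⟩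
  · intro x hx
    have h3 : g • x.1 = x.1 := congrArg Subtype.val hx
    have h4 := hπ x.1
    rw [h3] at h4
    have h5 : π x.1 * (π x.1 - 1) = 0 := by
      linear_combination -h4
    have h6 : ∃ e : ZMod 2, c e = π x.1 := by
      rcases mul_eq_zero.1 h5 with h | h
      · exact ⟨0, by rw [map_zero, h]⟩
      · exact ⟨1, by rw [map_one]; exact (sub_eq_zero.1 h).symm⟩
    obtain ⟨e, he⟩ := h6
    have h7 := hroot x.1 x.2
    rw [← he, hF, eval_map, eval₂_at_apply] at h7
    exact mod_two_root l hl e (hc (h7.trans (map_zero c).symm))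
  · obtain ⟨R, hR, hfac⟩ := ft_fact l hl1 hs
    have hFR : F = ((R.map π).map fun a => X - C a).prod := by
      rw [hF', hfac, Polynomial.map_multiset_prod, Multiset.map_map, Multiset.map_map]
      congr 1
      refine Multiset.map_congr rfl fun r _ => ?_
      simp
    have hFroots : F.roots = R.map π := by
      rw [hFR, roots_multiset_prod_X_sub_C]
    have hFdeg : F.natDegree = Multiset.card (R.map π) := by
      rw [hFR, natDegree_multiset_prod_X_sub_C_eq_card]
    have hF0 : F ≠ 0 := by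
      rw [hFR]
      exact (monic_multiset_prod_of_monic _ _ fun a _ => monic_X_sub_C a).ne_zero
    obtain ⟨H, hH⟩ := mod_two_dvd l hl
    set P : (𝓞 N ⧸ Q)[X] := X ^ 3 + X + 1 with hP
    have hFP : F = P * H.map c := by
      rw [hF, hH, Polynomial.map_mul]
      congr 1
      simp [hP]
    have hP3 : P.natDegree = 3 := by
      rw [hP]
      compute_degree!
    have hPH : P * H.map c ≠ 0 := by rw [← hFP]; exact hF0
    have hP0 : P ≠ 0 := left_ne_zero_of_mul hPH
    have hH0 : H.map c ≠ 0 := right_ne_zero_of_mul hPH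
    have hPr : P.roots ≠ 0 := by
      intro h0
      have h3 : F.roots = P.roots + (H.map c).roots := by
        rw [hFP, roots_mul hPH]
      have h4 : F.natDegree = 3 + (H.map c).natDegree := by
        rw [hFP, natDegree_mul hP0 hH0, hP3]
      have h5 := card_roots' (H.map c)
      rw [h0, zero_add] at h3
      rw [← h3, hFroots, ← hFdeg, h4] at h5
      omega
    obtain ⟨a, ha⟩ := Multiset.exists_mem_of_ne_zero hPr
    have ha0 : a ^ 3 + a + 1 = 0 := by
      have h3 := (mem_roots'.1 ha).2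
      rw [IsRoot.def, hP] at h3
      simpa using h3
    have haF : a ∈ R.map π := by
      rw [← hFroots, mem_roots hF0, IsRoot.def, hFP, eval_mul]
      have h3 := (mem_roots'.1 ha).2
      rw [IsRoot.def] at h3
      rw [h3, zero_mul]
    obtain ⟨θ, hθ, hθa⟩ := Multiset.mem_map.1 haF
    refine ⟨⟨θ, hR θ hθ⟩, ?_⟩
    have h8 : a ^ 8 = a := by
      linear_combination (a ^ 5 - a ^ 3 - a ^ 2 + a + 2) * ha0 + (- 2 * a - 1 ) * h2
    have h9 : π (g ^ 3 • θ) = π θ := by
      have e : g ^ 3 • θ = g • (g • (g • θ)) := by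
        rw [pow_succ, pow_succ, pow_one, mul_smul, mul_smul]
      rw [e, hπ, hπ, hπ, hθa, ← pow_mul, ← pow_mul]
      exact h8
    have hsep : F.Separable := (mod_two_separable l hl).map
    have hsq := hsep.squarefree
    apply Subtype.ext
    show g ^ 3 • θ = θ
    by_contra hne
    set θ' : 𝓞 N := g ^ 3 • θ with hθ'
    have hθ'0 : aeval θ' (fk l) = 0 := by
      rw [hθ', ← smul_aeval_int, hR θ hθ, smul_zero]
    set fO : (𝓞 N)[X] := (fk l).map (algebraMap ℤ (𝓞 N)) with hfO
    have hr1 : fO.IsRoot θ := by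
      rw [IsRoot.def, hfO, eval_map_algebraMap]
      exact hR θ hθ
    obtain ⟨H1, hH1⟩ := dvd_iff_isRoot.2 hr1
    have hr2 : H1.IsRoot θ' := by
      have h10 : fO.eval θ' = 0 := by
        rw [hfO, eval_map_algebraMap]
        exact hθ'0
      rw [hH1, eval_mul, eval_sub, eval_X, eval_C] at h10
      rcases mul_eq_zero.1 h10 with h | h
      · exact absurd (sub_eq_zero.1 h) hne
      · exact h
    obtain ⟨H2, hH2⟩ := dvd_iff_isRoot.2 hr2
    have h11 : (X - C a) * (X - C a) ∣ F := by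
      refine ⟨H2.map π, ?_⟩
      rw [hF', hH1, hH2, Polynomial.map_mul, Polynomial.map_mul, Polynomial.map_sub,
        Polynomial.map_sub, map_X, map_C, map_C, h9, hθa, mul_assoc]
    exact not_isUnit_X_sub_C a (hsq _ h11)

end Pool.Agent.EXM
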