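import Pool.Agent.EXM.Card

/-!
# EXM-Inert: trivial inertia, and Frobenius elements without fixed points

An automorphism acting trivially modulo a prime `Q` above `p` fixes all the roots of the `fk l` which are
separable modulo `p`; a root fixed by a Frobenius element is congruent to an integer modulo `Q`.
-/

set_option autoImplicit false

namespace Pool.Agent.EXM

open Polynomial NumberField Pool.Agent.Helper1.SP

variable {N : Type} [Field N] [NumberField N]

private theorem smul_coe (g : Gl N) (x : 𝓞 N) : ((g • x : 𝓞 N) : N) = g (x : N) := rfl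

private theorem charP_quo (p : ℕ) (hp : p.Prime) (Q : Ideal (𝓞 N)) (hQ : Above p Q) : CharP (𝓞 N ⧸ Q) p := by
  have hQ1 := hQ.1
  have : Nontrivial (𝓞 N ⧸ Q) := Ideal.Quotient.nontrivial_iff.2 hQ.1.ne_top
  obtain ⟨q, hq⟩ := CharP.exists (𝓞 N ⧸ Q)
  have h0 : ((p : ℕ) : 𝓞 N ⧸ Q) = 0 := by
    have := (Ideal.Quotient.eq_zero_iff_mem (I := Q)).2 hQ.2
    simpa using this
  have hqp : q ∣ p := (CharP.cast_eq_zero_iff (𝓞 N ⧸ Q) q p).1 h0
  rcases (Nat.dvd_prime hp).1 hqp with h | h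
  · subst h
    exact absurd hq (fun h => CharP.false_of_nontrivial_of_char_one (R := 𝓞 N ⧸ Q))
  · subst h
    exact hq

private theorem eval_quo (p : ℕ) (Q : Ideal (𝓞 N)) [CharP (𝓞 N ⧸ Q) p] (f : ℤ[X]) (x : 𝓞 N) :
    eval (Ideal.Quotient.mk Q x) ((f.map (Int.castRingHom (ZMod p))).map (ZMod.castHom (dvd_refl p) (𝓞 N ⧸ Q))) =
      Ideal.Quotient.mk Q (aeval x f) := by
  rw [Polynomial.map_map, eval_map, aeval_def, hom_eval₂]
  congr 1
  exact Subsingleton.elim _ _

theorem good_of_separable (T : Finset ℕ)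
    (hgen : Algebra.adjoin ℚ {y : N | ∃ l ∈ T, ∃ x : Rt N l, y = (x.1 : N)} = ⊤)
    (p : ℕ) (hp : p.Prime) (hsep : ∀ l ∈ T, ((fk l).map (Int.castRingHom (ZMod p))).Separable)
    (Q : Ideal (𝓞 N)) (hQ : Above p Q) : Good Q := by
  intro σ hσ
  have hQ1 := hQ.1
  have hnt : Nontrivial (𝓞 N ⧸ Q) := Ideal.Quotient.nontrivial_iff.2 hQ.1.ne_top
  have hch := charP_quo p hp Q hQ
  have key : ∀ l ∈ T, ∀ x : Rt N l, σ • x.1 = x.1 := by
    intro l hl x
    by_contra hne
    have h1 : IsRoot ((fk l).map (algebraMap ℤ (𝓞 N))) x.1 := by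
      rw [IsRoot.def, eval_map, ← aeval_def]
      exact x.2
    have h2 : IsRoot ((fk l).map (algebraMap ℤ (𝓞 N))) (σ • x.1) := by
      rw [IsRoot.def, eval_map, ← aeval_def, ← smul_aeval_int, x.2, smul_zero]
    obtain ⟨G, hG⟩ := dvd_iff_isRoot.2 h1
    have hG2 : eval (σ • x.1) G = 0 := by
      rw [hG, IsRoot.def, eval_mul] at h2
      rcases mul_eq_zero.1 h2 with h | h
      · rw [eval_sub, eval_X, eval_C, sub_eq_zero] at h
        exact absurd h hne
      · exact h
    obtain ⟨H, hH⟩ := dvd_iff_isRoot.2 hG2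
    have hder : aeval x.1 (derivative (fk l)) ∈ Q := by
      have : aeval x.1 (derivative (fk l)) = eval x.1 (derivative ((fk l).map (algebraMap ℤ (𝓞 N)))) := by
        rw [derivative_map, eval_map, aeval_def]
      rw [this, hG, hH, derivative_mul, derivative_mul]
      simp only [eval_add, eval_mul, eval_sub, eval_X, eval_C, sub_self, zero_mul, add_zero, derivative_sub,
        derivative_X, derivative_C, sub_zero, one_mul]
      refine Ideal.mul_mem_right _ _ ?_
      rw [← neg_sub]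
      exact Q.neg_mem (hσ x.1)
    obtain ⟨u, v, huv⟩ := hsep l hl
    have h3 := congrArg (fun F : (ZMod p)[X] => eval (Ideal.Quotient.mk Q x.1)
      (F.map (ZMod.castHom (dvd_refl p) (𝓞 N ⧸ Q)))) huv
    simp only [Polynomial.map_add, Polynomial.map_mul, Polynomial.map_one, eval_add, eval_mul, eval_one] at h3
    rw [derivative_map, eval_quo, eval_quo, x.2, map_zero, mul_zero, zero_add,
      Ideal.Quotient.eq_zero_iff_mem.2 hder, mul_zero] at h3
    exact zero_ne_one h3
  apply AlgEquiv.ext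
  intro z
  have h4 : (σ : N →ₐ[ℚ] N) = AlgHom.id ℚ N := by
    refine AlgHom.ext_of_adjoin_eq_top hgen ?_
    rintro _ ⟨l, hl, x, rfl⟩
    have := congrArg (fun y : 𝓞 N => (y : N)) (key l hl x)
    simpa [smul_coe] using this
  exact DFunLike.congr_fun h4 z

theorem no_fixed_of_rho (l p : ℕ) (hp : p.Prime) (hl : 1 ≤ l) (hr : rho (fk l) p = 0)
    (Q : Ideal (𝓞 N)) (hQ : Above p Q) (g : Gl N) (hg : IsFrob p Q g) (x : Rt N l) : g • x ≠ x := by
  intro hx
  have hQ1 := hQ.1
  have hnt : Nontrivial (𝓞 N ⧸ Q) := Ideal.Quotient.nontrivial_iff.2 hQ.1.ne_top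
  have hdom : IsDomain (𝓞 N ⧸ Q) := Ideal.Quotient.isDomain Q
  have hch := charP_quo p hp Q hQ
  have : Fact p.Prime := ⟨hp⟩
  have h1 : x.1 - x.1 ^ p ∈ Q := by
    have h := hg x.1
    have h' := congrArg (fun y : Rt N l => y.1) hx
    simp only [smul_val] at h'
    rwa [h'] at h
  have h2 : (Ideal.Quotient.mk Q x.1) ^ p = Ideal.Quotient.mk Q x.1 := by
    rw [← map_pow]
    exact ((Ideal.Quotient.eq).2 h1).symm
  have hprod : (∏ n : ZMod p, (X - C n) : (ZMod p)[X]) = X ^ p - X := by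
    have hroots := FiniteField.roots_X_pow_card_sub_X (ZMod p)
    rw [ZMod.card] at hroots
    have hmon : (X ^ p - X : (ZMod p)[X]).Monic := by
      apply monic_X_pow_sub
      rw [degree_X]
      exact_mod_cast hp.one_lt
    have hdeg : (X ^ p - X : (ZMod p)[X]).natDegree = p := FiniteField.X_pow_card_sub_X_natDegree_eq _ hp.one_lt
    have := prod_multiset_X_sub_C_of_monic_of_roots_card_eq hmon (by rw [hroots, hdeg]; simp [ZMod.card])
    rw [hroots] at this
    exact this
  obtain ⟨n, hn⟩ : ∃ n : ZMod p, Ideal.Quotient.mk Q x.1 = ZMod.castHom (dvd_refl p) (𝓞 N ⧸ Q) n := by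
    have h3 := congrArg (fun F : (ZMod p)[X] => eval (Ideal.Quotient.mk Q x.1)
      (F.map (ZMod.castHom (dvd_refl p) (𝓞 N ⧸ Q)))) hprod
    simp only [Polynomial.map_prod, Polynomial.map_sub, Polynomial.map_pow, map_X, map_C, eval_prod, eval_sub,
      eval_pow, eval_X, eval_C, h2, sub_self] at h3
    obtain ⟨n, _, hn⟩ := Finset.prod_eq_zero_iff.1 h3
    exact ⟨n, sub_eq_zero.1 hn⟩
  have h4 : ((fk l).map (Int.castRingHom (ZMod p))).eval n = 0 := by
    apply (ZMod.castHom (dvd_refl p) (𝓞 N ⧸ Q)).injective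
    rw [map_zero, ← eval_map_apply, ← hn, eval_quo, x.2, map_zero]
  have h5 : 0 < rho (fk l) p := by
    unfold rho
    have : Nonempty {x : ZMod p // ((fk l).map (Int.castRingHom (ZMod p))).eval x = 0} := ⟨⟨n, h4⟩⟩
    exact Nat.card_pos
  omega

end Pool.Agent.EXM
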