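import Pool.Agent.EXM.Span

/-!
# EXM-Inv: independent integers fixed by `H` with small conjugates

The traces over `H` of the monomials of `Span` span the fixed field of `H` over `ℚ`; a basis among
them consists of integers fixed by `H`, whose conjugates are sums of conjugates of monomials.
-/

set_option autoImplicit false

namespace Pool.Agent.EXM

open Polynomial NumberField Pool.Agent.Helper1.SP

variable {N : Type} [Field N] [NumberField N]

/-- the trace over `H` as a linear map -/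
private noncomputable def trH (H : Subgroup (Gl N)) [Fintype H] : N →ₗ[ℚ] N :=
  ∑ h : H, (h : Gl N).toLinearMap

private theorem trH_apply (H : Subgroup (Gl N)) [Fintype H] (x : N) :
    trH H x = ∑ h : H, (h : Gl N) x := by
  simp [trH]

private theorem trH_fixed (H : Subgroup (Gl N)) [Fintype H] (x : N) (h : Gl N) (hh : h ∈ H) :
    h (trH H x) = trH H x := by
  rw [trH_apply, map_sum]
  refine Fintype.sum_equiv (Equiv.mulLeft (⟨h, hh⟩ : H)) _ _ (fun k => ?_)
  simp

private theorem trH_of_fixed (H : Subgroup (Gl N)) [Fintype H] (x : N)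
    (hx : ∀ h ∈ H, h x = x) : trH H x = (Fintype.card H : ℚ) • x := by
  rw [trH_apply]
  rw [Finset.sum_congr rfl (fun (h : H) _ => hx (h : Gl N) h.2)]
  rw [Finset.sum_const, Finset.card_univ, ← Nat.cast_smul_eq_nsmul ℚ]

private theorem range_trH (H : Subgroup (Gl N)) [Fintype H] :
    LinearMap.range (trH H) = Subalgebra.toSubmodule (IntermediateField.fixedField H).toSubalgebra := by
  apply le_antisymm
  · rintro _ ⟨x, rfl⟩
    rw [Subalgebra.mem_toSubmodule, IntermediateField.mem_toSubalgebra,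
      IntermediateField.mem_fixedField_iff]
    intro h hh
    exact trH_fixed H x h hh
  · intro x hx
    rw [Subalgebra.mem_toSubmodule, IntermediateField.mem_toSubalgebra,
      IntermediateField.mem_fixedField_iff] at hx
    refine ⟨(Fintype.card H : ℚ)⁻¹ • x, ?_⟩
    rw [map_smul, trH_of_fixed H x hx, smul_smul, inv_mul_cancel₀, one_smul]
    exact Nat.cast_ne_zero.2 Fintype.card_ne_zero

private theorem finrank_range [IsGalois ℚ N] (H : Subgroup (Gl N)) [Fintype H] :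
    Module.finrank ℚ (LinearMap.range (trH H)) = H.index := by
  rw [range_trH]
  change Module.finrank ℚ (IntermediateField.fixedField H) = H.index
  have h1 : Module.finrank (IntermediateField.fixedField H) N = Nat.card H :=
    IntermediateField.finrank_fixedField_eq_card H
  have h2 := Module.finrank_mul_finrank ℚ (IntermediateField.fixedField H) N
  have h3 : Nat.card (Gl N) = Module.finrank ℚ N := IsGalois.card_aut_eq_finrank ℚ N
  have h4 := Subgroup.index_mul_card H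
  have h5 : 0 < Nat.card H := Nat.card_pos
  rw [h1, ← h3, ← h4] at h2
  exact Nat.eq_of_mul_eq_mul_right h5 h2

theorem exists_bounded_invariants [IsGalois ℚ N] (Ω0 : Finset (𝓞 N))
    (hgen : Algebra.adjoin ℚ ((fun x : 𝓞 N => (x : N)) '' (Ω0 : Set (𝓞 N))) = ⊤) (L : ℕ) (hL : 1 ≤ L)
    (hdeg : ∀ θ ∈ Ω0, ∃ f : ℤ[X], f.Monic ∧ f.natDegree ≤ L ∧ aeval θ f = 0) (R : ℝ) (hR : 1 ≤ R)
    (hΩR : ∀ θ ∈ Ω0, ∀ φ : N →+* ℂ, ‖φ (θ : N)‖ ≤ R) (H : Subgroup (Gl N)) :
    ∃ ω : Fin H.index → 𝓞 N, (∀ i, ∀ h ∈ H, h • ω i = ω i) ∧ LinearIndependent ℤ ω ∧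
      ∀ i, ∀ φ : N →+* ℂ, ‖φ (ω i : N)‖ ≤ (Nat.card (Gl N) : ℝ) * R ^ (L * Ω0.card) := by
  have : Fintype H := Fintype.ofFinite H
  set S : Set N := {y : N | ∃ e : 𝓞 N → ℕ, (∀ θ, e θ < L) ∧
      y = ((∏ θ ∈ Ω0, θ ^ e θ : 𝓞 N) : N)} with hS
  have hspan : Submodule.span ℚ S = ⊤ := span_monomials Ω0 hgen L hL hdeg
  have hspan2 : Submodule.span ℚ (trH H '' S) = LinearMap.range (trH H) := by
    rw [Submodule.span_image, hspan, Submodule.map_top]
  obtain ⟨f, hf1, -, hf3⟩ := Submodule.exists_fun_fin_finrank_span_eq ℚ (trH H '' S)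
  have hrank : H.index = Module.finrank ℚ (Submodule.span ℚ (trH H '' S)) := by
    rw [hspan2, finrank_range]
  have hch : ∀ i : Fin H.index, ∃ e : 𝓞 N → ℕ, (∀ θ, e θ < L) ∧
      f (Fin.cast hrank i) = trH H ((∏ θ ∈ Ω0, θ ^ e θ : 𝓞 N) : N) := by
    intro i
    obtain ⟨y, ⟨e, he, rfl⟩, hy⟩ := hf1 (Fin.cast hrank i)
    exact ⟨e, he, hy.symm⟩
  choose e he1 he2 using hch
  set ω : Fin H.index → 𝓞 N := fun i => ∑ h : H, (h : Gl N) • (∏ θ ∈ Ω0, θ ^ e i θ : 𝓞 N) with hω
  have hωf : ∀ i, ((ω i : 𝓞 N) : N) = f (Fin.cast hrank i) := by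
    intro i
    rw [he2 i, trH_apply]
    change algebraMap (𝓞 N) N (∑ h : H, (h : Gl N) • (∏ θ ∈ Ω0, θ ^ e i θ : 𝓞 N)) = _
    rw [map_sum]
    rfl
  refine ⟨ω, ?_, ?_, ?_⟩
  · intro i h hh
    apply RingOfIntegers.ext
    have h1 : ((h • ω i : 𝓞 N) : N) = h ((ω i : 𝓞 N) : N) := rfl
    rw [h1, hωf i, he2 i]
    exact trH_fixed H _ h hh
  · have h1 : LinearIndependent ℚ (fun i : Fin H.index => f (Fin.cast hrank i)) :=
      hf3.comp _ (Fin.cast_injective hrank)
    have h2 : LinearIndependent ℤ (fun i : Fin H.index => f (Fin.cast hrank i)) :=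
      h1.restrict_scalars (by
        intro a b hab
        simpa using hab)
    have h3 : (fun i : Fin H.index => f (Fin.cast hrank i)) =
        (Algebra.linearMap (𝓞 N) N).restrictScalars ℤ ∘ ω := by
      funext i
      exact (hωf i).symm
    rw [h3] at h2
    exact LinearIndependent.of_comp _ h2
  · intro i φ
    have hR0 : 0 ≤ R := by linarith
    have h1 : φ ((ω i : 𝓞 N) : N) = ∑ h : H, ∏ θ ∈ Ω0, (φ ((h : Gl N) (θ : N))) ^ e i θ := by
      rw [hωf i, he2 i, trH_apply, map_sum]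
      refine Finset.sum_congr rfl (fun h _ => ?_)
      have h0 : ((∏ θ ∈ Ω0, θ ^ e i θ : 𝓞 N) : N) = ∏ θ ∈ Ω0, (θ : N) ^ e i θ := by
        change algebraMap (𝓞 N) N (∏ θ ∈ Ω0, θ ^ e i θ) = _
        rw [map_prod]
        refine Finset.prod_congr rfl (fun θ _ => ?_)
        rw [map_pow]
      rw [h0, map_prod, map_prod]
      refine Finset.prod_congr rfl (fun θ _ => ?_)
      rw [map_pow, map_pow]
    rw [h1]
    have h2 : ∀ h : H, ‖∏ θ ∈ Ω0, (φ ((h : Gl N) (θ : N))) ^ e i θ‖ ≤ R ^ (L * Ω0.card) := by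
      intro h
      rw [norm_prod]
      calc ∏ θ ∈ Ω0, ‖(φ ((h : Gl N) (θ : N))) ^ e i θ‖
          ≤ ∏ θ ∈ Ω0, R ^ L := by
            refine Finset.prod_le_prod (fun θ _ => norm_nonneg _) (fun θ hθ => ?_)
            rw [norm_pow]
            have h3 : ‖φ ((h : Gl N) (θ : N))‖ ≤ R :=
              hΩR θ hθ (φ.comp ((h : Gl N) : N →+* N))
            calc ‖φ ((h : Gl N) (θ : N))‖ ^ e i θ ≤ R ^ e i θ :=
                  pow_le_pow_left₀ (norm_nonneg _) h3 _
              _ ≤ R ^ L := pow_le_pow_right₀ hR (he1 i θ).le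
        _ = R ^ (L * Ω0.card) := by
            rw [Finset.prod_const, ← pow_mul]
    calc ‖∑ h : H, ∏ θ ∈ Ω0, (φ ((h : Gl N) (θ : N))) ^ e i θ‖
        ≤ ∑ h : H, ‖∏ θ ∈ Ω0, (φ ((h : Gl N) (θ : N))) ^ e i θ‖ := norm_sum_le _ _
      _ ≤ ∑ _h : H, R ^ (L * Ω0.card) := Finset.sum_le_sum (fun h _ => h2 h)
      _ = (Fintype.card H : ℝ) * R ^ (L * Ω0.card) := by
          rw [Finset.sum_const, Finset.card_univ, nsmul_eq_mul]
      _ ≤ (Nat.card (Gl N) : ℝ) * R ^ (L * Ω0.card) := by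
          refine mul_le_mul_of_nonneg_right ?_ (pow_nonneg hR0 _)
          rw [← Nat.card_eq_fintype_card]
          exact_mod_cast Subgroup.card_le_card_group H

end Pool.Agent.EXM
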