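import Pool.Agent.EXM.Nrm

/-!
# EXM-Joint (1.3h): joint 2-transitivity

Plan.  Show by induction on the finite set `s` of indices (`Finset.induction_on_max_value q`, the
new index `i` has `q j < q i` for all `j ∈ s`, as `q` is injective) that for all `x y x' y'` as in
the statement there is `g` with `g • x j = x' j ∧ g • y j = y' j` for `j ∈ s`; at the end
`s = univ`.  Step: let `K` be the intersection over `j ∈ s` of the kernels of
`MulAction.toPermHom G (Ω j)` (a normal subgroup).  `G ⧸ K` embeds into
`∀ j : s, Equiv.Perm (Ω j)`, whose order is a product of factorials `(q j)!`, so it is not divisible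
by the prime `q i > q j`.  (a) `K` acts transitively on `Ω i`: the orbits of the normal subgroup
`K` on `Ω i` all have the same cardinality, which divides `q i`; if it is `1` then `K` acts
trivially on `Ω i`, so `K ≤ ker (toPermHom G (Ω i))` and the order of the image of `G` in
`Equiv.Perm (Ω i)`, which is divisible by `q i` (transitivity), divides the order of `G ⧸ K`:
contradiction.  So there is one orbit with `q i` elements.  (b) By `two_transitive_of_normal` (with
`hna i`) `K` is 2-transitive on `Ω i`.  (c) Take `g` for `s` by induction, then `n ∈ K` with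
`n • (g • x i) = x' i`, `n • (g • y i) = y' i`; `n * g` does it, `n` acts trivially on `Ω j`, `j ∈ s`.
-/

set_option autoImplicit false

namespace Pool.Agent.EXM

theorem joint_transitive {G ι : Type} [Group G] [Finite G] [Finite ι] (q : ι → ℕ)
    (hq : Function.Injective q) (hp : ∀ i, (q i).Prime) (Ω : ι → Type) [∀ i, MulAction G (Ω i)]
    (hΩ : ∀ i, Nat.card (Ω i) = q i) (htr : ∀ i, ∀ x y : Ω i, ∃ g : G, g • x = y)
    (hna : ∀ i, ∃ g : G, (∀ x : Ω i, g • x ≠ x) ∧ ∃ k : ℕ, ¬ q i ∣ k ∧ ∃ x : Ω i, g ^ k • x = x)
    (x y x' y' : ∀ i, Ω i) (h : ∀ i, x i ≠ y i) (h' : ∀ i, x' i ≠ y' i) :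
    ∃ g : G, ∀ i, g • x i = x' i ∧ g • y i = y' i := by
  classical
  let _ : Fintype ι := Fintype.ofFinite ι
  have hfin : ∀ i, Finite (Ω i) := by
    intro i
    apply Nat.finite_of_card_ne_zero
    rw [hΩ i]
    exact (hp i).ne_zero
  have key : ∀ s : Finset ι, ∀ (x y x' y' : ∀ i, Ω i), (∀ i, x i ≠ y i) → (∀ i, x' i ≠ y' i) →
      ∃ g : G, ∀ j ∈ s, g • x j = x' j ∧ g • y j = y' j := by
    intro s
    induction s using Finset.induction_on_max_value q with
    | empty => exact fun x y x' y' _ _ => ⟨1, fun j hj => absurd hj (Finset.notMem_empty j)⟩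
    | insert i s his hmax ih =>
      intro x y x' y' h h'
      have hlt : ∀ j ∈ s, q j < q i := by
        intro j hj
        refine lt_of_le_of_ne (hmax j hj) ?_
        intro heq
        exact his (hq heq ▸ hj)
      let φ : G →* (∀ j : s, Equiv.Perm (Ω j)) :=
        MonoidHom.pi fun j : s => MulAction.toPermHom G (Ω j)
      have hφ : ∀ n ∈ φ.ker, ∀ j ∈ s, ∀ z : Ω j, n • z = z := by
        intro n hn j hj z
        have h1 : φ n = 1 := hn
        have h2 : MulAction.toPermHom G (Ω j) n = 1 := congrFun h1 ⟨j, hj⟩
        have h3 := congrArg (fun f : Equiv.Perm (Ω j) => f z) h2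
        simpa using h3
      have hndvd : ¬ q i ∣ φ.ker.index := by
        rw [Subgroup.index_ker]
        intro hd
        have h1 : Nat.card φ.range ∣ Nat.card (∀ j : s, Equiv.Perm (Ω j)) :=
          Subgroup.card_subgroup_dvd_card _
        have h2 := hd.trans h1
        rw [Nat.card_pi, Prime.dvd_finsetProd_iff (hp i).prime] at h2
        obtain ⟨j, _, hj⟩ := h2
        rw [Nat.card_perm, hΩ, (hp i).dvd_factorial] at hj
        exact absurd hj (not_le.mpr (hlt j j.2))
      have htri : MulAction.IsPretransitive G (Ω i) := ⟨fun a b => htr i a b⟩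
      have hpri : MulAction.IsPreprimitive G (Ω i) := by
        apply MulAction.IsPreprimitive.of_prime_card
        rw [hΩ]
        exact hp i
      have hfix : ¬ MulAction.fixedPoints φ.ker (Ω i) = Set.univ := by
        intro hall
        apply hndvd
        have h1 : φ.ker ≤ MulAction.stabilizer G (x i) := by
          intro n hn
          have h2 : x i ∈ MulAction.fixedPoints φ.ker (Ω i) := by
            rw [hall]
            trivial
          exact h2 ⟨n, hn⟩
        have h3 := Subgroup.index_dvd_of_le h1
        rw [MulAction.index_stabilizer_of_transitive, hΩ] at h3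
        exact h3
      have htrK : MulAction.IsPretransitive φ.ker (Ω i) :=
        MulAction.IsQuasiPreprimitive.isPretransitive_of_normal hfix
      have hN : ∀ a b : Ω i, ∃ n ∈ φ.ker, n • a = b := by
        intro a b
        obtain ⟨n, hn⟩ := htrK.exists_smul_eq a b
        exact ⟨n, n.2, hn⟩
      obtain ⟨g₀, hg₀, k, hk, hgk⟩ := hna i
      have h2t := two_transitive_of_normal (q i) (hp i) (hΩ i) φ.ker hN g₀ hg₀ k hk hgk
      obtain ⟨g, hg⟩ := ih x y x' y' h h'
      have hgne : g • x i ≠ g • y i := fun he => h i (smul_left_cancel g he)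
      obtain ⟨n, hn, hn1, hn2⟩ := h2t (g • x i) (g • y i) (x' i) (y' i) hgne (h' i)
      refine ⟨n * g, ?_⟩
      intro j hj
      rcases Finset.mem_insert.mp hj with rfl | hj
      · exact ⟨by rw [mul_smul, hn1], by rw [mul_smul, hn2]⟩
      · have h1 := hg j hj
        exact ⟨by rw [mul_smul, h1.1, hφ n hn j hj], by rw [mul_smul, h1.2, hφ n hn j hj]⟩
  obtain ⟨g, hg⟩ := key Finset.univ x y x' y' h h'
  exact ⟨g, fun i => hg i (Finset.mem_univ i)⟩

end Pool.Agent.EXM
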