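import Pool.Agent.EXM.Defs

/-!
# EXM-Root (0.5h): size of the complex roots of `(X+1)...(X+l) - 1`

Plan.  If `‖z‖ > l + 1` then `‖z + i‖ ≥ ‖z‖ - i > 1` for `1 ≤ i ≤ l`, so the product of the `z + i` has
norm `> 1` (`Finset.one_lt_prod'`-type or induction), but it is `1`.
-/

set_option autoImplicit false

namespace Pool.Agent.EXM

open Polynomial NumberField Pool.Agent.Helper1.SP

theorem root_norm_le (l : ℕ) (hl : 1 ≤ l) (z : ℂ) (hz : aeval z (fk l) = 0) : ‖z‖ ≤ l + 1 := by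
  by_contra hcon
  push Not at hcon
  have h1 : (∏ i ∈ Finset.range l, (z + (((i : ℤ) + 1 : ℤ) : ℂ))) = 1 := by
    rw [fk, map_sub, map_prod, map_one, sub_eq_zero] at hz
    rw [← hz]
    refine Finset.prod_congr rfl fun i _ => ?_
    rw [map_add, aeval_X, aeval_C]
    simp
  have h2 : (∏ i ∈ Finset.range l, ‖z + (((i : ℤ) + 1 : ℤ) : ℂ)‖) = 1 := by
    rw [← norm_prod, h1, norm_one]
  have h3 : ∀ i ∈ Finset.range l, 1 < ‖z + (((i : ℤ) + 1 : ℤ) : ℂ)‖ := by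
    intro i hi
    have hi' : (i : ℝ) + 1 ≤ l := by
      have := Finset.mem_range.1 hi
      exact_mod_cast this
    have h4 : ‖(((i : ℤ) + 1 : ℤ) : ℂ)‖ = (i : ℝ) + 1 := by
      have e : (((i : ℤ) + 1 : ℤ) : ℂ) = (((i : ℝ) + 1 : ℝ) : ℂ) := by
        push_cast
        ring
      rw [e, Complex.norm_real, Real.norm_of_nonneg (by positivity)]
    have h5 : ‖z‖ ≤ ‖z + (((i : ℤ) + 1 : ℤ) : ℂ)‖ + ‖(((i : ℤ) + 1 : ℤ) : ℂ)‖ := by
      have := norm_sub_le (z + (((i : ℤ) + 1 : ℤ) : ℂ)) (((i : ℤ) + 1 : ℤ) : ℂ)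
      rwa [add_sub_cancel_right] at this
    rw [h4] at h5
    linarith
  have h6 : (∏ i ∈ Finset.range l, (1 : ℝ)) <
      ∏ i ∈ Finset.range l, ‖z + (((i : ℤ) + 1 : ℤ) : ℂ)‖ :=
    Finset.prod_lt_prod_of_nonempty (fun _ _ => one_pos) h3
      (Finset.nonempty_range_iff.2 (by omega))
  rw [h2, Finset.prod_const_one] at h6
  exact lt_irrefl _ h6

end Pool.Agent.EXM
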