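import Pool.Agent.EXM.Root

/-!
# EXM-Sep (1.2h): `(X+1)...(X+l) - 1` is separable modulo every large prime

Plan.  `r = resultant (fk l) (fk l).derivative` (with the degrees `l` and `l - 1`, or
`Polynomial.resultant f g` with its default degrees) is a nonzero integer: `fk l` is irreducible over
`ℚ` (`fk_irr`), so separable, so coprime to its derivative (`resultant_ne_zero`, `resultant_map_map`).
Over `ℂ` (`resultant_eq_prod_eval`) it is, up to sign, the product over the complex roots `θ` of `fk l`
of `P'(θ)`, and `P'(θ) = ∑_i ∏_{j ≠ i} (θ + j)`, of norm `≤ l (2l+1)^(l-1)` (`root_norm_le`: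
`‖θ‖ ≤ l+1`), so `|r| ≤ (l (2l+1)^(l-1))^l ≤ (2l+1)^(l^2) < p`.  So `p ∤ r`, and modulo `p`
`exists_mul_add_mul_eq_C_resultant` (over `ℤ`, then reduced) shows that `fk l` and its derivative are
coprime.  (Case `l = 1`: `fk 1 = X`.)
-/

set_option autoImplicit false

namespace Pool.Agent.EXM

open Polynomial NumberField Pool.Agent.Helper1.SP

private theorem res_key (f g : ℤ[X]) (hf : f.Monic) (hm : 1 ≤ f.natDegree)
    (hc : IsCoprime (f.map (Int.castRingHom ℚ)) (g.map (Int.castRingHom ℚ))) (B : ℝ)
    (hB0 : 0 ≤ B)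
    (hB : ∀ z : ℂ, aeval z f = 0 → ‖aeval z g‖ ≤ B) :
    ∃ (a b : ℤ[X]) (r : ℤ), f * a + g * b = C r ∧ r ≠ 0 ∧ |(r : ℝ)| ≤ B ^ f.natDegree := by
  obtain ⟨a, b, -, -, hab⟩ := exists_mul_add_mul_eq_C_resultant f g (m := f.natDegree)
    (n := g.natDegree) le_rfl le_rfl (Or.inl (by omega))
  refine ⟨a, b, _, hab, ?_, ?_⟩
  · intro h0
    have h1 := resultant_map_map f g f.natDegree g.natDegree (Int.castRingHom ℚ)
    rw [h0, map_zero] at h1
    have h2 := resultant_ne_zero _ _ hc
    rw [natDegree_map_eq_of_injective (RingHom.injective_int (Int.castRingHom ℚ)),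
      natDegree_map_eq_of_injective (RingHom.injective_int (Int.castRingHom ℚ))] at h2
    exact h2 h1
  · have h1 := resultant_map_map f g f.natDegree g.natDegree (Int.castRingHom ℂ)
    have hinj : Function.Injective (Int.castRingHom ℂ) := RingHom.injective_int _
    have hdf := natDegree_map_eq_of_injective hinj f
    have hdg := natDegree_map_eq_of_injective hinj g
    have h2 := resultant_eq_prod_eval (f.map (Int.castRingHom ℂ)) (g.map (Int.castRingHom ℂ))
      g.natDegree hdg.le (IsAlgClosed.splits _)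
    rw [hdf, h1, (hf.map _).leadingCoeff, one_pow, one_mul] at h2
    have h3 : ‖((resultant f g f.natDegree g.natDegree : ℤ) : ℂ)‖ ≤ B ^ f.natDegree := by
      have h4 : ((resultant f g f.natDegree g.natDegree : ℤ) : ℂ) =
          ((f.map (Int.castRingHom ℂ)).roots.map (g.map (Int.castRingHom ℂ)).eval).prod := h2
      rw [h4]
      have hcard : Multiset.card (f.map (Int.castRingHom ℂ)).roots = f.natDegree := by
        rw [← hdf]
        exact (IsAlgClosed.splits (f.map (Int.castRingHom ℂ))).natDegree_eq_card_roots.symm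
      rw [← hcard]
      have hall : ∀ z ∈ (f.map (Int.castRingHom ℂ)).roots,
          ‖(g.map (Int.castRingHom ℂ)).eval z‖ ≤ B := by
        intro z hz
        have hz1 := (mem_roots'.1 hz).2
        have h5 : aeval z f = 0 := by
          rw [IsRoot.def, eval_map] at hz1
          simpa [aeval_def] using hz1
        have h6 := hB z h5
        rw [eval_map]
        simpa [aeval_def] using h6
      revert hall
      generalize (f.map (Int.castRingHom ℂ)).roots = s
      intro hall
      induction s using Multiset.induction_on with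
      | empty => simp
      | cons z s ih =>
        rw [Multiset.map_cons, Multiset.prod_cons, norm_mul, Multiset.card_cons, pow_succ, mul_comm]
        have h7 := ih (fun w hw => hall w (Multiset.mem_cons_of_mem hw))
        have h8 := hall z (Multiset.mem_cons_self z s)
        gcongr
    rw [Complex.norm_intCast] at h3
    exact h3

theorem separable_mod (l p : ℕ) (hl : 1 ≤ l) (hp : p.Prime) (h : (2 * l + 1) ^ (l ^ 2) < p) :
    ((fk l).map (Int.castRingHom (ZMod p))).Separable := by
  have := Fact.mk hp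
  have hcop : IsCoprime ((fk l).map (Int.castRingHom ℚ))
      ((derivative (fk l)).map (Int.castRingHom ℚ)) := by
    have h1 := (fk_irr l hl).separable
    rw [Polynomial.Separable, derivative_map] at h1
    exact h1
  have hbound : ∀ z : ℂ, aeval z (fk l) = 0 →
      ‖aeval z (derivative (fk l))‖ ≤ ((2 * l + 1 : ℕ) : ℝ) ^ l := by
    intro z hz
    have hz1 := root_norm_le l hl z hz
    have h3 : aeval z (derivative (fk l)) = ∑ i ∈ Finset.range l,
        ∏ j ∈ (Finset.range l).erase i, (z + ((j : ℂ) + 1)) := by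
      unfold fk
      rw [derivative_sub, derivative_one, sub_zero, derivative_prod_finset]
      simp [map_sum, map_prod]
    rw [h3]
    have hterm : ∀ j ∈ Finset.range l, ‖z + ((j : ℂ) + 1)‖ ≤ ((2 * l + 1 : ℕ) : ℝ) := by
      intro i hi
      have hi1 : i + 1 ≤ l := Finset.mem_range.1 hi
      calc ‖z + ((i : ℂ) + 1)‖ ≤ ‖z‖ + ‖(((i + 1 : ℕ)) : ℂ)‖ := by
            have := norm_add_le z (((i + 1 : ℕ)) : ℂ)
            simpa using this
        _ ≤ (l + 1) + l := by
            rw [Complex.norm_natCast]
            have : ((i + 1 : ℕ) : ℝ) ≤ l := by exact_mod_cast hi1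
            linarith
        _ = ((2 * l + 1 : ℕ) : ℝ) := by push_cast; ring
    calc ‖∑ i ∈ Finset.range l, ∏ j ∈ (Finset.range l).erase i, (z + ((j : ℂ) + 1))‖
        ≤ ∑ i ∈ Finset.range l, ‖∏ j ∈ (Finset.range l).erase i, (z + ((j : ℂ) + 1))‖ :=
          norm_sum_le _ _
      _ ≤ ∑ i ∈ Finset.range l, ((2 * l + 1 : ℕ) : ℝ) ^ (l - 1) := by
          apply Finset.sum_le_sum
          intro i hi
          rw [norm_prod]
          calc ∏ j ∈ (Finset.range l).erase i, ‖z + ((j : ℂ) + 1)‖
              ≤ ∏ j ∈ (Finset.range l).erase i, ((2 * l + 1 : ℕ) : ℝ) := by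
                apply Finset.prod_le_prod
                · intro j _
                  exact norm_nonneg _
                · intro j hj
                  exact hterm j (Finset.mem_of_mem_erase hj)
            _ = ((2 * l + 1 : ℕ) : ℝ) ^ (l - 1) := by
                rw [Finset.prod_const, Finset.card_erase_of_mem hi, Finset.card_range]
      _ = (l : ℝ) * ((2 * l + 1 : ℕ) : ℝ) ^ (l - 1) := by
          rw [Finset.sum_const, Finset.card_range, nsmul_eq_mul]
      _ ≤ ((2 * l + 1 : ℕ) : ℝ) * ((2 * l + 1 : ℕ) : ℝ) ^ (l - 1) := by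
          apply mul_le_mul_of_nonneg_right _ (by positivity)
          push_cast
          have : (0 : ℝ) ≤ l := Nat.cast_nonneg l
          linarith
      _ = ((2 * l + 1 : ℕ) : ℝ) ^ l := by
          rw [← pow_succ']
          congr 1
          omega
  obtain ⟨a, b, r, hab, hr0, hr⟩ := res_key (fk l) (derivative (fk l)) (fk_monic l hl)
    (by rw [fk_natDegree]; exact hl) hcop _ (by positivity) hbound
  rw [fk_natDegree, ← pow_mul] at hr
  have hnd : ¬ (p : ℤ) ∣ r := by
    intro h7
    have h8 : |r| < (p : ℤ) := by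
      have h9 : (|(r : ℝ)|) < (p : ℝ) := by
        refine lt_of_le_of_lt hr ?_
        rw [← sq]
        exact_mod_cast h
      have h10 : ((|r| : ℤ) : ℝ) < ((p : ℤ) : ℝ) := by
        push_cast
        exact h9
      exact_mod_cast h10
    exact hr0 (Int.eq_zero_of_abs_lt_dvd h7 h8)
  have hrp : ((r : ℤ) : ZMod p) ≠ 0 := by
    intro h0
    rw [ZMod.intCast_zmod_eq_zero_iff_dvd] at h0
    exact hnd h0
  have h6 := congrArg (fun q : ℤ[X] => q.map (Int.castRingHom (ZMod p))) hab
  simp only [Polynomial.map_add, Polynomial.map_mul, map_C] at h6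
  rw [Polynomial.Separable, derivative_map]
  refine ⟨C (((r : ℤ) : ZMod p)⁻¹) * a.map (Int.castRingHom (ZMod p)),
    C (((r : ℤ) : ZMod p)⁻¹) * b.map (Int.castRingHom (ZMod p)), ?_⟩
  have h11 : C (((r : ℤ) : ZMod p)⁻¹) * C ((Int.castRingHom (ZMod p)) r) = 1 := by
    rw [← C_mul]
    have : (((r : ℤ) : ZMod p)⁻¹) * ((Int.castRingHom (ZMod p)) r) = 1 := inv_mul_cancel₀ hrp
    rw [this, C_1]
  rw [← h11, ← h6]
  ring

end Pool.Agent.EXM
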