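import Pool.Agent.EXM.Card

/-!
# EXM-Split (1.3h): the splitting field of a block

Plan.  `N` = the splitting field over `ℚ` of `∏ l ∈ T, (fk l).map (Int.castRingHom ℚ)`
(`Polynomial.SplittingField`; `NumberField` from finite dimension and characteristic 0;
`IsGalois` because `ℚ` has characteristic 0: `IsGalois.of_separable_splitting_field` or
normal + separable).  Each factor splits; the roots generate
(`Polynomial.SplittingField.adjoin_rootSet`), every root of the product is a root of some `fk l`,
i.e. the coefficient field element of an `Rt N l` (integral).  `card`: an automorphism is determined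
by its restriction to the set `Z` of all the roots (at most `∑ l ∈ T, l ≤ T.card * L =: m` elements), an
injective map into the functions `Z → Z`, so `Nat.card (Gl N) ≤ m ^ m` (monotonicity of `n ^ n`).
-/

set_option autoImplicit false

namespace Pool.Agent.EXM

open Polynomial NumberField Pool.Agent.Helper1.SP

private theorem isf_congr {N : Type} [Field N] (A B : Algebra ℚ N) (p : ℚ[X])
    (h : @IsSplittingField ℚ N _ _ A p) : @IsSplittingField ℚ N _ _ B p := by
  have e : A = B := Subsingleton.elim _ _
  rw [← e]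
  exact h

private theorem exists_isf (p : ℚ[X]) :
    ∃ (N : Type) (_ : Field N) (_ : NumberField N), IsSplittingField ℚ N p := by
  have h : IsSplittingField ℚ p.SplittingField p :=
    isf_congr _ _ p (Polynomial.IsSplittingField.splittingField p)
  have hf : FiniteDimensional ℚ p.SplittingField :=
    IsSplittingField.finiteDimensional p.SplittingField p
  exact ⟨p.SplittingField, inferInstance, NumberField.mk, h⟩

theorem exists_splitting (T : Finset ℕ) (L : ℕ) (hT : ∀ l ∈ T, 1 ≤ l ∧ l ≤ L) (hne : T.Nonempty) :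
    ∃ (N : Type) (_ : Field N) (_ : NumberField N), IsGalois ℚ N ∧
      (∀ l ∈ T, ((fk l).map (algebraMap ℤ N)).Splits) ∧
      Algebra.adjoin ℚ {y : N | ∃ l ∈ T, ∃ x : Rt N l, y = (x.1 : N)} = ⊤ ∧
      Nat.card (Gl N) ≤ (T.card * L) ^ (T.card * L) := by
  obtain ⟨p, hp⟩ : ∃ p : ℚ[X], p = ∏ l ∈ T, (fk l).map (Int.castRingHom ℚ) := ⟨_, rfl⟩
  have hmon : ∀ l ∈ T, ((fk l).map (Int.castRingHom ℚ)).Monic := fun l hl =>
    (fk_monic l (hT l hl).1).map _
  have hpm : p.Monic := by
    rw [hp]
    exact monic_prod_of_monic _ _ hmon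
  obtain ⟨N, _, _, hsf⟩ := exists_isf p
  refine ⟨N, inferInstance, inferInstance, ?_, ?_, ?_, ?_⟩
  · have hn : Normal ℚ N := Normal.of_isSplittingField p
    exact IsGalois.mk
  · intro l hl
    have h1 : (p.map (algebraMap ℚ N)).Splits := IsSplittingField.splits N p
    have h2 : p.map (algebraMap ℚ N) ≠ 0 := (hpm.map _).ne_zero
    have h3 : (fk l).map (algebraMap ℤ N) =
        ((fk l).map (Int.castRingHom ℚ)).map (algebraMap ℚ N) := by
      rw [Polynomial.map_map]
      congr 1
      exact Subsingleton.elim _ _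
    refine Splits.of_dvd h1 h2 ?_
    rw [h3, hp]
    exact Polynomial.map_dvd _ (Finset.dvd_prod_of_mem _ hl)
  · have h1 := IsSplittingField.adjoin_rootSet N p
    rw [eq_top_iff, ← h1]
    refine Algebra.adjoin_mono fun y hy => ?_
    rw [mem_rootSet] at hy
    have h2 : aeval y p = 0 := hy.2
    rw [hp, map_prod, Finset.prod_eq_zero_iff] at h2
    obtain ⟨l, hl, h3⟩ := h2
    have h4 : aeval y (fk l) = 0 := by
      rw [← h3]
      rw [aeval_def, aeval_def, eval₂_map]
      congr 1
      exact Subsingleton.elim _ _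
    have h5 : IsIntegral ℤ y := ⟨fk l, fk_monic l (hT l hl).1, h4⟩
    refine ⟨l, hl, ⟨⟨y, h5⟩, ?_⟩, rfl⟩
    apply RingOfIntegers.coe_injective
    rw [map_zero]
    exact (Polynomial.aeval_algebraMap_apply N _ (fk l)).symm.trans h4
  · have hmaps : ∀ g : Gl N, Set.MapsTo g (p.rootSet N) (p.rootSet N) := fun g =>
      Polynomial.rootSet_mapsTo (g : N →ₐ[ℚ] N)
    obtain ⟨F, hF⟩ : ∃ F : Gl N → (p.rootSet N → p.rootSet N), F = fun g z =>
      ⟨g z.1, hmaps g z.2⟩ := ⟨_, rfl⟩
    have hinj : Function.Injective F := by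
      intro g h hgh
      have h1 : (g : N →ₐ[ℚ] N) = (h : N →ₐ[ℚ] N) := by
        refine AlgHom.ext_of_adjoin_eq_top (IsSplittingField.adjoin_rootSet N p) fun z hz => ?_
        have h2 := congrArg Subtype.val (congrFun hgh ⟨z, hz⟩)
        rw [hF] at h2
        exact h2
      exact AlgEquiv.ext fun z => congrArg (fun f : N →ₐ[ℚ] N => f z) h1
    have hcardZ : Nat.card (p.rootSet N) ≤ T.card * L := by
      have h1 : Nat.card (p.rootSet N) ≤ p.natDegree := Polynomial.ncard_rootSet_le p N
      refine h1.trans ?_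
      rw [hp, natDegree_prod_of_monic _ _ hmon]
      refine (Finset.sum_le_card_nsmul _ _ L fun l hl => ?_).trans (le_of_eq (smul_eq_mul _ _))
      rw [(fk_monic l (hT l hl).1).natDegree_map, fk_natDegree]
      exact (hT l hl).2
    have hpos : 0 < T.card * L := by
      obtain ⟨l, hl⟩ := hne
      exact Nat.mul_pos (Finset.card_pos.2 ⟨l, hl⟩) ((hT l hl).1.trans (hT l hl).2)
    have hfin : Finite (p.rootSet N) := (p.rootSet_finite N).to_subtype
    calc Nat.card (Gl N) ≤ Nat.card (p.rootSet N → p.rootSet N) := Nat.card_le_card_of_injective F hinj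
      _ = Nat.card (p.rootSet N) ^ Nat.card (p.rootSet N) := Nat.card_fun
      _ ≤ (T.card * L) ^ Nat.card (p.rootSet N) := Nat.pow_le_pow_left hcardZ _
      _ ≤ (T.card * L) ^ (T.card * L) := Nat.pow_le_pow_right hpos hcardZ

end Pool.Agent.EXM
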