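import Pool.Agent.EXM.Cheb
import Pool.Agent.EXM.Inv
import Pool.Agent.EXM.Joint
import Pool.Agent.EXM.Der
import Pool.Agent.EXM.Root
import Pool.Agent.EXM.Sep
import Pool.Agent.EXM.Card
import Pool.Agent.EXM.FrobTwo
import Pool.Agent.EXM.Inert
import Pool.Agent.EXM.Split
import Pool.Agent.EXM.Bnd

/-!
# EXM-Blk: the bound for one block (assembly, helper98)
-/

set_option autoImplicit false

namespace Pool.Agent.EXM

open Polynomial NumberField Pool.Agent.Helper1.SP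

/-- The elements without fixed roots for every `l ∈ T`. -/
def Sset (N : Type) [Field N] [NumberField N] (T : Finset ℕ) : Set (Gl N) :=
  {g | ∀ l : T, ∀ x : Rt N l, g • x ≠ x}

section

variable {N : Type} [Field N] [NumberField N]

private theorem sset_zpowers (T : Finset ℕ) (g : Gl N) (hg : g ∈ Sset N T) (g' : Gl N)
    (h : Subgroup.zpowers g' = Subgroup.zpowers g) : g' ∈ Sset N T := by
  intro l x hx
  refine hg l x ?_
  have h1 : g ∈ Subgroup.zpowers g' := by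
    rw [h]
    exact Subgroup.mem_zpowers g
  have h2 : Subgroup.zpowers g' ≤ MulAction.stabilizer (Gl N) x := by
    rw [Subgroup.zpowers_le]
    exact hx
  exact h2 h1

private theorem card_sset [IsGalois ℚ N] (T : Finset ℕ) (hT : ∀ l ∈ T, l.Prime ∧ l % 14 = 3 ∧ 17 ≤ l)
    (hsplit : ∀ l ∈ T, ((fk l).map (algebraMap ℤ N)).Splits) :
    (Nat.card (Sset N T) : ℝ) / (Nat.card (Gl N) : ℝ) ≤ (1 / 2) ^ T.card := by
  have hfin : ∀ i : T, Finite (Rt N (i : ℕ)) := fun i =>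
    finite_rt (i : ℕ) ((by norm_num : 1 ≤ 17).trans (hT i i.2).2.2)
  have hΩ : ∀ i : T, Nat.card (Rt N (i : ℕ)) = (i : ℕ) := fun i =>
    card_rt (i : ℕ) ((by norm_num : 1 ≤ 17).trans (hT i i.2).2.2) (hsplit i i.2)
  have h := card_derange (G := Gl N) (ι := T) (fun i : T => Rt N (i : ℕ))
    (fun i => by rw [hΩ i]; exact (by norm_num : 2 ≤ 17).trans (hT i i.2).2.2)
    (fun x y x' y' hxy hxy' => joint_transitive (fun i : T => (i : ℕ)) Subtype.val_injective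
      (fun i => (hT i i.2).1) (fun i : T => Rt N (i : ℕ)) hΩ
      (fun i => transitive_rt (i : ℕ) ((by norm_num : 1 ≤ 17).trans (hT i i.2).2.2))
      (fun i => by
        obtain ⟨g, hg1, hg2⟩ := frob_two (N := N) (i : ℕ) (hT i i.2).2.1 (hsplit i i.2)
        refine ⟨g, hg1, 3, ?_, hg2⟩
        intro h3
        have := Nat.le_of_dvd (by norm_num) h3
        have h17 := (hT i i.2).2.2
        omega) x y x' y' hxy hxy')
  have hG : (0 : ℝ) < Nat.card (Gl N) := by exact_mod_cast Nat.card_pos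
  rw [div_le_iff₀ hG, Fintype.card_coe] at *
  have h' : (2 : ℝ) ^ T.card * (Nat.card (Sset N T) : ℝ) ≤ (Nat.card (Gl N) : ℝ) := by
    have e : Nat.card {g : Gl N // ∀ i : T, ∀ x : Rt N (i : ℕ), g • x ≠ x} = Nat.card (Sset N T) :=
      rfl
    rw [e] at h
    exact_mod_cast h
  have e2 : ((1 : ℝ) / 2) ^ T.card * (2 : ℝ) ^ T.card = 1 := by
    rw [← mul_pow]
    norm_num
  calc (Nat.card (Sset N T) : ℝ)
      = (1 / 2) ^ T.card * ((2 : ℝ) ^ T.card * (Nat.card (Sset N T) : ℝ)) := by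
        rw [← mul_assoc, e2, one_mul]
    _ ≤ (1 / 2) ^ T.card * (Nat.card (Gl N) : ℝ) := by gcongr

open Classical in
private theorem bounded_inv [IsGalois ℚ N] (T : Finset ℕ) (b L : ℕ) (hb : T.card = b)
    (hL : 1 ≤ L) (hT : ∀ l ∈ T, 1 ≤ l ∧ l ≤ L)
    (hgen : Algebra.adjoin ℚ {y : N | ∃ l ∈ T, ∃ x : Rt N l, y = (x.1 : N)} = ⊤)
    (H : Subgroup (Gl N)) :
    ∃ ω : Fin H.index → 𝓞 N, (∀ i, ∀ h ∈ H, h • ω i = ω i) ∧ LinearIndependent ℤ ω ∧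
      ∀ i, ∀ φ : N →+* ℂ, ‖φ (ω i : N)‖ ≤
        (Nat.card (Gl N) : ℝ) * ((L : ℝ) + 1) ^ (L * (b * L)) := by
  obtain ⟨Ω0, hΩ0⟩ : ∃ Ω0 : Finset (𝓞 N),
      Ω0 = T.biUnion (fun l => ((fk l).aroots (𝓞 N)).toFinset) := ⟨_, rfl⟩
  have hmem : ∀ θ : 𝓞 N, θ ∈ Ω0 ↔ ∃ l ∈ T, aeval θ (fk l) = 0 := by
    intro θ
    rw [hΩ0, Finset.mem_biUnion]
    constructor
    · rintro ⟨l, hl, h⟩
      rw [Multiset.mem_toFinset, mem_aroots] at h
      exact ⟨l, hl, h.2⟩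
    · rintro ⟨l, hl, h⟩
      refine ⟨l, hl, ?_⟩
      rw [Multiset.mem_toFinset, mem_aroots]
      exact ⟨(fk_monic l (hT l hl).1).ne_zero, h⟩
  have hcard : Ω0.card ≤ b * L := by
    rw [hΩ0, ← hb]
    refine Finset.card_biUnion_le.trans ?_
    refine (Finset.sum_le_card_nsmul _ _ L fun l hl => ?_).trans (by rw [smul_eq_mul])
    refine (Multiset.toFinset_card_le _).trans ?_
    refine (card_roots' _).trans ?_
    refine natDegree_map_le.trans ?_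
    rw [fk_natDegree]
    exact (hT l hl).2
  have hgen' : Algebra.adjoin ℚ ((fun x : 𝓞 N => (x : N)) '' (Ω0 : Set (𝓞 N))) = ⊤ := by
    rw [← hgen]
    congr 1
    ext y
    constructor
    · rintro ⟨x, hx, rfl⟩
      obtain ⟨l, hl, h⟩ := (hmem x).1 hx
      exact ⟨l, hl, ⟨x, h⟩, rfl⟩
    · rintro ⟨l, hl, x, rfl⟩
      exact ⟨x.1, (hmem x.1).2 ⟨l, hl, x.2⟩, rfl⟩
  obtain ⟨ω, h1, h2, h3⟩ := exists_bounded_invariants Ω0 hgen' L hL
    (fun θ hθ => by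
      obtain ⟨l, hl, h⟩ := (hmem θ).1 hθ
      exact ⟨fk l, fk_monic l (hT l hl).1, by rw [fk_natDegree]; exact (hT l hl).2, h⟩)
    ((L : ℝ) + 1) (by linarith [(Nat.cast_nonneg L : (0 : ℝ) ≤ L)])
    (fun θ hθ φ => by
      obtain ⟨l, hl, h⟩ := (hmem θ).1 hθ
      have e1 : aeval (φ (θ : N)) (fk l) = 0 := by
        have h5 := Polynomial.hom_eval₂ (fk l) (algebraMap ℤ (𝓞 N))
          (φ.comp (algebraMap (𝓞 N) N)) θ
        rw [Subsingleton.elim ((φ.comp (algebraMap (𝓞 N) N)).comp (algebraMap ℤ (𝓞 N)))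
          (algebraMap ℤ ℂ)] at h5
        rw [aeval_def] at h ⊢
        rw [h, map_zero] at h5
        exact h5.symm
      have e2 := root_norm_le l (hT l hl).1 _ e1
      have e3 : (l : ℝ) ≤ L := by exact_mod_cast (hT l hl).2
      linarith) H
  refine ⟨ω, h1, h2, fun i φ => (h3 i φ).trans ?_⟩
  have e4 : (1 : ℝ) ≤ (L : ℝ) + 1 := by linarith [(Nat.cast_nonneg L : (0 : ℝ) ≤ L)]
  gcongr

end

theorem block_bound (T : Finset ℕ) (b L : ℕ) (hb : T.card = b) (hb1 : 1 ≤ b)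
    (hT : ∀ l ∈ T, l.Prime ∧ l % 14 = 3 ∧ 17 ≤ l ∧ l ≤ L) (X : ℝ) (hX : 1 ≤ X) (E : Finset ℕ)
    (hE : ∀ p ∈ E, p.Prime ∧ (p : ℝ) ≤ X ∧ (2 * L + 2) ^ (L ^ 2) < p ∧ ∀ l ∈ T, rho (fk l) p = 0) :
    ∑ p ∈ E, Real.log (p : ℝ) / (p : ℝ) ≤ bnd b L X := by
  have hTne : T.Nonempty := Finset.card_pos.1 (by omega)
  have hT1 : ∀ l ∈ T, 1 ≤ l ∧ l ≤ L := fun l hl =>
    ⟨(by norm_num : 1 ≤ 17).trans (hT l hl).2.2.1, (hT l hl).2.2.2⟩
  have hL : 1 ≤ L := by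
    obtain ⟨l, hl⟩ := hTne
    exact (hT1 l hl).1.trans (hT1 l hl).2
  obtain ⟨N, hF, hNF, hGal, hsplit, hgen, hcard⟩ := exists_splitting T L hT1 hTne
  rw [hb] at hcard
  have hM : Nat.card (Gl N) ≤ Mb b L := hcard
  have hG1 : 1 ≤ Nat.card (Gl N) := Nat.card_pos
  have hMR : (Nat.card (Gl N) : ℝ) ≤ Mb b L := by exact_mod_cast hM
  have hG1R : (1 : ℝ) ≤ Nat.card (Gl N) := by exact_mod_cast hG1
  have hLR : (1 : ℝ) ≤ (L : ℝ) + 1 := by linarith [(Nat.cast_nonneg L : (0 : ℝ) ≤ L)]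
  have hpow : (1 : ℝ) ≤ ((L : ℝ) + 1) ^ (L * (b * L)) := one_le_pow₀ hLR
  obtain ⟨B0, hB0⟩ : ∃ B0 : ℝ, B0 = (Mb b L : ℝ) * ((L : ℝ) + 1) ^ (L * (b * L)) := ⟨_, rfl⟩
  have hMb1 : (1 : ℝ) ≤ Mb b L := hG1R.trans hMR
  have hB1 : 1 ≤ B0 := by
    rw [hB0]
    nlinarith
  have hc := upper_chebotarev (N := N) (Sset N T) (fun g hg g' h => sset_zpowers T g hg g' h) B0 hB1
    (fun H => by
      obtain ⟨ω, h1, h2, h3⟩ := bounded_inv (N := N) T b L hb hL hT1 hgen H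
      refine ⟨ω, h1, h2, fun i φ => (h3 i φ).trans ?_⟩
      rw [hB0]
      gcongr) X hX E
    (fun p hp => by
      obtain ⟨hpp, hpX, hpL, hpr⟩ := hE p hp
      refine ⟨hpp, hpX, fun Q hQ => ⟨?_, ?_⟩⟩
      · refine good_of_separable T hgen p hpp (fun l hl => ?_) Q hQ
        refine separable_mod l p (hT1 l hl).1 hpp (lt_of_le_of_lt ?_ hpL)
        have e1 : l ≤ L := (hT1 l hl).2
        calc (2 * l + 1) ^ (l ^ 2) ≤ (2 * L + 2) ^ (l ^ 2) := Nat.pow_le_pow_left (by omega) _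
          _ ≤ (2 * L + 2) ^ (L ^ 2) :=
            Nat.pow_le_pow_right (by omega) (Nat.pow_le_pow_left e1 2)
      · intro g hg l x
        exact no_fixed_of_rho (l : ℕ) p hpp (hT1 l l.2).1 (hpr l l.2) Q hQ g hg x)
  refine hc.trans ?_
  have hs := card_sset (N := N) T (fun l hl => ⟨(hT l hl).1, (hT l hl).2.1, (hT l hl).2.2.1⟩) hsplit
  rw [hb] at hs
  unfold bnd
  rw [← hB0]
  have h2X : 0 ≤ Real.log (2 * X) := Real.log_nonneg (by linarith)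
  have hlog : Real.log (2 * (Nat.card (Gl N) : ℝ) * B0) ≤ Real.log (2 * (Mb b L : ℝ) * B0) := by
    apply Real.log_le_log (by positivity)
    gcongr
  have hlog0 : 0 ≤ Real.log (2 * (Nat.card (Gl N) : ℝ) * B0) := by
    apply Real.log_nonneg
    nlinarith
  have hlog2 : ((Nat.log 2 (Nat.card (Gl N)) + 1 : ℕ) : ℝ) ≤ ((Nat.log 2 (Mb b L) + 1 : ℕ) : ℝ) := by
    exact_mod_cast Nat.succ_le_succ (Nat.log_mono_right hM)
  gcongr

end Pool.Agent.EXM
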