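import Pool.Agent.EXM.Tot

/-!
# EXM-Cyc (0.8h): the cyclic subgroups generated by the elements of `S`

All generators of the cyclic group generated by an element of `S` belong to `S`, so the sum of the Euler
functions of the orders is at most the number of elements of `S`.
-/

set_option autoImplicit false

namespace Pool.Agent.EXM

open Classical in
private theorem totient_le_fiber {G : Type} [Group G] [Finite G] (S : Finset G)
    (hS : ∀ g ∈ S, ∀ g' : G, Subgroup.zpowers g' = Subgroup.zpowers g → g' ∈ S)
    (g : G) (hg : g ∈ S) :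
    Nat.totient (orderOf g) ≤
      (S.filter fun a => Subgroup.zpowers a = Subgroup.zpowers g).card := by
  rw [Nat.totient_eq_card_coprime]
  refine Finset.card_le_card_of_injOn (fun k => g ^ k) ?_ ?_
  · intro k hk
    have hk2 : (orderOf g).Coprime k := (Finset.mem_filter.1 hk).2
    have h1 : Subgroup.zpowers (g ^ k) = Subgroup.zpowers g := by
      refine Subgroup.eq_of_le_of_card_ge ?_ ?_
      · rw [Subgroup.zpowers_le]
        exact Subgroup.npow_mem_zpowers g k
      · rw [Nat.card_zpowers, Nat.card_zpowers, Nat.Coprime.orderOf_pow hk2]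
    exact Finset.mem_coe.2 (Finset.mem_filter.2 ⟨hS g hg _ h1, h1⟩)
  · intro k hk k' hk' h
    have h1 := Finset.mem_range.1 (Finset.mem_filter.1 hk).1
    have h2 := Finset.mem_range.1 (Finset.mem_filter.1 hk').1
    exact pow_injOn_Iio_orderOf h1 h2 h

open Classical in
theorem sum_card_zpowers_le {G : Type} [Group G] [Finite G] (S : Finset G)
    (hS : ∀ g ∈ S, ∀ g' : G, Subgroup.zpowers g' = Subgroup.zpowers g → g' ∈ S) :
    ∑ H ∈ S.image Subgroup.zpowers, Nat.card H ≤ (Nat.log 2 (Nat.card G) + 1) * S.card := by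
  rw [Finset.card_eq_sum_card_image Subgroup.zpowers S, Finset.mul_sum]
  refine Finset.sum_le_sum fun H hH => ?_
  obtain ⟨g, hg, rfl⟩ := Finset.mem_image.1 hH
  have h1 := le_totient_mul (orderOf g) (orderOf_pos g)
  have h2 := totient_le_fiber S hS g hg
  have h3 : Nat.log 2 (orderOf g) ≤ Nat.log 2 (Nat.card G) :=
    Nat.log_mono_right (Nat.le_of_dvd Nat.card_pos (orderOf_dvd_natCard g))
  rw [Nat.card_zpowers]
  calc orderOf g ≤ Nat.totient (orderOf g) * (Nat.log 2 (orderOf g) + 1) := h1
    _ ≤ (S.filter fun a => Subgroup.zpowers a = Subgroup.zpowers g).card *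
        (Nat.log 2 (Nat.card G) + 1) := Nat.mul_le_mul h2 (by omega)
    _ = _ := Nat.mul_comm _ _

end Pool.Agent.EXM
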