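import Pool.Agent.EXM.Frob

/-!
# EXM-Ord: good primes: the norm is `p ^ orderOf g`, and the orders add up to `|G|`

With `f = Q.inertiaDeg ℤ` the field `𝓞 N ⧸ Q` has `p ^ f` elements; `g ^ j` acts on it as the power
`p ^ j`, so `g ^ f = 1` (`Good`) and all its elements are roots of `X ^ (p ^ d) - X`, `d = orderOf g`.  The
second theorem follows from the formula of Mathlib for the number of primes above `p`.
-/

set_option autoImplicit false

namespace Pool.Agent.EXM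

open Polynomial NumberField Pool.Agent.Helper1.SP

variable {N : Type} [Field N] [NumberField N]

private theorem Ord_max {p : ℕ} (hp : p.Prime) : (Ideal.span {(p : ℤ)}).IsMaximal :=
  (Nat.prime_iff_prime_int.1 hp).isMaximal_span_singleton

omit [NumberField N] in
private theorem Ord_lies {p : ℕ} (hp : p.Prime) {Q : Ideal (𝓞 N)} (hQ : Above p Q) :
    Q.LiesOver (Ideal.span {(p : ℤ)}) := by
  refine (Ideal.liesOver_span_iff hQ.1.ne_top (Nat.prime_iff_prime_int.1 hp)).2 ?_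
  have h1 : algebraMap ℤ (𝓞 N) (p : ℤ) = (p : 𝓞 N) := by simp
  rw [h1]
  exact hQ.2

private theorem Ord_bot {p : ℕ} (hp : p.Prime) {Q : Ideal (𝓞 N)} (hQ : Above p Q) : Q ≠ ⊥ := by
  rintro rfl
  have h1 : (p : 𝓞 N) = 0 := hQ.2
  exact hp.ne_zero (by exact_mod_cast h1)

private theorem Ord_norm {p : ℕ} (hp : p.Prime) {Q : Ideal (𝓞 N)} (hQ : Above p Q) :
    Ideal.absNorm Q = p ^ Q.inertiaDeg ℤ := by
  have := Ord_max hp
  have := Ord_lies hp hQ
  have hm : Q.IsMaximal := Ring.DimensionLEOne.maximalOfPrime (Ord_bot hp hQ) hQ.1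
  rw [Ideal.absNorm_eq_pow_inertiaDeg' Q hp, Ideal.inertiaDeg'_algebraMap,
    Ideal.inertiaDeg_eq_of_isMaximal (Ideal.span {(p : ℤ)}) Q]

private theorem Ord_pow {p : ℕ} {Q : Ideal (𝓞 N)} {g : Gl N} (hg : IsFrob p Q g) (j : ℕ)
    (x : 𝓞 N) : Ideal.Quotient.mk Q (g ^ j • x) = Ideal.Quotient.mk Q x ^ p ^ j := by
  induction j with
  | zero => rw [pow_zero, one_smul, pow_zero, pow_one]
  | succ j ih =>
    have h1 : Ideal.Quotient.mk Q (g • (g ^ j • x)) = Ideal.Quotient.mk Q ((g ^ j • x) ^ p) :=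
      Ideal.Quotient.eq.2 (hg _)
    rw [pow_succ', mul_smul, h1, map_pow, ih, ← pow_mul, pow_succ]

private theorem Ord_deg {p : ℕ} (hp : p.Prime) {Q : Ideal (𝓞 N)} (hQ : Above p Q)
    (hG : Good Q) {g : Gl N} (hg : IsFrob p Q g) : Q.inertiaDeg ℤ = orderOf g := by
  classical
  have hm : Q.IsMaximal := Ring.DimensionLEOne.maximalOfPrime (Ord_bot hp hQ) hQ.1
  have hpr : Q.IsPrime := hQ.1
  let _ : Field (𝓞 N ⧸ Q) := Ideal.Quotient.field Q
  have hfin : Finite (𝓞 N ⧸ Q) := Ideal.finiteQuotientOfFreeOfNeBot Q (Ord_bot hp hQ)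
  let _ : Fintype (𝓞 N ⧸ Q) := Fintype.ofFinite _
  have hcard : Fintype.card (𝓞 N ⧸ Q) = p ^ Q.inertiaDeg ℤ := by
    rw [← Ord_norm hp hQ, Ideal.absNorm_apply, Submodule.cardQuot_apply,
      Nat.card_eq_fintype_card]
  have hf0 : 0 < Q.inertiaDeg ℤ := Q.inertiaDeg_pos ℤ
  refine le_antisymm ?_ ?_
  · -- all elements are roots of `X ^ (p ^ d) - X`
    have hd0 : orderOf g ≠ 0 := (orderOf_pos g).ne'
    have h1 : ∀ y : 𝓞 N ⧸ Q, y ^ p ^ orderOf g = y := by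
      intro y
      obtain ⟨x, rfl⟩ := Ideal.Quotient.mk_surjective y
      rw [← Ord_pow hg, pow_orderOf_eq_one, one_smul]
    have hlt : 1 < p ^ orderOf g := Nat.one_lt_pow hd0 hp.one_lt
    have hne : (X ^ p ^ orderOf g - X : (𝓞 N ⧸ Q)[X]) ≠ 0 :=
      FiniteField.X_pow_card_sub_X_ne_zero _ hlt
    have h2 : (Finset.univ : Finset (𝓞 N ⧸ Q)).card ≤
        (X ^ p ^ orderOf g - X : (𝓞 N ⧸ Q)[X]).natDegree := by
      refine Polynomial.card_le_degree_of_subset_roots fun y _ => ?_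
      rw [Polynomial.mem_roots hne, Polynomial.IsRoot, Polynomial.eval_sub, Polynomial.eval_pow,
        Polynomial.eval_X, h1, sub_self]
    rw [FiniteField.X_pow_card_sub_X_natDegree_eq _ hlt, Finset.card_univ, hcard] at h2
    exact (Nat.pow_le_pow_iff_right hp.one_lt).1 h2
  · refine Nat.le_of_dvd hf0 (orderOf_dvd_of_pow_eq_one (hG _ fun x => ?_))
    rw [← Ideal.Quotient.eq, Ord_pow hg, ← hcard, FiniteField.pow_card]

theorem absNorm_eq [IsGalois ℚ N] (p : ℕ) (hp : p.Prime) (Q : Ideal (𝓞 N)) (hQ : Above p Q)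
    (hG : Good Q) (g : Gl N) (hg : IsFrob p Q g) : Ideal.absNorm Q = p ^ orderOf g := by
  rw [Ord_norm hp hQ, Ord_deg hp hQ hG hg]

theorem sum_orderOf [IsGalois ℚ N] (p : ℕ) (hp : p.Prime)
    (hgood : ∀ Q : Ideal (𝓞 N), Above p Q → Good Q) (P : Finset (Ideal (𝓞 N)))
    (hP : ∀ Q, Q ∈ P ↔ Above p Q) (g : Ideal (𝓞 N) → Gl N) (hg : ∀ Q ∈ P, IsFrob p Q (g Q)) :
    ∑ Q ∈ P, orderOf (g Q) = Nat.card (Gl N) := by
  have hmax := Ord_max hp
  have hgal : IsGaloisGroup (Gl N) ℤ (𝓞 N) := IsGaloisGroup.of_isFractionRing (Gl N) ℤ (𝓞 N) ℚ N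
  have hset : (Ideal.span {(p : ℤ)}).primesOver (𝓞 N) = (P : Set (Ideal (𝓞 N))) := by
    ext Q
    rw [Finset.mem_coe, hP]
    constructor
    · rintro ⟨h1, h2⟩
      refine ⟨h1, ?_⟩
      have h3 := (Ideal.liesOver_span_iff h1.ne_top (Nat.prime_iff_prime_int.1 hp)).1 h2
      have h4 : algebraMap ℤ (𝓞 N) (p : ℤ) = (p : 𝓞 N) := by simp
      rw [h4] at h3
      exact h3
    · intro h
      exact ⟨h.1, Ord_lies hp h⟩
  have hone : ∀ Q ∈ P, P.card * orderOf (g Q) = Nat.card (Gl N) := by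
    intro Q hQ
    have hA := (hP Q).1 hQ
    have h1 : Q.IsPrime := hA.1
    have h2 := Ord_lies hp hA
    have h3 := Ideal.ncard_primesOver_mul_card_inertia_mul_finrank (G := Gl N)
      (Ideal.span {(p : ℤ)}) Q
    have h4 : Nat.card (Q.inertia (Gl N)) = 1 := by
      have h5 : Subsingleton (Q.inertia (Gl N)) := by
        refine ⟨fun a b => Subtype.ext ?_⟩
        rw [hgood Q hA a.1 a.2, hgood Q hA b.1 b.2]
      exact Nat.card_of_subsingleton 1
    rw [h4, mul_one, hset, Set.ncard_coe_finset, Ord_deg hp hA (hgood Q hA) (hg Q hQ)] at h3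
    exact h3
  obtain ⟨Q₀, hQ₀⟩ := exists_above (N := N) p hp
  have hQ₀P := (hP Q₀).2 hQ₀
  have h5 : ∀ Q ∈ P, orderOf (g Q) = orderOf (g Q₀) := by
    intro Q hQ
    have h6 : 0 < P.card := Finset.card_pos.2 ⟨Q₀, hQ₀P⟩
    exact Nat.eq_of_mul_eq_mul_left h6 ((hone Q hQ).trans (hone Q₀ hQ₀P).symm)
  rw [Finset.sum_congr rfl h5, Finset.sum_const, smul_eq_mul]
  exact hone Q₀ hQ₀P

end Pool.Agent.EXM
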