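import Pool.Agent.EXM.SievH
import Pool.Agent.EXM.Ord
import Pool.Agent.EXM.Cyc

/-!
# EXM-Cheb (1.5h): uniform upper bound of Chebotarev type

Plan.  Let `M = Nat.card (Gl N)`, `U = 2 log (2X) + 2 M log (2 M B0)`.  For every `p ∈ E` let `P_p` be
the finite set of the `Q` above `p` (`finite_above`), and choose `g Q` with `IsFrob p Q (g Q)`
(`exists_frob`; one function on all ideals, the prime `p` below `Q` is unique; e.g. define
`p Q` as the prime with `Above (p Q) Q`).  All these `g Q` are in `S`, the `Q` are `Good`.  By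
`sum_orderOf`, `M * (log p / p) = ∑ Q ∈ P_p, orderOf (g Q) * (log p / p)`.  Sum over `p ∈ E` and
sort the `Q` according to `H = Subgroup.zpowers (g Q)`, `Nat.card H = orderOf (g Q)`
(`Nat.card_zpowers`): `M ∑ log p / p = ∑_H |H| ∑_{Q : zpowers (g Q) = H} log (p Q) / p Q`, where `H`
runs over the image of (a finset with the elements of) `S`; the inner sum is `≤ 2 log (2X) +
2 n log (2 n B0) ≤ U` by `sieve_H` (`absNorm_eq` gives `(p Q)^|H| = absNorm Q`; `n = H.index ≤ M`).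
By `sum_card_zpowers_le`, `M ∑ log p / p ≤ (log₂ M + 1) |S| U`.
-/

set_option autoImplicit false

namespace Pool.Agent.EXM

open Polynomial NumberField Pool.Agent.Helper1.SP

variable {N : Type} [Field N] [NumberField N]

theorem upper_chebotarev [IsGalois ℚ N] (S : Set (Gl N))
    (hS : ∀ g ∈ S, ∀ g' : Gl N, Subgroup.zpowers g' = Subgroup.zpowers g → g' ∈ S)
    (B0 : ℝ) (hB : 1 ≤ B0)
    (hω : ∀ H : Subgroup (Gl N), ∃ ω : Fin H.index → 𝓞 N, (∀ i, ∀ h ∈ H, h • ω i = ω i) ∧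
      LinearIndependent ℤ ω ∧ ∀ i, ∀ φ : N →+* ℂ, ‖φ (ω i : N)‖ ≤ B0)
    (X : ℝ) (hX : 1 ≤ X) (E : Finset ℕ)
    (hE : ∀ p ∈ E, p.Prime ∧ (p : ℝ) ≤ X ∧ ∀ Q : Ideal (𝓞 N), Above p Q →
      Good Q ∧ ∀ g : Gl N, IsFrob p Q g → g ∈ S) :
    ∑ p ∈ E, Real.log (p : ℝ) / (p : ℝ) ≤
      ((Nat.log 2 (Nat.card (Gl N)) + 1 : ℕ) : ℝ) * ((Nat.card S : ℝ) / (Nat.card (Gl N) : ℝ)) *
      (2 * Real.log (2 * X) +
        2 * (Nat.card (Gl N) : ℝ) * Real.log (2 * (Nat.card (Gl N) : ℝ) * B0)) := by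
  classical
  obtain ⟨M, hM⟩ : ∃ M : ℕ, M = Nat.card (Gl N) := ⟨_, rfl⟩
  have hM0 : 0 < M := by
    rw [hM]
    exact Nat.card_pos
  have huniq : ∀ p p' : ℕ, p.Prime → p'.Prime → ∀ Q : Ideal (𝓞 N), Above p Q → Above p' Q →
      p = p' := by
    intro p p' hp hp' Q h h'
    by_contra hne
    have hc : IsCoprime (p : ℤ) (p' : ℤ) :=
      Nat.isCoprime_iff_coprime.2 ((Nat.coprime_primes hp hp').2 hne)
    obtain ⟨a, b, hab⟩ := hc
    have h1 : (1 : 𝓞 N) ∈ Q := by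
      have h2 : ((a * p + b * p' : ℤ) : 𝓞 N) ∈ Q := by
        push_cast
        exact Q.add_mem (Q.mul_mem_left _ h.2) (Q.mul_mem_left _ h'.2)
      rw [hab] at h2
      simpa using h2
    exact h.1.ne_top ((Ideal.eq_top_iff_one Q).2 h1)
  have hex : ∀ Q : Ideal (𝓞 N), ∃ q : ℕ × Gl N, ∀ p : ℕ, p.Prime → Above p Q →
      q.1 = p ∧ IsFrob p Q q.2 := by
    intro Q
    by_cases h : ∃ p : ℕ, p.Prime ∧ Above p Q
    · obtain ⟨p, hp, hQ⟩ := h
      obtain ⟨g, hg⟩ := exists_frob p hp Q hQ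
      refine ⟨(p, g), fun p' hp' hQ' => ?_⟩
      have := huniq p p' hp hp' Q hQ hQ'
      subst this
      exact ⟨rfl, hg⟩
    · exact ⟨(0, 1), fun p hp hQ => absurd ⟨p, hp, hQ⟩ h⟩
  choose q hq using hex
  have hfin : ∀ p : ℕ, ∃ P : Finset (Ideal (𝓞 N)), p.Prime → ∀ Q, Q ∈ P ↔ Above p Q := by
    intro p
    by_cases hp : p.Prime
    · exact ⟨(finite_above p hp).toFinset, fun _ Q => by simp⟩
    · exact ⟨∅, fun h => absurd h hp⟩
  choose P hP using hfin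
  obtain ⟨f, hf⟩ : ∃ f : Ideal (𝓞 N) → ℝ, f = fun Q =>
    Real.log ((q Q).1 : ℝ) / ((q Q).1 : ℝ) := ⟨_, rfl⟩
  obtain ⟨U, hU⟩ : ∃ U : ℝ, U = 2 * Real.log (2 * X) +
    2 * (M : ℝ) * Real.log (2 * (M : ℝ) * B0) := ⟨_, rfl⟩
  have hM1 : (1 : ℝ) ≤ M := by exact_mod_cast hM0
  have hU0 : 0 ≤ U := by
    have h1 : 0 ≤ Real.log (2 * X) := Real.log_nonneg (by linarith)
    have h2 : 0 ≤ Real.log (2 * (M : ℝ) * B0) := by
      apply Real.log_nonneg
      nlinarith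
    rw [hU]
    positivity
  -- first step
  have hstep1 : (M : ℝ) * ∑ p ∈ E, Real.log (p : ℝ) / (p : ℝ) =
      ∑ p ∈ E, ∑ Q ∈ P p, (orderOf (q Q).2 : ℝ) * f Q := by
    rw [Finset.mul_sum]
    refine Finset.sum_congr rfl fun p hp => ?_
    obtain ⟨hpp, hpX, hQ⟩ := hE p hp
    have h1 := sum_orderOf p hpp (fun Q h => (hQ Q h).1) (P p) (hP p hpp) (fun Q => (q Q).2)
      (fun Q h => (hq Q p hpp ((hP p hpp Q).1 h)).2)
    rw [← hM] at h1
    have h2 : (M : ℝ) = ∑ Q ∈ P p, (orderOf (q Q).2 : ℝ) := by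
      rw [← h1]
      push_cast
      rfl
    rw [h2, Finset.sum_mul]
    refine Finset.sum_congr rfl fun Q hQP => ?_
    rw [hf]
    simp only
    rw [(hq Q p hpp ((hP p hpp Q).1 hQP)).1]
  have hdisj : (E : Set ℕ).PairwiseDisjoint P := by
    intro p hp p' hp' hne
    refine Finset.disjoint_left.2 fun Q h h' => hne ?_
    have hpp := (hE p hp).1
    have hpp' := (hE p' hp').1
    exact huniq p p' hpp hpp' Q ((hP p hpp Q).1 h) ((hP p' hpp' Q).1 h')
  have hstep2 : ∑ p ∈ E, ∑ Q ∈ P p, (orderOf (q Q).2 : ℝ) * f Q =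
      ∑ Q ∈ E.biUnion P, (orderOf (q Q).2 : ℝ) * f Q := (Finset.sum_biUnion hdisj).symm
  have hSfin : S.Finite := Set.toFinite S
  have hmem : ∀ Q ∈ E.biUnion P, ∃ p ∈ E, p.Prime ∧ (p : ℝ) ≤ X ∧ Above p Q ∧ (q Q).1 = p ∧
      IsFrob p Q (q Q).2 ∧ Good Q ∧ (q Q).2 ∈ S := by
    intro Q hQ
    obtain ⟨p, hp, hQp⟩ := Finset.mem_biUnion.1 hQ
    obtain ⟨hpp, hpX, hQ'⟩ := hE p hp
    have hA := (hP p hpp Q).1 hQp
    exact ⟨p, hp, hpp, hpX, hA, (hq Q p hpp hA).1, (hq Q p hpp hA).2, (hQ' Q hA).1,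
      (hQ' Q hA).2 _ (hq Q p hpp hA).2⟩
  have hmaps : ∀ Q ∈ E.biUnion P, Subgroup.zpowers (q Q).2 ∈
      hSfin.toFinset.image Subgroup.zpowers := by
    intro Q hQ
    obtain ⟨p, -, -, -, -, -, -, -, hS'⟩ := hmem Q hQ
    exact Finset.mem_image_of_mem _ (hSfin.mem_toFinset.2 hS')
  have hstep3 : ∑ Q ∈ E.biUnion P, (orderOf (q Q).2 : ℝ) * f Q =
      ∑ H ∈ hSfin.toFinset.image Subgroup.zpowers,
        ∑ Q ∈ (E.biUnion P).filter (fun Q => Subgroup.zpowers (q Q).2 = H),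
          (orderOf (q Q).2 : ℝ) * f Q :=
    (Finset.sum_fiberwise_of_maps_to hmaps _).symm
  have hstep4 : ∀ H ∈ hSfin.toFinset.image Subgroup.zpowers,
      ∑ Q ∈ (E.biUnion P).filter (fun Q => Subgroup.zpowers (q Q).2 = H),
          (orderOf (q Q).2 : ℝ) * f Q ≤ (Nat.card H : ℝ) * U := by
    intro H _
    obtain ⟨ω, hω1, hω2, hω3⟩ := hω H
    have h1 : ∑ Q ∈ (E.biUnion P).filter (fun Q => Subgroup.zpowers (q Q).2 = H),
          (orderOf (q Q).2 : ℝ) * f Q =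
        (Nat.card H : ℝ) *
          ∑ Q ∈ (E.biUnion P).filter (fun Q => Subgroup.zpowers (q Q).2 = H), f Q := by
      rw [Finset.mul_sum]
      refine Finset.sum_congr rfl fun Q hQ => ?_
      rw [← (Finset.mem_filter.1 hQ).2, Nat.card_zpowers]
    rw [h1]
    apply mul_le_mul_of_nonneg_left _ (Nat.cast_nonneg _)
    have h2 := sieve_H H ω hω1 hω2 B0 hB hω3 X hX
      ((E.biUnion P).filter (fun Q => Subgroup.zpowers (q Q).2 = H)) (fun Q => (q Q).1) (by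
        intro Q hQ
        obtain ⟨hQ1, hQ2⟩ := Finset.mem_filter.1 hQ
        obtain ⟨p, hp, hpp, hpX, hA, hqp, hF, hG, hS'⟩ := hmem Q hQ1
        rw [hqp]
        refine ⟨hpp, hA, hpX, ⟨(q Q).2, ?_, hF⟩, ?_⟩
        · rw [← hQ2]
          exact Subgroup.mem_zpowers _
        · rw [← hQ2, Nat.card_zpowers]
          exact (absNorm_eq p hpp Q hA hG _ hF).ge)
    rw [hf]
    refine h2.trans ?_
    rw [hU]
    have h3 : H.index ≤ M := by
      rw [hM]
      exact Nat.le_of_dvd Nat.card_pos H.index_dvd_card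
    have h4 : 0 < H.index := Nat.pos_of_ne_zero H.index_ne_zero_of_finite
    have h5 : (H.index : ℝ) ≤ M := by exact_mod_cast h3
    have h6 : (1 : ℝ) ≤ H.index := by exact_mod_cast h4
    have h7 : 0 ≤ Real.log (2 * (H.index : ℝ) * B0) := by
      apply Real.log_nonneg
      nlinarith
    have h8 : Real.log (2 * (H.index : ℝ) * B0) ≤ Real.log (2 * (M : ℝ) * B0) := by
      apply Real.log_le_log
      · positivity
      · apply mul_le_mul_of_nonneg_right _ (by linarith)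
        linarith
    have h9 : 2 * (H.index : ℝ) * Real.log (2 * (H.index : ℝ) * B0) ≤
        2 * (M : ℝ) * Real.log (2 * (M : ℝ) * B0) :=
      mul_le_mul (by linarith) h8 h7 (by positivity)
    linarith
  have hcyc := sum_card_zpowers_le hSfin.toFinset (by
    intro g hg g' hg'
    rw [Set.Finite.mem_toFinset] at hg ⊢
    exact hS g hg g' hg')
  rw [← hM] at hcyc
  have hcard : hSfin.toFinset.card = Nat.card S := by
    rw [Nat.card_coe_set_eq, Set.ncard_eq_toFinset_card S hSfin]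
  rw [hcard] at hcyc
  have hcyc' : ∑ H ∈ hSfin.toFinset.image Subgroup.zpowers, (Nat.card H : ℝ) ≤
      ((Nat.log 2 M + 1 : ℕ) : ℝ) * (Nat.card S : ℝ) := by
    have h1 := (Nat.cast_le (α := ℝ)).2 hcyc
    rw [Nat.cast_sum, Nat.cast_mul] at h1
    exact h1
  have htot : (M : ℝ) * ∑ p ∈ E, Real.log (p : ℝ) / (p : ℝ) ≤
      ((Nat.log 2 M + 1 : ℕ) : ℝ) * (Nat.card S : ℝ) * U := by
    rw [hstep1, hstep2, hstep3]
    calc _ ≤ ∑ H ∈ hSfin.toFinset.image Subgroup.zpowers, (Nat.card H : ℝ) * U :=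
          Finset.sum_le_sum hstep4
      _ = (∑ H ∈ hSfin.toFinset.image Subgroup.zpowers, (Nat.card H : ℝ)) * U := by
          rw [Finset.sum_mul]
      _ ≤ _ := mul_le_mul_of_nonneg_right hcyc' hU0
  rw [← hM, ← hU]
  have hMr : (0 : ℝ) < M := by linarith
  have e : ((Nat.log 2 M + 1 : ℕ) : ℝ) * ((Nat.card S : ℝ) / (M : ℝ)) * U =
      (((Nat.log 2 M + 1 : ℕ) : ℝ) * (Nat.card S : ℝ) * U) / M := by
    field_simp
  rw [e, le_div_iff₀ hMr, mul_comm]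
  exact htot

end Pool.Agent.EXM
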