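import Pool.Agent.BDN.MAP

/-!
# EXM-Cnt (0.8h): many primes `l = 3` modulo 14

Plan.  `mertens_ap 14 3` (Pool/Agent/BDN/MAP.lean: `∑_{p ≤ x, p = a (q)} log p/(p-1)`-type sum is
`log x / φ(q) + O(C)`; look at the exact statement).  Apply it at `L` and at `⌊L/K⌋` with a large constant `K`:
the primes `l = 3 (14)` in `(L/K, L]` satisfy `∑ log l / (l - 1) ≥ (1/φ(14)) log K - 2C - 1 ≥ 1`, and every
term is `≤ 2 K log L / L`, so there are at least `L / (2 K log L)` of them; they are `≥ 17` for `L`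
large.
-/

set_option autoImplicit false

namespace Pool.Agent.EXM

theorem many_primes : ∃ c : ℝ, 0 < c ∧ ∃ L0 : ℕ, ∀ L : ℕ, L0 ≤ L → c * (L : ℝ) / Real.log L ≤
    (((Finset.Icc 17 L).filter (fun l => l.Prime ∧ l % 14 = 3)).card : ℝ) := by
  obtain ⟨C, hC⟩ := Pool.Agent.BDN.mertens_ap 14 3 (by norm_num) (by norm_num)
  have hC0 : 0 ≤ C := (abs_nonneg _).trans (hC 1 le_rfl)
  have hφ : Nat.totient 14 = 6 := by decide
  obtain ⟨K, hK⟩ := exists_nat_gt (Real.exp (6 * (2 * C + 1)))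
  have hK1 : (1 : ℝ) < K := lt_of_le_of_lt (Real.one_le_exp (by positivity)) hK
  have hK0 : (0 : ℝ) < K := by linarith
  have hKn : 0 < K := by exact_mod_cast hK0
  have hlogK : 6 * (2 * C + 1) ≤ Real.log K := by
    rw [← Real.log_exp (6 * (2 * C + 1))]
    exact Real.log_le_log (Real.exp_pos _) hK.le
  refine ⟨1 / (2 * K), by positivity, 16 * K, fun L hL => ?_⟩
  obtain ⟨M, hM⟩ : ∃ M, M = L / K := ⟨_, rfl⟩
  have hM16 : 16 ≤ M := by rw [hM]; exact (Nat.le_div_iff_mul_le hKn).2 hL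
  have hMK : M * K ≤ L := by rw [hM]; exact Nat.div_mul_le_self L K
  have hLM : L < M * K + K := by rw [hM]; exact Nat.lt_div_mul_add hKn
  have hML : M ≤ L := le_trans (Nat.le_mul_of_pos_right M hKn) hMK
  have hM0 : (0 : ℝ) < M := by
    have : 0 < M := by omega
    exact_mod_cast this
  have hL0 : (0 : ℝ) < L := by
    have : 0 < L := by omega
    exact_mod_cast this
  have hlogL : 0 < Real.log L := Real.log_pos (by
    have : 1 < L := by omega
    exact_mod_cast this)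
  have h1 := (abs_le.1 (hC L (by omega))).1
  have h2 := (abs_le.1 (hC M (by omega))).2
  rw [hφ] at h1 h2
  have hlogM : Real.log M ≤ Real.log L - Real.log K := by
    rw [← Real.log_div hL0.ne' hK0.ne']
    refine Real.log_le_log hM0 ?_
    rw [le_div_iff₀ hK0]
    exact_mod_cast hMK
  have hsub : (Finset.Icc 1 M).filter (fun p => p.Prime ∧ p % 14 = 3 % 14) ⊆
      (Finset.Icc 1 L).filter (fun p => p.Prime ∧ p % 14 = 3 % 14) := by
    intro p hp
    rw [Finset.mem_filter, Finset.mem_Icc] at hp ⊢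
    exact ⟨⟨hp.1.1, hp.1.2.trans hML⟩, hp.2⟩
  have hsd := Finset.sum_sdiff hsub (f := fun p : ℕ => Real.log p / ((p : ℝ) - 1))
  have hge : 1 ≤ ∑ p ∈ (Finset.Icc 1 L).filter (fun p => p.Prime ∧ p % 14 = 3 % 14) \
      (Finset.Icc 1 M).filter (fun p => p.Prime ∧ p % 14 = 3 % 14),
      Real.log p / ((p : ℝ) - 1) := by
    push_cast at h1 h2
    linarith
  have hterm : ∀ p ∈ (Finset.Icc 1 L).filter (fun p => p.Prime ∧ p % 14 = 3 % 14) \
      (Finset.Icc 1 M).filter (fun p => p.Prime ∧ p % 14 = 3 % 14),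
      M < p ∧ p ≤ L ∧ p.Prime ∧ p % 14 = 3 := by
    intro p hp
    rw [Finset.mem_sdiff, Finset.mem_filter, Finset.mem_filter, Finset.mem_Icc,
      Finset.mem_Icc] at hp
    obtain ⟨⟨⟨ha, hb⟩, hc, hd⟩, he⟩ := hp
    refine ⟨?_, hb, hc, hd⟩
    by_contra hcon
    exact he ⟨⟨ha, not_lt.1 hcon⟩, hc, hd⟩
  have hbd : ∀ p ∈ (Finset.Icc 1 L).filter (fun p => p.Prime ∧ p % 14 = 3 % 14) \
      (Finset.Icc 1 M).filter (fun p => p.Prime ∧ p % 14 = 3 % 14),
      Real.log p / ((p : ℝ) - 1) ≤ 2 * K * Real.log L / L := by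
    intro p hp
    obtain ⟨ha, hb, -, -⟩ := hterm p hp
    have hp0 : (0 : ℝ) < p := by
      have : 0 < p := by omega
      exact_mod_cast this
    have hpM : (M : ℝ) ≤ (p : ℝ) - 1 := by
      have : (M : ℝ) + 1 ≤ p := by exact_mod_cast ha
      linarith
    have hlp : Real.log p ≤ Real.log L := Real.log_le_log hp0 (by exact_mod_cast hb)
    have hLM2 : (L : ℝ) ≤ 2 * K * M := by
      have h3 : (L : ℝ) ≤ M * K + K := by exact_mod_cast hLM.le
      have h4 : (1 : ℝ) ≤ M := by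
        have : 1 ≤ M := by omega
        exact_mod_cast this
      nlinarith
    calc Real.log p / ((p : ℝ) - 1) ≤ Real.log L / M := div_le_div₀ hlogL.le hlp hM0 hpM
      _ ≤ 2 * K * Real.log L / L := by
        rw [div_le_div_iff₀ hM0 hL0]
        nlinarith
  have hcard : ((Finset.Icc 1 L).filter (fun p => p.Prime ∧ p % 14 = 3 % 14) \
      (Finset.Icc 1 M).filter (fun p => p.Prime ∧ p % 14 = 3 % 14)).card ≤
      ((Finset.Icc 17 L).filter (fun l => l.Prime ∧ l % 14 = 3)).card := by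
    refine Finset.card_le_card fun p hp => ?_
    obtain ⟨ha, hb, hc, hd⟩ := hterm p hp
    rw [Finset.mem_filter, Finset.mem_Icc]
    exact ⟨⟨by omega, hb⟩, hc, hd⟩
  have h5 := hge.trans (Finset.sum_le_card_nsmul _ _ _ hbd)
  rw [nsmul_eq_mul] at h5
  have h6 : (1 : ℝ) ≤ (((Finset.Icc 17 L).filter (fun l => l.Prime ∧ l % 14 = 3)).card : ℝ) *
      (2 * K * Real.log L / L) := by
    refine h5.trans (mul_le_mul_of_nonneg_right ?_ (by positivity))
    exact_mod_cast hcard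
  rw [mul_div_assoc', le_div_iff₀ hL0, one_mul] at h6
  rw [div_le_iff₀ hlogL, div_mul_eq_mul_div, one_mul, div_le_iff₀ (by positivity)]
  linarith

end Pool.Agent.EXM
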