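import Pool.Agent.EXM.Root

/-!
# EXM-Com (1.0h): no common root modulo a large prime

Plan.  `r = resultant (fk l1) (fk l2)` is a nonzero integer (the two polynomials are irreducible over
`ℚ` (`fk_irr`) of different degrees (`fk_natDegree`), so coprime), over `ℂ` it is the product over the
roots `θ` of `fk l1` (`l1` of them, `‖θ‖ ≤ l1 + 1`) of `(fk l2)(θ)`, of norm
`≤ (l1 + 1 + l2)^l2 + 1 ≤ (l1+l2+2)^l2`; so `0 < |r| ≤ (l1+l2+2)^(l1 l2) < p`.  By
`exists_mul_add_mul_eq_C_resultant` a common root modulo `p` gives `p ∣ r`: contradiction.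
-/

set_option autoImplicit false

namespace Pool.Agent.EXM

open Polynomial NumberField Pool.Agent.Helper1.SP

private theorem res_key (f g : ℤ[X]) (hf : f.Monic) (hm : 1 ≤ f.natDegree)
    (hc : IsCoprime (f.map (Int.castRingHom ℚ)) (g.map (Int.castRingHom ℚ))) (B : ℝ)
    (hB0 : 0 ≤ B)
    (hB : ∀ z : ℂ, aeval z f = 0 → ‖aeval z g‖ ≤ B) :
    ∃ (a b : ℤ[X]) (r : ℤ), f * a + g * b = C r ∧ r ≠ 0 ∧ |(r : ℝ)| ≤ B ^ f.natDegree := by
  obtain ⟨a, b, -, -, hab⟩ := exists_mul_add_mul_eq_C_resultant f g (m := f.natDegree)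
    (n := g.natDegree) le_rfl le_rfl (Or.inl (by omega))
  refine ⟨a, b, _, hab, ?_, ?_⟩
  · intro h0
    have h1 := resultant_map_map f g f.natDegree g.natDegree (Int.castRingHom ℚ)
    rw [h0, map_zero] at h1
    have h2 := resultant_ne_zero _ _ hc
    rw [natDegree_map_eq_of_injective (RingHom.injective_int (Int.castRingHom ℚ)),
      natDegree_map_eq_of_injective (RingHom.injective_int (Int.castRingHom ℚ))] at h2
    exact h2 h1
  · have h1 := resultant_map_map f g f.natDegree g.natDegree (Int.castRingHom ℂ)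
    have hinj : Function.Injective (Int.castRingHom ℂ) := RingHom.injective_int _
    have hdf := natDegree_map_eq_of_injective hinj f
    have hdg := natDegree_map_eq_of_injective hinj g
    have h2 := resultant_eq_prod_eval (f.map (Int.castRingHom ℂ)) (g.map (Int.castRingHom ℂ))
      g.natDegree hdg.le (IsAlgClosed.splits _)
    rw [hdf, h1, (hf.map _).leadingCoeff, one_pow, one_mul] at h2
    have h3 : ‖((resultant f g f.natDegree g.natDegree : ℤ) : ℂ)‖ ≤ B ^ f.natDegree := by
      have h4 : ((resultant f g f.natDegree g.natDegree : ℤ) : ℂ) =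
          ((f.map (Int.castRingHom ℂ)).roots.map (g.map (Int.castRingHom ℂ)).eval).prod := h2
      rw [h4]
      have hcard : Multiset.card (f.map (Int.castRingHom ℂ)).roots = f.natDegree := by
        rw [← hdf]
        exact (IsAlgClosed.splits (f.map (Int.castRingHom ℂ))).natDegree_eq_card_roots.symm
      rw [← hcard]
      have hall : ∀ z ∈ (f.map (Int.castRingHom ℂ)).roots,
          ‖(g.map (Int.castRingHom ℂ)).eval z‖ ≤ B := by
        intro z hz
        have hz1 := (mem_roots'.1 hz).2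
        have h5 : aeval z f = 0 := by
          rw [IsRoot.def, eval_map] at hz1
          simpa [aeval_def] using hz1
        have h6 := hB z h5
        rw [eval_map]
        simpa [aeval_def] using h6
      revert hall
      generalize (f.map (Int.castRingHom ℂ)).roots = s
      intro hall
      induction s using Multiset.induction_on with
      | empty => simp
      | cons z s ih =>
        rw [Multiset.map_cons, Multiset.prod_cons, norm_mul, Multiset.card_cons, pow_succ, mul_comm]
        have h7 := ih (fun w hw => hall w (Multiset.mem_cons_of_mem hw))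
        have h8 := hall z (Multiset.mem_cons_self z s)
        gcongr
    rw [Complex.norm_intCast] at h3
    exact h3

theorem no_common_root (l1 l2 p : ℕ) (h1 : 1 ≤ l1) (h2 : 1 ≤ l2) (hne : l1 ≠ l2) (hp : p.Prime)
    (h : (l1 + l2 + 2) ^ (l1 * l2) < p) (x : ZMod p) :
    ¬ (((fk l1).map (Int.castRingHom (ZMod p))).eval x = 0 ∧
      ((fk l2).map (Int.castRingHom (ZMod p))).eval x = 0) := by
  have hcop : IsCoprime ((fk l1).map (Int.castRingHom ℚ)) ((fk l2).map (Int.castRingHom ℚ)) := by
    rw [(fk_irr l1 h1).coprime_iff_not_dvd]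
    intro hd
    have h3 := (fk_irr l1 h1).associated_of_dvd (fk_irr l2 h2) hd
    have h4 := natDegree_eq_of_degree_eq (degree_eq_degree_of_associated h3)
    rw [natDegree_map_eq_of_injective (RingHom.injective_int (Int.castRingHom ℚ)),
      natDegree_map_eq_of_injective (RingHom.injective_int (Int.castRingHom ℚ)),
      fk_natDegree, fk_natDegree] at h4
    exact hne h4
  have hbound : ∀ z : ℂ, aeval z (fk l1) = 0 → ‖aeval z (fk l2)‖ ≤ ((l1 + l2 + 2 : ℕ) : ℝ) ^ l2 := by
    intro z hz
    have hz1 := root_norm_le l1 h1 z hz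
    have h3 : aeval z (fk l2) = (∏ i ∈ Finset.range l2, (z + ((i : ℂ) + 1))) - 1 := by
      unfold fk
      simp [map_prod]
    rw [h3]
    have h4 : ‖∏ i ∈ Finset.range l2, (z + ((i : ℂ) + 1))‖ ≤ ((l1 + l2 + 1 : ℕ) : ℝ) ^ l2 := by
      rw [norm_prod]
      calc ∏ i ∈ Finset.range l2, ‖z + ((i : ℂ) + 1)‖
          ≤ ∏ i ∈ Finset.range l2, ((l1 + l2 + 1 : ℕ) : ℝ) := by
            apply Finset.prod_le_prod
            · intro i _
              exact norm_nonneg _
            · intro i hi
              have hi1 : i + 1 ≤ l2 := Finset.mem_range.1 hi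
              calc ‖z + ((i : ℂ) + 1)‖ ≤ ‖z‖ + ‖(((i + 1 : ℕ)) : ℂ)‖ := by
                    have := norm_add_le z (((i + 1 : ℕ)) : ℂ)
                    simpa using this
                _ ≤ (l1 + 1) + l2 := by
                    rw [Complex.norm_natCast]
                    have : ((i + 1 : ℕ) : ℝ) ≤ l2 := by exact_mod_cast hi1
                    linarith
                _ = ((l1 + l2 + 1 : ℕ) : ℝ) := by push_cast; ring
        _ = ((l1 + l2 + 1 : ℕ) : ℝ) ^ l2 := by simp
    have h5 : ((l1 + l2 + 1 : ℕ) : ℝ) ^ l2 + 1 ≤ ((l1 + l2 + 2 : ℕ) : ℝ) ^ l2 := by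
      have : (l1 + l2 + 1) ^ l2 + 1 ≤ (l1 + l2 + 2) ^ l2 :=
        Nat.pow_lt_pow_left (by omega) (by omega)
      exact_mod_cast this
    calc ‖(∏ i ∈ Finset.range l2, (z + ((i : ℂ) + 1))) - 1‖
        ≤ ‖∏ i ∈ Finset.range l2, (z + ((i : ℂ) + 1))‖ + ‖(1 : ℂ)‖ := norm_sub_le _ _
      _ ≤ ((l1 + l2 + 1 : ℕ) : ℝ) ^ l2 + 1 := by
          rw [norm_one]
          linarith
      _ ≤ _ := h5
  obtain ⟨a, b, r, hab, hr0, hr⟩ := res_key (fk l1) (fk l2) (fk_monic l1 h1)
    (by rw [fk_natDegree]; exact h1) hcop _ (by positivity) hbound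
  rintro ⟨e1, e2⟩
  have h6 := congrArg (fun q : ℤ[X] => (q.map (Int.castRingHom (ZMod p))).eval x) hab
  simp only [Polynomial.map_add, Polynomial.map_mul, eval_add, eval_mul, e1, e2, zero_mul,
    add_zero, map_C, eval_C] at h6
  have h7 : ((r : ℤ) : ZMod p) = 0 := h6.symm
  rw [ZMod.intCast_zmod_eq_zero_iff_dvd] at h7
  rw [fk_natDegree, ← pow_mul] at hr
  have h8 : |r| < (p : ℤ) := by
    have h9 : (|(r : ℝ)|) < (p : ℝ) := by
      refine lt_of_le_of_lt hr ?_
      rw [mul_comm l2 l1]
      exact_mod_cast h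
    have h10 : ((|r| : ℤ) : ℝ) < ((p : ℤ) : ℝ) := by
      push_cast
      exact h9
    exact_mod_cast h10
  exact hr0 (Int.eq_zero_of_abs_lt_dvd h7 h8)

end Pool.Agent.EXM
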