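import Pool.Agent.Helper1.SP.Irr

/-!
# EXM (MP_1790eb_nt, extremal primes): definitions

Project EXM.  THEOREM: if `α, β ≥ 0`, `α + 2β < 1`, then the sum of `exp ((loglog p)^β) / p` over the
primes `p` which miss at most `(loglog p)^α` nonzero residues among the factorials converges.

`N` is a number field, Galois over `ℚ`, `Gl N` its Galois group, acting on the ring of integers.
-/

set_option autoImplicit false

namespace Pool.Agent.EXM

open Polynomial NumberField Pool.Agent.Helper1.SP

/-- The Galois group of the number field `N` over `ℚ` (it acts on `𝓞 N` by `•`). -/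
abbrev Gl (N : Type) [Field N] [NumberField N] : Type := N ≃ₐ[ℚ] N

variable (N : Type) [Field N] [NumberField N]

/-- The roots of `(X+1)...(X+l) - 1` in the ring of integers of `N`. -/
def Rt (l : ℕ) : Type := {x : 𝓞 N // aeval x (fk l) = 0}

variable {N}

theorem smul_aeval_int (g : Gl N) (x : 𝓞 N) (f : ℤ[X]) : g • aeval x f = aeval (g • x) f := by
  have h := Polynomial.hom_eval₂ f (algebraMap ℤ (𝓞 N))
    (MulSemiringAction.toRingHom (Gl N) (𝓞 N) g) x
  rw [Subsingleton.elim ((MulSemiringAction.toRingHom (Gl N) (𝓞 N) g).comp (algebraMap ℤ (𝓞 N)))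
    (algebraMap ℤ (𝓞 N))] at h
  exact h

noncomputable instance (l : ℕ) : MulAction (Gl N) (Rt N l) where
  smul g x := ⟨g • x.1, by rw [← smul_aeval_int, x.2, smul_zero]⟩
  one_smul x := Subtype.ext (one_smul _ x.1)
  mul_smul g h x := Subtype.ext (mul_smul g h x.1)

@[simp] theorem smul_val (l : ℕ) (g : Gl N) (x : Rt N l) : (g • x).1 = g • x.1 := rfl

/-- `Q` is a prime ideal of the ring of integers above the prime number `p`. -/
def Above (p : ℕ) (Q : Ideal (𝓞 N)) : Prop := Q.IsPrime ∧ (p : 𝓞 N) ∈ Q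

/-- `g` is a Frobenius element at `Q` (above `p`). -/
def IsFrob (p : ℕ) (Q : Ideal (𝓞 N)) (g : Gl N) : Prop := ∀ x : 𝓞 N, g • x - x ^ p ∈ Q

/-- The inertia group at `Q` is trivial. -/
def Good (Q : Ideal (𝓞 N)) : Prop := ∀ σ : Gl N, (∀ x : 𝓞 N, σ • x - x ∈ Q) → σ = 1

end Pool.Agent.EXM
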