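import Mathlib

/-!
# EXM-Mark (Mathlib only): Markov's inequality over the blocks

The sum over the blocks of the sums over the bad elements is the sum over the elements of the number of bad blocks.
-/

set_option autoImplicit false

namespace Pool.Agent.EXM

open Classical in
theorem markov {ι : Type} (I : Finset ι) (hI : I.Nonempty) (E : Finset ℕ) (w : ℕ → ℝ)
    (hw : ∀ p, 0 ≤ w p) (bad : ι → ℕ → Prop) (C : ℝ)
    (h : ∀ i ∈ I, ∑ p ∈ E.filter (fun p => bad i p), w p ≤ C) :
    ∑ p ∈ E.filter (fun p => I.card ≤ 2 * (I.filter (fun i => bad i p)).card), w p ≤ 2 * C := by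
  have hI0 : (0 : ℝ) < I.card := by exact_mod_cast hI.card_pos
  have h1 : ∑ i ∈ I, ∑ p ∈ E.filter (fun p => bad i p), w p ≤ I.card * C := by
    have h2 := Finset.sum_le_sum h
    rw [Finset.sum_const, nsmul_eq_mul] at h2
    exact h2
  have h3 : ∑ i ∈ I, ∑ p ∈ E.filter (fun p => bad i p), w p =
      ∑ p ∈ E, ((I.filter (fun i => bad i p)).card : ℝ) * w p := by
    have h4 : ∀ i ∈ I, ∑ p ∈ E.filter (fun p => bad i p), w p = ∑ p ∈ E, if bad i p then w p else 0 :=
      fun i _ => Finset.sum_filter _ _
    rw [Finset.sum_congr rfl h4, Finset.sum_comm]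
    refine Finset.sum_congr rfl fun p _ => ?_
    rw [← Finset.sum_filter, Finset.sum_const, nsmul_eq_mul]
  have h5 : I.card * ∑ p ∈ E.filter (fun p => I.card ≤ 2 * (I.filter (fun i => bad i p)).card), w p ≤
      2 * ∑ p ∈ E, ((I.filter (fun i => bad i p)).card : ℝ) * w p := by
    rw [Finset.mul_sum, Finset.mul_sum]
    refine (Finset.sum_le_sum (f := fun p => (I.card : ℝ) * w p)
      (g := fun p => 2 * (((I.filter (fun i => bad i p)).card : ℝ) * w p)) fun p hp => ?_).trans
      (Finset.sum_le_sum_of_subset_of_nonneg (Finset.filter_subset _ _) fun p _ _ => ?_)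
    · have h6 := (Finset.mem_filter.1 hp).2
      have h7 : (I.card : ℝ) ≤ 2 * ((I.filter (fun i => bad i p)).card : ℝ) := by exact_mod_cast h6
      have h8 := mul_le_mul_of_nonneg_right h7 (hw p)
      linarith
    · have := hw p
      positivity
  rw [h3] at h1
  have h9 : (I.card : ℝ) * ∑ p ∈ E.filter (fun p => I.card ≤ 2 * (I.filter (fun i => bad i p)).card), w p ≤
      I.card * (2 * C) := by linarith
  exact le_of_mul_le_mul_left h9 hI0

end Pool.Agent.EXM
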