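import Pool.Agent.Helper1.SP.Fact

/-!
# EXM-Mat (1.0h): roots for different `l` give different coincidences of factorials

Plan.  For `l ∈ A` choose a root `x_l ∈ ZMod p` of `fk l` and let `m_l < p` be its representative
(`ZMod.val`).  `(m_l+1)...(m_l+l) = 1` in `ZMod p`, so no factor is `0`, hence `m_l + l ≤ p - 1` and
`(m_l + l)! = m_l!` in `ZMod p` (compare the private `root_pair` in Pool/Agent/Helper1/SP/Fact.lean).  By
`hc` the `m_l`, `l ∈ A`, are distinct.  Every element of `V p` is `n!` with `n < p`; let `n` be the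
LARGEST such `n`: it is not one of the `m_l` (because `m_l + l > m_l` has the same factorial).  So
`V p` is contained in the image of `range p \ {m_l}`, which has `p - A.card` elements.
-/

set_option autoImplicit false

namespace Pool.Agent.EXM

open Polynomial NumberField Pool.Agent.Helper1.SP

private theorem mat_eval (l p : ℕ) (x : ZMod p) :
    ((fk l).map (Int.castRingHom (ZMod p))).eval x =
      (∏ i ∈ Finset.range l, (x + ((i : ZMod p) + 1))) - 1 := by
  unfold fk
  rw [Polynomial.map_sub, Polynomial.map_prod, Polynomial.eval_sub, Polynomial.eval_prod]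
  simp

private theorem mat_root (l p : ℕ) (hp : p.Prime) (h : rho (fk l) p ≠ 0) :
    ∃ n : ℕ, n + l < p ∧ (n.factorial : ZMod p) = ((n + l).factorial : ZMod p) ∧
      ((fk l).map (Int.castRingHom (ZMod p))).eval (n : ZMod p) = 0 := by
  have := Fact.mk hp
  unfold rho at h
  have hne : Nonempty {x : ZMod p // ((fk l).map (Int.castRingHom (ZMod p))).eval x = 0} := by
    by_contra hcon
    rw [not_nonempty_iff] at hcon
    exact h (Nat.card_of_isEmpty)
  obtain ⟨x, hx0⟩ := hne
  have hx := hx0
  rw [mat_eval, sub_eq_zero] at hx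
  have h1 : ((x.val + l).factorial : ZMod p) = (x.val.factorial : ZMod p) := by
    rw [← Nat.factorial_mul_ascFactorial, Nat.ascFactorial_eq_prod_range]
    push_cast
    rw [ZMod.natCast_zmod_val]
    have : ∏ i ∈ Finset.range l, (x + 1 + (i : ZMod p)) = 1 := by
      refine (Finset.prod_congr rfl fun i _ => ?_).trans hx
      ring
    rw [this, mul_one]
  refine ⟨x.val, ?_, h1.symm, ?_⟩
  · by_contra hcon
    push Not at hcon
    have h2 : ((x.val + l).factorial : ZMod p) = 0 := by
      rw [ZMod.natCast_eq_zero_iff]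
      exact (hp.dvd_factorial).mpr hcon
    rw [h2] at h1
    have h3 := (ZMod.natCast_eq_zero_iff _ _).mp h1.symm
    have h4 := (hp.dvd_factorial).mp h3
    have h5 := ZMod.val_lt x
    omega
  · rw [ZMod.natCast_zmod_val]
    exact hx0

private theorem mat_lt (p : ℕ) (hp : p.Prime) (x : ZMod p) (hx : x ∈ V p) :
    ∃ n : ℕ, n < p ∧ (n.factorial : ZMod p) = x := by
  obtain ⟨hx0, n, hn⟩ := hx
  refine ⟨n, ?_, hn⟩
  by_contra hcon
  push Not at hcon
  apply hx0
  rw [← hn, ZMod.natCast_eq_zero_iff]
  exact (hp.dvd_factorial).mpr hcon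

theorem ncard_add_card_le (p : ℕ) (hp : p.Prime) (A : Finset ℕ)
    (hA : ∀ l ∈ A, 1 ≤ l ∧ rho (fk l) p ≠ 0)
    (hc : ∀ l1 ∈ A, ∀ l2 ∈ A, l1 ≠ l2 → ∀ x : ZMod p,
      ¬ (((fk l1).map (Int.castRingHom (ZMod p))).eval x = 0 ∧
        ((fk l2).map (Int.castRingHom (ZMod p))).eval x = 0)) :
    (V p).ncard + A.card ≤ p := by
  classical
  have hex : ∀ l, ∃ n : ℕ, l ∈ A → (n + l < p ∧
      (n.factorial : ZMod p) = ((n + l).factorial : ZMod p) ∧
      ((fk l).map (Int.castRingHom (ZMod p))).eval (n : ZMod p) = 0) := by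
    intro l
    by_cases hl : l ∈ A
    · obtain ⟨n, hn⟩ := mat_root l p hp (hA l hl).2
      exact ⟨n, fun _ => hn⟩
    · exact ⟨0, fun h => absurd h hl⟩
  choose f hf using hex
  have hinj : Set.InjOn f A := by
    intro l1 h1 l2 h2 h12
    by_contra hne
    have a1 := (hf l1 h1).2.2
    have a2 := (hf l2 h2).2.2
    rw [h12] at a1
    exact hc l1 h1 l2 h2 hne _ ⟨a1, a2⟩
  have hcard : (A.image f).card = A.card := Finset.card_image_of_injOn hinj
  have hsub : A.image f ⊆ Finset.range p := by
    intro n hn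
    obtain ⟨l, hl, rfl⟩ := Finset.mem_image.1 hn
    rw [Finset.mem_range]
    have := (hf l hl).1
    omega
  have hQ : (Finset.range p \ A.image f).card + A.card = p := by
    have h1 := Finset.card_sdiff_add_card_eq_card hsub
    rw [hcard, Finset.card_range] at h1
    exact h1
  have hV : V p ⊆ (((Finset.range p \ A.image f).image (fun n => (n.factorial : ZMod p)) :
      Finset (ZMod p)) : Set (ZMod p)) := by
    intro x hx
    obtain ⟨n, hn, hnx⟩ := mat_lt p hp x hx
    have hne : ((Finset.range p).filter (fun m => (m.factorial : ZMod p) = x)).Nonempty :=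
      ⟨n, by simp [hn, hnx]⟩
    obtain ⟨m, hm, hmax⟩ := Finset.exists_max_image _ (fun m => m) hne
    rw [Finset.mem_filter, Finset.mem_range] at hm
    rw [Finset.coe_image, Set.mem_image]
    refine ⟨m, ?_, hm.2⟩
    rw [Finset.mem_coe, Finset.mem_sdiff, Finset.mem_range]
    refine ⟨hm.1, fun hmA => ?_⟩
    obtain ⟨l, hl, hfl⟩ := Finset.mem_image.1 hmA
    obtain ⟨h1, h2, -⟩ := hf l hl
    rw [hfl] at h1 h2
    have h3 := hmax (m + l) (by
      rw [Finset.mem_filter, Finset.mem_range]
      exact ⟨h1, by rw [← h2]; exact hm.2⟩)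
    have h4 := (hA l hl).1
    omega
  have h2 : (V p).ncard ≤ (Finset.range p \ A.image f).card := by
    calc (V p).ncard ≤ (((Finset.range p \ A.image f).image (fun n => (n.factorial : ZMod p)) :
        Finset (ZMod p)) : Set (ZMod p)).ncard := Set.ncard_le_ncard hV (Finset.finite_toSet _)
      _ = ((Finset.range p \ A.image f).image (fun n => (n.factorial : ZMod p))).card :=
        Set.ncard_coe_finset _
      _ ≤ _ := Finset.card_image_le
  omega

end Pool.Agent.EXM
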