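import Pool.Agent.EXM.Blk
import Pool.Agent.EXM.Com
import Pool.Agent.EXM.Mat
import Pool.Agent.EXM.Mark

/-!
# EXM-Few (1.0h): primes which miss few residues

Plan.  The set `J` of the primes `17 ≤ l ≤ L`, `l % 14 = 3`, has at least `R * b` elements: choose
`R` pairwise disjoint subsets `T_i`, `i < R`, with `b` elements each (e.g. from
`J.orderEmbOfFin` / an injection `Fin (R * b) → J` and `finProdFinEquiv`, or induction on `R`).
For `i < R` let `bad i p` be `∀ l ∈ T_i, rho (fk l) p = 0`.  `block_bound` gives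
`∑_{p ∈ E, bad i p} log p / p ≤ bnd b L X`.  For `p ∈ E` let `A` be the set of the `l ∈ ⋃ T_i` with
`rho (fk l) p ≠ 0`; `ncard_add_card_le` (with `no_common_root`, `(l1+l2+2)^(l1*l2) ≤ (2L+2)^(L^2) < p`) gives
`A.card ≤ p - (V p).ncard ≤ m + 1 ≤ R / 2`.  Each `i` which is not bad contains an element of `A`, the
`T_i` are disjoint, so at most `R / 2` of the `i` are not bad, i.e. `R ≤ 2 * #{i | bad i p}`.  Apply
`markov`.
-/

set_option autoImplicit false

namespace Pool.Agent.EXM

open Polynomial NumberField Pool.Agent.Helper1.SP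

theorem few_missed (b L R : ℕ) (hb : 1 ≤ b) (hR : 1 ≤ R)
    (hJ : R * b ≤ ((Finset.Icc 17 L).filter (fun l => l.Prime ∧ l % 14 = 3)).card) (X : ℝ)
    (hX : 1 ≤ X) (m : ℝ) (hm : m + 1 ≤ (R : ℝ) / 2) (E : Finset ℕ)
    (hE : ∀ p ∈ E, p.Prime ∧ (p : ℝ) ≤ X ∧ (2 * L + 2) ^ (L ^ 2) < p ∧
      (p : ℝ) - 1 - ((V p).ncard : ℝ) ≤ m) :
    ∑ p ∈ E, Real.log (p : ℝ) / (p : ℝ) ≤ 2 * bnd b L X := by
  classical
  set J := (Finset.Icc 17 L).filter (fun l => l.Prime ∧ l % 14 = 3) with hJd
  set f : Fin R × Fin b → ℕ := fun q =>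
    J.orderEmbOfFin rfl (Fin.castLE hJ (finProdFinEquiv q)) with hf
  have hfinj : Function.Injective f := by
    intro q q' h
    exact finProdFinEquiv.injective (Fin.castLE_injective hJ
      ((J.orderEmbOfFin rfl).injective h))
  have hfJ : ∀ q, f q ∈ J := fun q => Finset.orderEmbOfFin_mem J rfl _
  have hfJ' : ∀ q, (f q).Prime ∧ f q % 14 = 3 ∧ 17 ≤ f q ∧ f q ≤ L := by
    intro q
    have h1 := hfJ q
    rw [hJd, Finset.mem_filter, Finset.mem_Icc] at h1
    exact ⟨h1.2.1, h1.2.2, h1.1.1, h1.1.2⟩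
  set T : Fin R → Finset ℕ := fun i => Finset.univ.image fun j : Fin b => f (i, j) with hT
  have hTcard : ∀ i, (T i).card = b := by
    intro i
    rw [hT]
    simp only
    rw [Finset.card_image_of_injective, Finset.card_univ, Fintype.card_fin]
    intro j j' h
    exact (Prod.ext_iff.1 (hfinj h)).2
  have hTmem : ∀ i, ∀ l ∈ T i, l.Prime ∧ l % 14 = 3 ∧ 17 ≤ l ∧ l ≤ L := by
    intro i l hl
    obtain ⟨j, _, rfl⟩ := Finset.mem_image.1 hl
    exact hfJ' _
  have hI : (Finset.univ : Finset (Fin R)).Nonempty := ⟨⟨0, by omega⟩, Finset.mem_univ _⟩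
  have hnb : Nonempty (Fin b) := ⟨⟨0, by omega⟩⟩
  obtain ⟨bad, hbad⟩ : ∃ bad : Fin R → ℕ → Prop,
      ∀ i p, bad i p ↔ ∀ l ∈ T i, rho (fk l) p = 0 := ⟨_, fun _ _ => Iff.rfl⟩
  have hmark := markov (Finset.univ : Finset (Fin R)) hI E
    (fun p => Real.log (p : ℝ) / (p : ℝ))
    (fun p => div_nonneg (Real.log_natCast_nonneg p) (Nat.cast_nonneg p))
    bad (bnd b L X) (by
      intro i _
      refine block_bound (T i) b L (hTcard i) hb (hTmem i) X hX _ ?_
      intro p hp
      rw [Finset.mem_filter] at hp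
      have h1 := hE p hp.1
      exact ⟨h1.1, h1.2.1, h1.2.2.1, (hbad i p).1 hp.2⟩)
  have hEq : E.filter (fun p => (Finset.univ : Finset (Fin R)).card ≤
      2 * ((Finset.univ : Finset (Fin R)).filter
        (fun i => bad i p)).card) = E := by
    rw [Finset.filter_eq_self]
    intro p hp
    obtain ⟨hpp, hpX, hpL, hpV⟩ := hE p hp
    set A := (Finset.univ.image f).filter (fun l => rho (fk l) p ≠ 0) with hA
    have hAmem : ∀ l ∈ A, (l.Prime ∧ l % 14 = 3 ∧ 17 ≤ l ∧ l ≤ L) ∧ rho (fk l) p ≠ 0 := by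
      intro l hl
      rw [hA, Finset.mem_filter] at hl
      obtain ⟨q, _, rfl⟩ := Finset.mem_image.1 hl.1
      exact ⟨hfJ' q, hl.2⟩
    have h1 := ncard_add_card_le p hpp A
      (fun l hl => ⟨by have := (hAmem l hl).1.2.2.1; omega, (hAmem l hl).2⟩)
      (by
        intro l1 hl1 l2 hl2 hne x
        have h3 := (hAmem l1 hl1).1
        have h4 := (hAmem l2 hl2).1
        refine no_common_root l1 l2 p (by omega) (by omega) hne hpp ?_ x
        refine lt_of_le_of_lt ?_ hpL
        calc (l1 + l2 + 2) ^ (l1 * l2) ≤ (2 * L + 2) ^ (l1 * l2) :=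
              Nat.pow_le_pow_left (by omega) _
          _ ≤ (2 * L + 2) ^ (L ^ 2) := by
              apply Nat.pow_le_pow_right (by omega)
              rw [pow_two]
              exact Nat.mul_le_mul h3.2.2.2 h4.2.2.2)
    have h2 : ((Finset.univ : Finset (Fin R)).filter
        (fun i => ¬ bad i p)).card ≤ A.card := by
      have h3 : ∀ i ∈ (Finset.univ : Finset (Fin R)).filter
          (fun i => ¬ bad i p), ∃ j : Fin b, rho (fk (f (i, j))) p ≠ 0 := by
        intro i hi
        have h4 := (Finset.mem_filter.1 hi).2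
        rw [hbad] at h4
        push Not at h4
        obtain ⟨l, hl, hne⟩ := h4
        obtain ⟨j, _, rfl⟩ := Finset.mem_image.1 hl
        exact ⟨j, hne⟩
      choose! g hg using h3
      refine Finset.card_le_card_of_injOn (fun i => f (i, g i)) ?_ ?_
      · intro i hi
        rw [hA, Finset.mem_coe, Finset.mem_filter]
        exact ⟨Finset.mem_image_of_mem f (Finset.mem_univ _), hg i hi⟩
      · intro i _ i' _ h
        exact (Prod.ext_iff.1 (hfinj h)).1
    have h3 := Finset.card_filter_add_card_filter_not (s := (Finset.univ : Finset (Fin R)))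
      (fun i => bad i p)
    have h4 : (A.card : ℝ) ≤ (R : ℝ) / 2 := by
      have h5 : ((V p).ncard : ℝ) + A.card ≤ p := by exact_mod_cast h1
      linarith
    have h5 : 2 * A.card ≤ R := by
      have h6 : (2 : ℝ) * A.card ≤ R := by linarith
      exact_mod_cast h6
    have h6 : (Finset.univ : Finset (Fin R)).card = R := by
      rw [Finset.card_univ, Fintype.card_fin]
    omega
  rw [hEq] at hmark
  exact hmark

end Pool.Agent.EXM
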