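import Pool.Agent.EXM.Defs

/-!
# EXM-Frob: Frobenius elements exist, finitely many primes above `p`

The existence of Frobenius elements is taken from Mathlib (`IsArithFrobAt.exists_of_isInvariant`).
-/

set_option autoImplicit false

namespace Pool.Agent.EXM

open Polynomial NumberField Pool.Agent.Helper1.SP

variable {N : Type} [Field N] [NumberField N]

private theorem above_ne_bot {p : ℕ} (hp : p.Prime) {Q : Ideal (𝓞 N)} (hQ : Above p Q) : Q ≠ ⊥ := by
  rintro rfl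
  have h1 : (p : 𝓞 N) = 0 := hQ.2
  exact hp.ne_zero (by exact_mod_cast h1)

omit [NumberField N] in
private theorem above_under {p : ℕ} (hp : p.Prime) {Q : Ideal (𝓞 N)} (hQ : Above p Q) :
    Q.under ℤ = Ideal.span {(p : ℤ)} := by
  have h1 : (Ideal.span {(p : ℤ)}).IsMaximal :=
    PrincipalIdealRing.isMaximal_of_irreducible (Nat.prime_iff_prime_int.1 hp).irreducible
  have h2 : Ideal.span {(p : ℤ)} ≤ Q.under ℤ := by
    rw [Ideal.span_singleton_le_iff_mem, Ideal.mem_comap]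
    simpa using hQ.2
  have h3 : Q.under ℤ ≠ ⊤ := by
    have := hQ.1
    exact Ideal.comap_ne_top _ this.ne_top
  exact (h1.eq_of_le h3 h2).symm

theorem exists_frob [IsGalois ℚ N] (p : ℕ) (hp : p.Prime) (Q : Ideal (𝓞 N)) (hQ : Above p Q) :
    ∃ g : Gl N, IsFrob p Q g := by
  have hQ0 := above_ne_bot hp hQ
  have hQp := hQ.1
  have hfin : Finite (𝓞 N ⧸ Q) := Ideal.finiteQuotientOfFreeOfNeBot Q hQ0
  have hG := IsGaloisGroup.of_isFractionRing (Gl N) ℤ (𝓞 N) ℚ N
  obtain ⟨σ, hσ⟩ := IsArithFrobAt.exists_of_isInvariant ℤ (Gl N) Q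
  refine ⟨σ, fun x => ?_⟩
  have h1 := hσ x
  have h2 : Nat.card (ℤ ⧸ Q.under ℤ) = p := by
    rw [above_under hp hQ]
    rw [Nat.card_congr (Int.quotientSpanNatEquivZMod p).toEquiv, Nat.card_zmod]
  rw [h2] at h1
  exact h1

theorem finite_above (p : ℕ) (hp : p.Prime) : {Q : Ideal (𝓞 N) | Above p Q}.Finite := by
  have h1 : (Ideal.span {(p : ℤ)}).IsMaximal :=
    PrincipalIdealRing.isMaximal_of_irreducible (Nat.prime_iff_prime_int.1 hp).irreducible
  refine (IsDedekindDomain.primesOver_finite (Ideal.span {(p : ℤ)}) (𝓞 N)).subset ?_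
  intro Q hQ
  exact ⟨hQ.1, ⟨(above_under hp hQ).symm⟩⟩

theorem exists_above (p : ℕ) (hp : p.Prime) : ∃ Q : Ideal (𝓞 N), Above p Q := by
  have h1 : (Ideal.span {(p : ℤ)}).IsMaximal :=
    PrincipalIdealRing.isMaximal_of_irreducible (Nat.prime_iff_prime_int.1 hp).irreducible
  have h2 := h1.isPrime
  obtain ⟨⟨Q, hQ, hQp⟩⟩ := (Ideal.span {(p : ℤ)}).nonempty_primesOver (S := 𝓞 N)
  refine ⟨Q, hQ, ?_⟩
  have h3 : (p : ℤ) ∈ Q.under ℤ := by
    rw [← hQp.over]
    exact Ideal.mem_span_singleton_self _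
  have h4 : algebraMap ℤ (𝓞 N) (p : ℤ) ∈ Q := h3
  simpa using h4

end Pool.Agent.EXM
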