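import Pool.Agent.EXM.Defs

/-!
# EXM-Idl (0.8h): prime ideals containing an integer, and the size of its norm

Plan.  (1) Distinct nonzero primes are maximal, so pairwise coprime; their product divides the
principal ideal `(γ)` (`Finset.prod_dvd_of_coprime` or `Ideal.prod_le_inf`, `Ideal.inf_eq_...`),
`Ideal.absNorm` is multiplicative, `Ideal.absNorm_dvd_absNorm_of_le`,
`Ideal.absNorm_span_singleton : absNorm (span {r}) = (Algebra.norm ℤ r).natAbs`, which is not zero;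
take logarithms.  (2) `Algebra.norm ℚ (γ : N) = ∏ σ, σ γ` (`Algebra.norm_eq_prod_embeddings`, over
`N →ₐ[ℚ] ℂ`, whose number is `finrank ℚ N`), `RingOfIntegers.coe_norm`/`Algebra.coe_norm_int`;
each factor has norm `≤ R`.
-/

set_option autoImplicit false

namespace Pool.Agent.EXM

open Polynomial NumberField Pool.Agent.Helper1.SP

variable {N : Type} [Field N] [NumberField N]

theorem sum_log_absNorm_le (γ : 𝓞 N) (hγ : γ ≠ 0) (P : Finset (Ideal (𝓞 N)))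
    (hP : ∀ I ∈ P, I.IsPrime ∧ I ≠ ⊥ ∧ γ ∈ I) :
    ∑ I ∈ P, Real.log (Ideal.absNorm I : ℝ) ≤ Real.log |((Algebra.norm ℤ γ : ℤ) : ℝ)| := by
  have h0 : Ideal.span {γ} ≠ (⊥ : Ideal (𝓞 N)) := by
    rw [Ne, Ideal.span_singleton_eq_bot]
    exact hγ
  have h1 : ∏ I ∈ P, I ∣ Ideal.span {γ} := by
    refine Finset.prod_primes_dvd _ (fun I hI => Ideal.prime_of_isPrime (hP I hI).2.1 (hP I hI).1)
      (fun I hI => ?_)
    rw [Ideal.dvd_span_singleton]
    exact (hP I hI).2.2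
  have h2 := Ideal.absNorm_dvd_absNorm_of_le (Ideal.le_of_dvd h1)
  have h3 : Ideal.absNorm (Ideal.span {γ}) ≠ 0 := by
    rw [Ne, Ideal.absNorm_eq_zero_iff]
    exact h0
  have h4 : Ideal.absNorm (∏ I ∈ P, I) ≤ Ideal.absNorm (Ideal.span {γ}) :=
    Nat.le_of_dvd (Nat.pos_of_ne_zero h3) h2
  have h5 : ∀ I ∈ P, (Ideal.absNorm I : ℝ) ≠ 0 := fun I hI => by
    rw [Nat.cast_ne_zero, Ne, Ideal.absNorm_eq_zero_iff]
    exact (hP I hI).2.1
  rw [← Real.log_prod h5]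
  have h6 : |((Algebra.norm ℤ γ : ℤ) : ℝ)| = (Ideal.absNorm (Ideal.span {γ}) : ℝ) := by
    rw [Ideal.absNorm_span_singleton, ← Int.cast_abs, Int.abs_eq_natAbs, Int.cast_natCast]
  rw [h6]
  refine Real.log_le_log (Finset.prod_pos fun I hI =>
    lt_of_le_of_ne (Nat.cast_nonneg _) (h5 I hI).symm) ?_
  rw [map_prod] at h4
  exact_mod_cast h4

theorem abs_norm_le (γ : 𝓞 N) (R : ℝ) (hR : 0 ≤ R) (h : ∀ φ : N →+* ℂ, ‖φ (γ : N)‖ ≤ R) :
    |((Algebra.norm ℤ γ : ℤ) : ℝ)| ≤ R ^ (Module.finrank ℚ N) := by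
  have h1 : ((Algebra.norm ℚ (γ : N) : ℚ) : ℂ) = ∏ σ : N →ₐ[ℚ] ℂ, σ (γ : N) := by
    have := Algebra.norm_eq_prod_embeddings ℚ (L := N) ℂ (γ : N)
    rw [← this]
    rfl
  have h2 : |((Algebra.norm ℤ γ : ℤ) : ℝ)| = ‖((Algebra.norm ℚ (γ : N) : ℚ) : ℂ)‖ := by
    rw [← Algebra.coe_norm_int]
    rw [Rat.cast_intCast, Complex.norm_intCast]
  rw [h2, h1, norm_prod]
  have h3 : Fintype.card (N →ₐ[ℚ] ℂ) = Module.finrank ℚ N := AlgHom.card ℚ N ℂ
  rw [← h3, ← Finset.card_univ, ← Finset.prod_const]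
  exact Finset.prod_le_prod (fun σ _ => norm_nonneg _) fun σ _ => h σ.toRingHom

end Pool.Agent.EXM
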