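import Pool.Agent.EXM.Cnt

/-!
# EXM-ParA (1.3h): choice of the parameters

Plan.  Let `ε = (1 - α - 2 β') / 4 > 0`, `b = ⌈u^β'⌉₊`, `L = ⌊u^(1-β'-2ε)⌋₊` (note
`1 - β' - 2ε > 0`).  `b ≤ 2 u^β'`, `b L ≤ 2 u^(1-2ε)`, so
`b L log (b L) ≤ 2 u^(1-2ε) log (2u) ≤ u/4` for `u` large; `L, b ≤ u`.  By `many_primes` the number of
primes is `≥ c L / log L ≥ (c/2) u^(1-β'-2ε) / log u`, take `R = ⌊that count / b⌋`, so
`R ≥ (c/4) u^(1-2β'-2ε) / log u - 1`, and `1 - 2β' - 2ε = α + 2ε > α`: `R/2 ≥ u^α + 1` for `u` large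
(`isLittleO_log_rpow_atTop`, `tendsto_rpow_atTop`).
-/

set_option autoImplicit false

namespace Pool.Agent.EXM

theorem choose_params (α β' : ℝ) (hα : 0 ≤ α) (hβ : 0 < β') (h : α + 2 * β' < 1) :
    ∃ u0 : ℝ, ∀ u : ℝ, u0 ≤ u → ∃ b L R : ℕ, 1 ≤ b ∧ 1 ≤ L ∧ 1 ≤ R ∧ u ^ β' ≤ (b : ℝ) ∧
      (b : ℝ) ≤ u ∧ (L : ℝ) ≤ u ∧ (b : ℝ) * L * Real.log ((b : ℝ) * L) ≤ u / 4 ∧
      R * b ≤ ((Finset.Icc 17 L).filter (fun l => l.Prime ∧ l % 14 = 3)).card ∧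
      u ^ α + 1 ≤ (R : ℝ) / 2 := by
  obtain ⟨c, hc, L0, hL0⟩ := many_primes
  obtain ⟨γ, hγ⟩ : ∃ γ : ℝ, γ = (1 + α) / 2 := ⟨_, rfl⟩
  obtain ⟨η, hη⟩ : ∃ η : ℝ, η = (1 - α - 2 * β') / 2 := ⟨_, rfl⟩
  have hγ0 : 0 < γ := by rw [hγ]; linarith
  have hη0 : 0 < η := by rw [hη]; linarith
  have e1 : ∀ᶠ u : ℝ in Filter.atTop, max ((L0 : ℝ) + 1) 4 ≤ u ^ γ :=
    (tendsto_rpow_atTop hγ0).eventually_ge_atTop _
  have e2 : ∀ᶠ u : ℝ in Filter.atTop, (2 : ℝ) ≤ u ^ (1 - β') :=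
    (tendsto_rpow_atTop (by linarith)).eventually_ge_atTop _
  have e3 : ∀ᶠ u : ℝ in Filter.atTop, ‖Real.log u‖ ≤ (c / 20) * ‖u ^ η‖ :=
    (isLittleO_log_rpow_atTop hη0).bound (by positivity)
  have e4 : ∀ᶠ u : ℝ in Filter.atTop, ‖Real.log u‖ ≤ (1 / 16) * ‖u ^ η‖ :=
    (isLittleO_log_rpow_atTop hη0).bound (by positivity)
  have e5 : ∀ᶠ u : ℝ in Filter.atTop, (3 : ℝ) ≤ u := Filter.eventually_ge_atTop 3
  obtain ⟨u0, hu0⟩ := Filter.eventually_atTop.1 (e1.and (e2.and (e3.and (e4.and e5))))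
  refine ⟨u0, fun u hu => ?_⟩
  obtain ⟨h1, h2, h3, h4, h5⟩ := hu0 u hu
  have hup : (0 : ℝ) < u := by linarith
  have hu1 : (1 : ℝ) ≤ u := by linarith
  have hlog : 0 < Real.log u := Real.log_pos (by linarith)
  rw [Real.norm_of_nonneg hlog.le, Real.norm_of_nonneg (Real.rpow_nonneg hup.le _)] at h3 h4
  have hL4 : (4 : ℝ) ≤ u ^ γ := (le_max_right _ _).trans h1
  have hLL : (L0 : ℝ) + 1 ≤ u ^ γ := (le_max_left _ _).trans h1
  obtain ⟨L, hLdef⟩ : ∃ L : ℕ, L = ⌊u ^ γ⌋₊ := ⟨_, rfl⟩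
  obtain ⟨b, hbdef⟩ : ∃ b : ℕ, b = ⌈u ^ β'⌉₊ := ⟨_, rfl⟩
  have hγu : 0 ≤ u ^ γ := Real.rpow_nonneg hup.le _
  have hβu : 0 ≤ u ^ β' := Real.rpow_nonneg hup.le _
  have hLle : (L : ℝ) ≤ u ^ γ := by rw [hLdef]; exact Nat.floor_le hγu
  have hLgt : u ^ γ < L + 1 := by rw [hLdef]; exact Nat.lt_floor_add_one _
  have hL3 : (3 : ℝ) < L := by linarith
  have hLL0 : L0 ≤ L := by
    have : (L0 : ℝ) < L := by linarith
    exact_mod_cast this.le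
  have hLh : u ^ γ / 2 ≤ L := by linarith
  have hLu : (L : ℝ) ≤ u := by
    refine hLle.trans ?_
    have := Real.rpow_le_rpow_of_exponent_le hu1 (show γ ≤ 1 by rw [hγ]; linarith)
    rwa [Real.rpow_one] at this
  have hβ1 : 1 ≤ u ^ β' := Real.one_le_rpow hu1 hβ.le
  have hb1 : u ^ β' ≤ b := by rw [hbdef]; exact Nat.le_ceil _
  have hb2 : (b : ℝ) < u ^ β' + 1 := by rw [hbdef]; exact Nat.ceil_lt_add_one hβu
  have hb3 : (b : ℝ) ≤ 2 * u ^ β' := by linarith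
  have hbu : (b : ℝ) ≤ u := by
    refine hb3.trans ?_
    calc 2 * u ^ β' ≤ u ^ (1 - β') * u ^ β' := mul_le_mul_of_nonneg_right h2 hβu
      _ = u := by
        rw [← Real.rpow_add hup, sub_add_cancel, Real.rpow_one]
  have hb0 : (1 : ℝ) ≤ b := hβ1.trans hb1
  have hb0' : 1 ≤ b := by exact_mod_cast hb0
  have hL1 : 1 ≤ L := by
    have : (1 : ℝ) ≤ L := by linarith
    exact_mod_cast this
  have hbL1 : (1 : ℝ) ≤ (b : ℝ) * L := by nlinarith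
  have hlogB : Real.log ((b : ℝ) * L) ≤ 2 * Real.log u := by
    calc Real.log ((b : ℝ) * L) ≤ Real.log (u * u) :=
          Real.log_le_log (by linarith) (mul_le_mul hbu hLu (by linarith) hup.le)
      _ = 2 * Real.log u := by
        rw [Real.log_mul hup.ne' hup.ne']
        ring
  have hB : (b : ℝ) * L * Real.log ((b : ℝ) * L) ≤ u / 4 := by
    have hlogB0 : 0 ≤ Real.log ((b : ℝ) * L) := Real.log_nonneg hbL1
    calc (b : ℝ) * L * Real.log ((b : ℝ) * L) ≤ (2 * u ^ β' * u ^ γ) * (2 * Real.log u) :=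
          mul_le_mul (mul_le_mul hb3 hLle (by linarith) (by linarith)) hlogB hlogB0
            (mul_nonneg (by linarith) hγu)
      _ ≤ (2 * u ^ β' * u ^ γ) * (2 * (1 / 16 * u ^ η)) :=
          mul_le_mul_of_nonneg_left (by linarith) (mul_nonneg (by linarith) hγu)
      _ = (u ^ β' * u ^ γ * u ^ η) / 4 := by ring
      _ = u / 4 := by
        rw [← Real.rpow_add hup, ← Real.rpow_add hup,
          show β' + γ + η = 1 by rw [hγ, hη]; ring, Real.rpow_one]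
  obtain ⟨M, hM⟩ : ∃ M : ℕ, M = ((Finset.Icc 17 L).filter (fun l => l.Prime ∧ l % 14 = 3)).card :=
    ⟨_, rfl⟩
  have hN := hL0 L hLL0
  rw [← hM] at hN
  have hlogL : 0 < Real.log L := Real.log_pos (by linarith)
  have hN1 : c * L ≤ M * Real.log L := (div_le_iff₀ hlogL).1 hN
  have hlogLu : Real.log L ≤ Real.log u := Real.log_le_log (by linarith) hLu
  have hM0 : (0 : ℝ) ≤ M := Nat.cast_nonneg _
  have hη1 : 0 < u ^ η := Real.rpow_pos_of_pos hup _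
  have hα1 : 1 ≤ u ^ α := Real.one_le_rpow hu1 hα
  have hN2 : 10 * u ^ γ ≤ M * u ^ η := by
    have h6 : c * (u ^ γ / 2) ≤ M * (c / 20 * u ^ η) :=
      calc c * (u ^ γ / 2) ≤ c * L := mul_le_mul_of_nonneg_left hLh hc.le
        _ ≤ M * Real.log L := hN1
        _ ≤ M * (c / 20 * u ^ η) := mul_le_mul_of_nonneg_left (hlogLu.trans h3) hM0
    have h7 : c * (10 * u ^ γ) ≤ c * (M * u ^ η) := by nlinarith
    exact le_of_mul_le_mul_left h7 hc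
  have hN3 : 10 * (u ^ α * u ^ β') ≤ M := by
    have h6 : u ^ γ = u ^ α * u ^ β' * u ^ η := by
      rw [← Real.rpow_add hup, ← Real.rpow_add hup]
      congr 1
      rw [hγ, hη]
      ring
    rw [h6] at hN2
    have h7 : (10 * (u ^ α * u ^ β')) * u ^ η ≤ M * u ^ η := by linarith
    exact le_of_mul_le_mul_right h7 hη1
  have hN4 : 5 * u ^ α * b ≤ M := by
    have h6 : u ^ α * b ≤ u ^ α * (2 * u ^ β') := mul_le_mul_of_nonneg_left hb3 (by linarith)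
    linarith
  have hR : (M : ℝ) < (b : ℝ) * (((M / b : ℕ) : ℝ) + 1) := by
    have h6 : M < b * (M / b + 1) := by
      have h7 := Nat.div_add_mod M b
      have h8 := Nat.mod_lt M (show 0 < b from hb0')
      rw [Nat.mul_add, Nat.mul_one]
      omega
    exact_mod_cast h6
  have hR2 : 5 * u ^ α < ((M / b : ℕ) : ℝ) + 1 := by
    have hbpos : (0 : ℝ) < b := by linarith
    have h6 : (b : ℝ) * (5 * u ^ α) < b * (((M / b : ℕ) : ℝ) + 1) := by linarith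
    exact lt_of_mul_lt_mul_left h6 hbpos.le
  refine ⟨b, L, M / b, hb0', hL1, ?_, hb1, hbu, hLu, hB, ?_, ?_⟩
  · have h6 : (1 : ℝ) < ((M / b : ℕ) : ℝ) := by linarith
    exact_mod_cast h6.le
  · rw [← hM]
    exact Nat.div_mul_le_self M b
  · linarith

end Pool.Agent.EXM
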