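import Pool.Agent.EXM.Bnd

/-!
# EXM-ParB: the bound of a block is small

`Mb b L = exp (bL log (bL)) ≤ exp (u/4)`, so `bnd ≤ u (1/2)^b 4 exp u`, and `4 u (1/2)^b ≤ exp (-2 u^β)`.
-/

set_option autoImplicit false

namespace Pool.Agent.EXM

private theorem Mb_eq {b L : ℕ} (hb : 1 ≤ b) (hL : 1 ≤ L) :
    (Mb b L : ℝ) = Real.exp ((b : ℝ) * L * Real.log ((b : ℝ) * L)) := by
  have hb' : (0 : ℝ) < b := by exact_mod_cast hb
  have hL' : (0 : ℝ) < L := by exact_mod_cast hL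
  unfold Mb
  push_cast
  calc ((b : ℝ) * L) ^ (b * L) = (Real.exp (Real.log ((b : ℝ) * L))) ^ (b * L) := by
        rw [Real.exp_log (by positivity)]
    _ = Real.exp (((b * L : ℕ) : ℝ) * Real.log ((b : ℝ) * L)) := (Real.exp_nat_mul _ _).symm
    _ = _ := by push_cast; rfl

theorem bnd_le (β β' : ℝ) (hβ : 0 < β) (hβ' : β < β') :
    ∃ u0 : ℝ, ∀ u : ℝ, u0 ≤ u → ∀ b L : ℕ, 1 ≤ b → 1 ≤ L → u ^ β' ≤ (b : ℝ) → (b : ℝ) ≤ u →
      (L : ℝ) ≤ u → (b : ℝ) * L * Real.log ((b : ℝ) * L) ≤ u / 4 →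
      bnd b L (Real.exp (Real.exp u)) ≤ Real.exp u * Real.exp (-2 * u ^ β) := by
  have hβ'0 : 0 < β' := hβ.trans hβ'
  -- eventual inequalities
  have e1 : ∀ᶠ u : ℝ in Filter.atTop, ‖Real.log u‖ ≤ 1 / 8 * ‖u ^ β'‖ :=
    (isLittleO_log_rpow_atTop hβ'0).bound (by norm_num)
  have e2 : ∀ᶠ u : ℝ in Filter.atTop, (16 : ℝ) ≤ u ^ β' :=
    (tendsto_rpow_atTop hβ'0).eventually_ge_atTop 16
  have e3 : ∀ᶠ u : ℝ in Filter.atTop, u ^ (-(β' - β)) < 1 / 8 :=
    (tendsto_rpow_neg_atTop (sub_pos.2 hβ')).eventually_lt_const (by norm_num)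
  obtain ⟨u0, hu0⟩ := Filter.eventually_atTop.1 (e1.and (e2.and e3))
  refine ⟨max u0 150, ?_⟩
  intro u hu b L hb hL hub hbu hLu hbL
  have hu1 : (150 : ℝ) ≤ u := (le_max_right _ _).trans hu
  obtain ⟨g1, g2, g3⟩ := hu0 u ((le_max_left _ _).trans hu)
  have hupos : 0 < u := by linarith
  have hlogu : 0 ≤ Real.log u := Real.log_nonneg (by linarith)
  have hub0 : 0 < u ^ β' := by positivity
  rw [Real.norm_of_nonneg hlogu, Real.norm_of_nonneg hub0.le] at g1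
  have g4 : u ^ β ≤ 1 / 8 * u ^ β' := by
    have h1 : u ^ β = u ^ β' * u ^ (-(β' - β)) := by
      rw [← Real.rpow_add hupos]
      congr 1
      ring
    rw [h1]
    nlinarith
  have hln2 : (1 / 2 : ℝ) < Real.log 2 := by
    have := Real.log_two_gt_d9
    linarith
  have hln2' : Real.log 2 < 1 := by
    have := Real.log_two_lt_d9
    linarith
  have hln4 : Real.log 4 < 2 := by
    have h1 : (4 : ℝ) = 2 ^ 2 := by norm_num
    rw [h1, Real.log_pow]
    push_cast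
    linarith
  have hM := Mb_eq hb hL
  have hM1 : (1 : ℝ) ≤ (Mb b L : ℝ) := by
    have h1 : 0 < Mb b L := by
      unfold Mb
      exact pow_pos (Nat.mul_pos hb hL) _
    exact_mod_cast h1
  have hM0 : (0 : ℝ) < (Mb b L : ℝ) := by linarith
  have hMle : (Mb b L : ℝ) ≤ Real.exp (u / 4) := by
    rw [hM]
    exact Real.exp_le_exp.2 hbL
  have hMlog : Real.log (Mb b L : ℝ) ≤ u / 4 := by
    rw [hM, Real.log_exp]
    exact hbL
  have hfirst : ((Nat.log 2 (Mb b L) + 1 : ℕ) : ℝ) ≤ u := by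
    have h1 : (2 : ℝ) ^ Nat.log 2 (Mb b L) ≤ (Mb b L : ℝ) := by
      have h2 : 2 ^ Nat.log 2 (Mb b L) ≤ Mb b L := Nat.pow_log_le_self 2 (by
        intro h3
        rw [h3] at hM0
        norm_num at hM0)
      exact_mod_cast h2
    have h3 := Real.log_le_log (by positivity) h1
    rw [Real.log_pow] at h3
    have h4 : (Nat.log 2 (Mb b L) : ℝ) * (1 / 2) ≤ u / 4 := by
      have h5 : (0 : ℝ) ≤ (Nat.log 2 (Mb b L) : ℝ) := Nat.cast_nonneg _
      nlinarith
    push_cast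
    linarith
  have hLr : (1 : ℝ) ≤ L := by exact_mod_cast hL
  have hbr : (1 : ℝ) ≤ b := by exact_mod_cast hb
  have hexpu : (1 : ℝ) + u ≤ Real.exp u := by
    have := Real.add_one_le_exp u
    linarith
  have hsec : 2 * Real.log (2 * Real.exp (Real.exp u)) ≤ 3 * Real.exp u := by
    rw [Real.log_mul (by norm_num) (Real.exp_pos _).ne', Real.log_exp]
    linarith
  have hthird : 2 * (Mb b L : ℝ) * Real.log (2 * (Mb b L : ℝ) *
      ((Mb b L : ℝ) * ((L : ℝ) + 1) ^ (L * (b * L)))) ≤ Real.exp u := by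
    have h1 : Real.log (2 * (Mb b L : ℝ) * ((Mb b L : ℝ) * ((L : ℝ) + 1) ^ (L * (b * L)))) =
        Real.log 2 + 2 * Real.log (Mb b L : ℝ) + ((L * (b * L) : ℕ) : ℝ) * Real.log ((L : ℝ) + 1) := by
      rw [Real.log_mul (by positivity) (by positivity), Real.log_mul (by norm_num) hM0.ne',
        Real.log_mul hM0.ne' (by positivity), Real.log_pow]
      ring
    have h2 : Real.log ((L : ℝ) + 1) ≤ u := by
      have := Real.log_le_sub_one_of_pos (show (0 : ℝ) < (L : ℝ) + 1 by linarith)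
      linarith
    have h2' : 0 ≤ Real.log ((L : ℝ) + 1) := Real.log_nonneg (by linarith)
    have h3 : ((L * (b * L) : ℕ) : ℝ) ≤ u ^ 3 := by
      push_cast
      have h4 : (b : ℝ) * L ≤ u * u := mul_le_mul hbu hLu (by linarith) hupos.le
      have h5 : (L : ℝ) * ((b : ℝ) * L) ≤ u * (u * u) :=
        mul_le_mul hLu h4 (by positivity) hupos.le
      calc (L : ℝ) * ((b : ℝ) * L) ≤ u * (u * u) := h5
        _ = u ^ 3 := by ring
    have h6 : ((L * (b * L) : ℕ) : ℝ) * Real.log ((L : ℝ) + 1) ≤ u ^ 3 * u :=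
      mul_le_mul h3 h2 h2' (by positivity)
    have h7 : Real.log (2 * (Mb b L : ℝ) * ((Mb b L : ℝ) * ((L : ℝ) + 1) ^ (L * (b * L)))) ≤
        1 + u / 2 + u ^ 4 := by
      rw [h1]
      have h8 : u ^ 3 * u = u ^ 4 := by ring
      linarith
    have h9 : 2 * (1 + u / 2 + u ^ 4) ≤ Real.exp (3 * u / 4) := by
      have h10 := Real.pow_div_factorial_le_exp (3 * u / 4) (by positivity) 6
      refine le_trans ?_ h10
      have h11 : (Nat.factorial 6 : ℝ) = 720 := by norm_num [Nat.factorial]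
      rw [h11]
      have h12 : (3 * u / 4) ^ 6 / 720 = 729 / 2949120 * (u ^ 2 * u ^ 4) := by ring
      rw [h12]
      have h13 : (22500 : ℝ) ≤ u ^ 2 := by nlinarith
      have h14 : 0 < u ^ 4 := by positivity
      have h15 : u ≤ u ^ 4 := by
        have h16 : (1 : ℝ) ≤ u ^ 3 := one_le_pow₀ (by linarith)
        have h17 : u ^ 4 = u ^ 3 * u := by ring
        rw [h17]
        nlinarith
      have h18 : (22500 : ℝ) * u ^ 4 ≤ u ^ 2 * u ^ 4 := mul_le_mul_of_nonneg_right h13 h14.le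
      have h19 : (1 : ℝ) ≤ u ^ 4 := one_le_pow₀ (by linarith)
      nlinarith
    have h20 : (0 : ℝ) ≤ 1 + u / 2 + u ^ 4 := by positivity
    calc 2 * (Mb b L : ℝ) * Real.log (2 * (Mb b L : ℝ) *
          ((Mb b L : ℝ) * ((L : ℝ) + 1) ^ (L * (b * L))))
        ≤ 2 * (Mb b L : ℝ) * (1 + u / 2 + u ^ 4) :=
          mul_le_mul_of_nonneg_left h7 (by positivity)
      _ = (Mb b L : ℝ) * (2 * (1 + u / 2 + u ^ 4)) := by ring
      _ ≤ Real.exp (u / 4) * Real.exp (3 * u / 4) :=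
          mul_le_mul hMle h9 (by positivity) (Real.exp_pos _).le
      _ = Real.exp u := by
          rw [← Real.exp_add]
          congr 1
          ring
  have hhalf : (1 / 2 : ℝ) ^ b ≤ Real.exp (-(u ^ β' / 2)) := by
    have h1 : (1 / 2 : ℝ) = Real.exp (-Real.log 2) := by
      rw [Real.exp_neg, Real.exp_log (by norm_num)]
      norm_num
    rw [h1, ← Real.exp_nat_mul]
    apply Real.exp_le_exp.2
    nlinarith
  have hfour : 4 * u * Real.exp (-(u ^ β' / 2)) ≤ Real.exp (-2 * u ^ β) := by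
    have h1 : 4 * u = Real.exp (Real.log 4 + Real.log u) := by
      rw [Real.exp_add, Real.exp_log (by norm_num), Real.exp_log hupos]
    rw [h1, ← Real.exp_add]
    apply Real.exp_le_exp.2
    linarith
  have hbr4 : 2 * Real.log (2 * Real.exp (Real.exp u)) + 2 * (Mb b L : ℝ) *
      Real.log (2 * (Mb b L : ℝ) * ((Mb b L : ℝ) * ((L : ℝ) + 1) ^ (L * (b * L)))) ≤
      4 * Real.exp u := by linarith
  unfold bnd
  calc ((Nat.log 2 (Mb b L) + 1 : ℕ) : ℝ) * (1 / 2) ^ b *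
        (2 * Real.log (2 * Real.exp (Real.exp u)) + 2 * (Mb b L : ℝ) *
          Real.log (2 * (Mb b L : ℝ) * ((Mb b L : ℝ) * ((L : ℝ) + 1) ^ (L * (b * L)))))
      ≤ ((Nat.log 2 (Mb b L) + 1 : ℕ) : ℝ) * (1 / 2) ^ b * (4 * Real.exp u) :=
        mul_le_mul_of_nonneg_left hbr4 (by positivity)
    _ ≤ u * Real.exp (-(u ^ β' / 2)) * (4 * Real.exp u) := by
        refine mul_le_mul_of_nonneg_right ?_ (by positivity)
        exact mul_le_mul hfirst hhalf (by positivity) hupos.le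
    _ = Real.exp u * (4 * u * Real.exp (-(u ^ β' / 2))) := by ring
    _ ≤ Real.exp u * Real.exp (-2 * u ^ β) :=
        mul_le_mul_of_nonneg_left hfour (Real.exp_pos _).le

theorem pow_lt_sqrt : ∃ u0 : ℝ, ∀ u : ℝ, u0 ≤ u → ∀ L : ℕ, (L : ℝ) ≤ u →
    ((2 * (L : ℝ) + 2) ^ (L ^ 2)) < Real.exp (Real.exp u / 2) := by
  refine ⟨150, ?_⟩
  intro u hu L hL
  have hupos : 0 < u := by linarith
  have hL0 : (0 : ℝ) ≤ L := Nat.cast_nonneg L
  have h1 : (2 * (L : ℝ) + 2) ≤ Real.exp (2 * L + 1) := by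
    have := Real.add_one_le_exp (2 * (L : ℝ) + 1)
    linarith
  have h2 : (2 * (L : ℝ) + 2) ^ (L ^ 2) ≤ Real.exp ((L : ℝ) ^ 2 * (2 * L + 1)) := by
    have h3 : (2 * (L : ℝ) + 2) ^ (L ^ 2) ≤ Real.exp (2 * L + 1) ^ (L ^ 2) :=
      pow_le_pow_left₀ (by positivity) h1 _
    rw [← Real.exp_nat_mul] at h3
    push_cast at h3
    exact h3
  refine lt_of_le_of_lt h2 (Real.exp_lt_exp.2 ?_)
  have h4 : (L : ℝ) ^ 2 * (2 * L + 1) ≤ u ^ 2 * (2 * u + 1) :=
    mul_le_mul (pow_le_pow_left₀ hL0 hL 2) (by linarith) (by positivity) (by positivity)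
  have h5 := Real.pow_div_factorial_le_exp u hupos.le 4
  have h6 : (Nat.factorial 4 : ℝ) = 24 := by norm_num [Nat.factorial]
  rw [h6] at h5
  have h7 : u ^ 2 * (2 * u + 1) < u ^ 4 / 48 := by
    have h8 : (0 : ℝ) < u ^ 2 := by positivity
    have h9 : u ^ 4 / 48 = u ^ 2 * (u ^ 2 / 48) := by ring
    rw [h9]
    apply mul_lt_mul_of_pos_left _ h8
    nlinarith
  linarith

end Pool.Agent.EXM
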