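import Mathlib

/-!
# EXM-Sum (1.2h, Mathlib only): from the bounds for `√X < p ≤ X` to summability

Plan.  It is enough to bound the sums over finite sets (`summable_of_sum_le`, nonnegative terms; the
finitely many small `p` do not matter).  Let `K` be large, so that `exp (2^(k+1)) ≥ X0` for `k ≥ K`
and `log log p ≥ 0` for `log p > 2^K`.
Cover the `p ∈ P` with `log p > 2^K` by the intervals `2^k < log p ≤ 2^(k+1)`, `k ≥ K`, i.e.
`√X < p ≤ X` with `X = exp (2^(k+1))`.
In it: `exp ((loglog p)^β) ≤ exp ((loglog X)^β)`, `1/p ≤ (log p / p) * 2 / log X`, so the part is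
`≤ exp ((loglog X)^β) (2 / log X) C log X exp (-2 (loglog X)^β) = 2 C exp (-((k+1) log 2)^β)`, and
`∑_k exp (-(k log 2)^β)` converges (compare with `k^(-2)`: `(k log 2)^β ≥ 2 log k` for `k` large).
-/

set_option autoImplicit false

namespace Pool.Agent.EXM

private theorem summable_b (β : ℝ) (hβ : 0 < β) :
    Summable (fun k : ℕ => Real.exp (-((((k : ℝ) + 1) * Real.log 2) ^ β))) := by
  have ha : 0 < (Real.log 2) ^ β := Real.rpow_pos_of_pos (Real.log_pos (by norm_num)) _
  have h1 : Summable (fun n : ℕ => Real.exp (-(Real.log 2) ^ β * (n : ℝ) ^ β)) := by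
    have h2 := isLittleO_exp_neg_mul_rpow_atTop ha (-2 / β)
    have h3 : Filter.Tendsto (fun n : ℕ => (n : ℝ) ^ β) Filter.atTop Filter.atTop :=
      (tendsto_rpow_atTop hβ).comp tendsto_natCast_atTop_atTop
    have h4 := h2.comp_tendsto h3
    have h5 : Summable (fun n : ℕ => (n : ℝ) ^ (-2 : ℝ)) :=
      Real.summable_nat_rpow.2 (by norm_num)
    refine summable_of_isBigO_nat h5 ?_
    refine h4.isBigO.congr (fun n => rfl) (fun n => ?_)
    show ((n : ℝ) ^ β) ^ (-2 / β) = (n : ℝ) ^ (-2 : ℝ)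
    rw [← Real.rpow_mul (Nat.cast_nonneg n)]
    congr 1
    field_simp
  have h6 := (summable_nat_add_iff 1).2 h1
  refine h6.congr (fun k => ?_)
  show Real.exp (-(Real.log 2) ^ β * ((k + 1 : ℕ) : ℝ) ^ β) = _
  have h7 : (((k : ℝ) + 1) * Real.log 2) ^ β = ((k : ℝ) + 1) ^ β * (Real.log 2) ^ β :=
    Real.mul_rpow (by positivity) (Real.log_pos (by norm_num)).le
  rw [h7]
  push_cast
  congr 1
  ring

theorem summable_of_dyadic (β : ℝ) (hβ : 0 < β) (P : Set ℕ) (C X0 : ℝ) (hC : 0 ≤ C)
    (h : ∀ X : ℝ, X0 ≤ X → ∀ E : Finset ℕ,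
      (∀ p ∈ E, p ∈ P ∧ Real.sqrt X < (p : ℝ) ∧ (p : ℝ) ≤ X) →
      ∑ p ∈ E, Real.log (p : ℝ) / (p : ℝ) ≤
        C * Real.log X * Real.exp (-2 * (Real.log (Real.log X)) ^ β)) :
    Summable (P.indicator
      (fun p : ℕ => Real.exp ((Real.log (Real.log (p : ℝ))) ^ β) / (p : ℝ))) := by
  classical
  set g : ℕ → ℝ := P.indicator
      (fun p : ℕ => Real.exp ((Real.log (Real.log (p : ℝ))) ^ β) / (p : ℝ)) with hg
  set b : ℕ → ℝ := fun k : ℕ => Real.exp (-((((k : ℝ) + 1) * Real.log 2) ^ β)) with hb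
  have hbs : Summable b := summable_b β hβ
  have hb0 : ∀ k, 0 ≤ b k := fun k => (Real.exp_pos _).le
  have hg0 : ∀ p, 0 ≤ g p := by
    intro p
    apply Set.indicator_nonneg
    intro q _
    positivity
  set T : ℕ → Finset ℕ := fun k => Finset.range (⌊Real.exp ((2 : ℝ) ^ k)⌋₊ + 1) with hT
  have hTmem : ∀ k p, p ∈ T k ↔ (p : ℝ) ≤ Real.exp ((2 : ℝ) ^ k) := by
    intro k p
    rw [hT]
    simp only [Finset.mem_range]
    rw [Nat.lt_succ_iff, Nat.le_floor_iff (Real.exp_pos _).le]
  have hTmono : ∀ k, T k ⊆ T (k + 1) := by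
    intro k p hp
    rw [hTmem] at hp ⊢
    refine hp.trans (Real.exp_le_exp.2 ?_)
    rw [pow_succ]
    have : (0 : ℝ) < 2 ^ k := by positivity
    linarith
  set K := ⌈X0⌉₊ with hK
  have hstep : ∀ k, K ≤ k → ∑ p ∈ T (k + 1), g p ≤ ∑ p ∈ T k, g p + 2 * C * b k := by
    intro k hk
    rw [← Finset.sum_sdiff (hTmono k)]
    set M : ℝ := (((k : ℝ) + 1) * Real.log 2) ^ β with hM
    have h2k : (0 : ℝ) < 2 ^ k := by positivity
    have hX : X0 ≤ Real.exp ((2 : ℝ) ^ (k + 1)) := by
      have e1 : X0 ≤ (K : ℝ) := Nat.le_ceil X0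
      have e2 : (K : ℝ) ≤ k := by exact_mod_cast hk
      have e3 : (k : ℝ) ≤ 2 ^ (k + 1) := by
        have : k ≤ 2 ^ (k + 1) := (Nat.lt_two_pow_self (n := k)).le.trans
          (Nat.pow_le_pow_right (by norm_num) (by omega))
        exact_mod_cast this
      have e4 : (2 : ℝ) ^ (k + 1) ≤ Real.exp ((2 : ℝ) ^ (k + 1)) := by
        have := Real.add_one_le_exp ((2 : ℝ) ^ (k + 1))
        linarith
      linarith
    have hsqrt : Real.sqrt (Real.exp ((2 : ℝ) ^ (k + 1))) = Real.exp ((2 : ℝ) ^ k) := by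
      rw [Real.sqrt_eq_iff_mul_self_eq (Real.exp_pos _).le (Real.exp_pos _).le, ← Real.exp_add]
      congr 1
      ring
    have hE := h _ hX ((T (k + 1) \ T k).filter (fun p => p ∈ P)) (by
      intro p hp
      rw [Finset.mem_filter, Finset.mem_sdiff, hTmem, hTmem] at hp
      refine ⟨hp.2, ?_, hp.1.1⟩
      rw [hsqrt]
      exact lt_of_not_ge hp.1.2)
    rw [Real.log_exp, Real.log_pow] at hE
    push_cast at hE
    rw [← hM] at hE
    have hsum : ∑ p ∈ T (k + 1) \ T k, g p ≤ (Real.exp M / 2 ^ k) *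
        ∑ p ∈ (T (k + 1) \ T k).filter (fun p => p ∈ P), Real.log (p : ℝ) / (p : ℝ) := by
      rw [Finset.mul_sum, Finset.sum_filter]
      apply Finset.sum_le_sum
      intro p hp
      rw [Finset.mem_sdiff, hTmem, hTmem] at hp
      obtain ⟨hp1, hp2⟩ := hp
      have hp3 : Real.exp ((2 : ℝ) ^ k) < p := lt_of_not_ge hp2
      have hp0 : (0 : ℝ) < p := (Real.exp_pos _).trans hp3
      by_cases hpP : p ∈ P
      · rw [if_pos hpP]
        have : g p = Real.exp ((Real.log (Real.log (p : ℝ))) ^ β) / (p : ℝ) := by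
          rw [hg, Set.indicator_of_mem hpP]
        rw [this]
        have hl1 : (2 : ℝ) ^ k < Real.log p := by
          rw [Real.lt_log_iff_exp_lt hp0]
          exact hp3
        have hl2 : Real.log p ≤ (2 : ℝ) ^ (k + 1) := by
          rw [Real.log_le_iff_le_exp hp0]
          exact hp1
        have hl0 : 0 < Real.log p := h2k.trans hl1
        have hl4 : 0 ≤ Real.log (Real.log p) := by
          apply Real.log_nonneg
          have : (1 : ℝ) ≤ 2 ^ k := one_le_pow₀ (by norm_num)
          linarith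
        have hl5 : Real.log (Real.log p) ≤ ((k : ℝ) + 1) * Real.log 2 := by
          have := Real.log_le_log hl0 hl2
          rw [Real.log_pow] at this
          push_cast at this
          exact this
        have hl6 : Real.log (Real.log p) ^ β ≤ M := Real.rpow_le_rpow hl4 hl5 hβ.le
        have hl7 : Real.exp (Real.log (Real.log p) ^ β) ≤ Real.exp M := Real.exp_le_exp.2 hl6
        calc Real.exp (Real.log (Real.log p) ^ β) / (p : ℝ) ≤ Real.exp M / p := by gcongr
          _ ≤ Real.exp M / p * (Real.log p / 2 ^ k) := by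
              have : 1 ≤ Real.log p / 2 ^ k := by
                rw [le_div_iff₀ h2k]
                linarith
              exact le_mul_of_one_le_right (by positivity) this
          _ = Real.exp M / 2 ^ k * (Real.log p / p) := by ring
      · rw [if_neg hpP]
        have : g p = 0 := by
          rw [hg, Set.indicator_of_notMem hpP]
        rw [this]
    have hfin : ∑ p ∈ T (k + 1) \ T k, g p ≤ 2 * C * b k := by
      refine hsum.trans ?_
      calc (Real.exp M / 2 ^ k) *
            ∑ p ∈ (T (k + 1) \ T k).filter (fun p => p ∈ P), Real.log (p : ℝ) / (p : ℝ)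
          ≤ (Real.exp M / 2 ^ k) * (C * 2 ^ (k + 1) * Real.exp (-2 * M)) := by
            gcongr
        _ = 2 * C * (Real.exp M * Real.exp (-2 * M)) := by
            rw [pow_succ]
            field_simp
        _ = 2 * C * b k := by
            rw [← Real.exp_add, hb]
            congr 2
            show M + -2 * M = -M
            ring
    linarith
  have hind : ∀ n, ∑ p ∈ T (K + n), g p ≤ ∑ p ∈ T K, g p +
      2 * C * ∑ i ∈ Finset.range n, b (K + i) := by
    intro n
    induction n with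
    | zero => simp
    | succ n ih =>
      have := hstep (K + n) (by omega)
      have e : K + (n + 1) = K + n + 1 := by ring
      have e2 : ∑ i ∈ Finset.range (n + 1), b (K + i) =
          ∑ i ∈ Finset.range n, b (K + i) + b (K + n) := Finset.sum_range_succ _ _
      rw [e, e2, mul_add]
      linarith
  have hbK : ∀ n, ∑ i ∈ Finset.range n, b (K + i) ≤ ∑' i, b i := by
    intro n
    have e1 : ∑ i ∈ Finset.range n, b (K + i) ≤ ∑ i ∈ Finset.range (K + n), b i := by
      rw [Finset.sum_range_add]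
      have : 0 ≤ ∑ i ∈ Finset.range K, b i := Finset.sum_nonneg (fun i _ => hb0 i)
      linarith
    exact e1.trans (hbs.sum_le_tsum _ (fun i _ => hb0 i))
  refine summable_of_sum_range_le (c := ∑ p ∈ T K, g p + 2 * C * ∑' i, b i) hg0 ?_
  intro n
  have hsub : Finset.range n ⊆ T (K + n) := by
    intro p hp
    rw [hTmem]
    have hp1 : p < n := Finset.mem_range.1 hp
    have e3 : (p : ℝ) ≤ 2 ^ (K + n) := by
      have : p ≤ 2 ^ (K + n) := (Nat.lt_two_pow_self (n := p)).le.trans
        (Nat.pow_le_pow_right (by norm_num) (by omega))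
      exact_mod_cast this
    have e4 : (2 : ℝ) ^ (K + n) ≤ Real.exp ((2 : ℝ) ^ (K + n)) := by
      have := Real.add_one_le_exp ((2 : ℝ) ^ (K + n))
      linarith
    linarith
  calc ∑ i ∈ Finset.range n, g i ≤ ∑ p ∈ T (K + n), g p :=
        Finset.sum_le_sum_of_subset_of_nonneg hsub (fun i _ _ => hg0 i)
    _ ≤ _ := hind n
    _ ≤ _ := by
        have := hbK n
        gcongr

end Pool.Agent.EXM
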