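import Pool.Agent.EXM.Few
import Pool.Agent.EXM.ParA
import Pool.Agent.EXM.ParB
import Pool.Agent.EXM.Sum

/-!
# EXM-Main: assembly (helper98)
-/

set_option autoImplicit false

namespace Pool.Agent.EXM

open Polynomial NumberField Pool.Agent.Helper1.SP

theorem main_pos (α β : ℝ) (hα : 0 ≤ α) (hβ : 0 < β) (h : α + 2 * β < 1) :
    Summable (Set.indicator
      {p : ℕ | p.Prime ∧ (p : ℝ) - 1 - ((V p).ncard : ℝ) ≤ (Real.log (Real.log (p : ℝ))) ^ α}
      (fun p : ℕ => Real.exp ((Real.log (Real.log (p : ℝ))) ^ β) / (p : ℝ))) := by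
  obtain ⟨u1, hu1⟩ := choose_params α (β + (1 - α - 2 * β) / 4) hα (by linarith) (by linarith)
  obtain ⟨u2, hu2⟩ := bnd_le β (β + (1 - α - 2 * β) / 4) hβ (by linarith)
  obtain ⟨u3, hu3⟩ := pow_lt_sqrt
  obtain ⟨u0, hu0, h1, h2, h3⟩ : ∃ u0 : ℝ, 1 ≤ u0 ∧ u1 ≤ u0 ∧ u2 ≤ u0 ∧ u3 ≤ u0 :=
    ⟨max 1 (max u1 (max u2 u3)), by simp, by simp, by simp, by simp⟩
  refine summable_of_dyadic β hβ _ 2 (Real.exp (Real.exp u0)) (by norm_num) fun X hX E hE => ?_
  have hX0 : 0 < X := (Real.exp_pos _).trans_le hX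
  have hlX : Real.exp u0 ≤ Real.log X := (Real.le_log_iff_exp_le hX0).2 hX
  have hlX0 : 0 < Real.log X := (Real.exp_pos _).trans_le hlX
  have hu : u0 ≤ Real.log (Real.log X) := (Real.le_log_iff_exp_le hlX0).2 hlX
  obtain ⟨u, hudef⟩ : ∃ u, u = Real.log (Real.log X) := ⟨_, rfl⟩
  rw [← hudef] at hu ⊢
  have hXu : X = Real.exp (Real.exp u) := by
    rw [hudef, Real.exp_log hlX0, Real.exp_log hX0]
  have hlu : Real.log X = Real.exp u := by rw [hudef, Real.exp_log hlX0]
  have hX1 : 1 ≤ X := by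
    rw [hXu]
    exact Real.one_le_exp (Real.exp_pos _).le
  obtain ⟨b, L, R, hb, hL, hR, hbu, hbu', hLu, hbL, hJ, hRu⟩ := hu1 u (h1.trans hu)
  have hbnd := hu2 u (h2.trans hu) b L hb hL hbu hbu' hLu hbL
  have hpow := hu3 u (h3.trans hu) L hLu
  refine (few_missed b L R hb hR hJ X hX1 (u ^ α) hRu _ fun p hp => ?_).trans ?_
  · obtain ⟨⟨hpp, hpV⟩, hpsq, hpX'⟩ := hE p hp
    have hpsq' : Real.exp (Real.exp u / 2) < (p : ℝ) := by
      rw [hXu, ← Real.exp_half] at hpsq
      exact hpsq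
    refine ⟨hpp, hpX', ?_, hpV.trans ?_⟩
    · have := hpow.trans hpsq'
      exact_mod_cast this
    · have hp0 : (0 : ℝ) < p := by exact_mod_cast hpp.pos
      have e1 : Real.exp u / 2 < Real.log (p : ℝ) := (Real.lt_log_iff_exp_lt hp0).2 hpsq'
      have e3 : Real.log (p : ℝ) ≤ Real.log X := Real.log_le_log hp0 hpX'
      have e5 : u + 1 ≤ Real.exp u := Real.add_one_le_exp u
      have e4 : 1 ≤ Real.log (p : ℝ) := by linarith
      have e2 : Real.log (Real.log (p : ℝ)) ≤ u := by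
        rw [hudef]
        exact Real.log_le_log (by linarith) e3
      exact Real.rpow_le_rpow (Real.log_nonneg e4) e2 hα
  · rw [hlu]
    rw [← hXu] at hbnd
    linarith

theorem main (α β : ℝ) (hα : 0 ≤ α) (hβ : 0 ≤ β) (h : α + 2 * β < 1) :
    Summable (Set.indicator
      {p : ℕ | p.Prime ∧ (p : ℝ) - 1 - ((V p).ncard : ℝ) ≤ (Real.log (Real.log (p : ℝ))) ^ α}
      (fun p : ℕ => Real.exp ((Real.log (Real.log (p : ℝ))) ^ β) / (p : ℝ))) := by
  have h1 := main_pos α (β + (1 - α - 2 * β) / 4) hα (by linarith) (by linarith)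
  refine Summable.of_norm_bounded_eventually_nat h1 ?_
  filter_upwards [Filter.eventually_ge_atTop 16] with p hp
  have hp16 : (16 : ℝ) ≤ p := by exact_mod_cast hp
  have hl : (2 : ℝ) * 1.3862943 ≤ Real.log p := by
    have h16 : Real.log 16 = 4 * Real.log 2 := by
      rw [show (16 : ℝ) = 2 ^ (4 : ℕ) by norm_num, Real.log_pow]
      norm_num
    have h2 := Real.log_two_gt_d9
    have h3 : Real.log 16 ≤ Real.log p := Real.log_le_log (by norm_num) hp16
    linarith
  have he : Real.exp 1 ≤ Real.log p := by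
    have := Real.exp_one_lt_d9
    linarith
  have hll : 1 ≤ Real.log (Real.log p) := (Real.le_log_iff_exp_le (by linarith)).2 he
  rw [Set.indicator_apply, Set.indicator_apply]
  split_ifs with h0
  · rw [Real.norm_of_nonneg (by positivity)]
    gcongr
    linarith
  · simp

end Pool.Agent.EXM
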