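import Pool.Agent.EXM.Aff

/-!
# EXM-Mul (0.8h): Burnside's theorem for a group containing `x ↦ x + 1`

The set `D` of the differences `g 1 - g 0`, `g ∈ N`, and its complement `D'` in the nonzero elements are mapped into themselves by
`d ↦ g (x + d) - g x`, `g ∈ N`; both are nonempty if `N` is not 2-transitive, and one of them has at most `(l - 1) / 2` elements, so
`affine_of_inv` applies.
-/

set_option autoImplicit false

namespace Pool.Agent.EXM

private theorem trans_mem {l : ℕ} [Fact l.Prime] (N : Subgroup (Equiv.Perm (ZMod l)))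
    (hc : Equiv.addRight (1 : ZMod l) ∈ N) (t : ZMod l) : Equiv.addRight t ∈ N := by
  have h : ∀ n : ℕ, Equiv.addRight (n : ZMod l) ∈ N := by
    intro n
    induction n with
    | zero =>
      have h1 : Equiv.addRight ((0 : ℕ) : ZMod l) = 1 := by
        ext1 x
        show x + ((0 : ℕ) : ZMod l) = x
        rw [Nat.cast_zero, add_zero]
      rw [h1]
      exact one_mem N
    | succ n ih =>
      have h1 : Equiv.addRight ((n + 1 : ℕ) : ZMod l) = Equiv.addRight (n : ZMod l) * Equiv.addRight 1 := by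
        ext1 x
        show x + ((n + 1 : ℕ) : ZMod l) = x + 1 + (n : ZMod l)
        push_cast
        ring
      rw [h1]
      exact mul_mem ih hc
  rw [← ZMod.natCast_zmod_val t]
  exact h _

theorem affine_of_not_two_transitive {l : ℕ} [Fact l.Prime] (N : Subgroup (Equiv.Perm (ZMod l)))
    (hc : Equiv.addRight (1 : ZMod l) ∈ N)
    (hN : ¬ ∀ x y x' y' : ZMod l, x ≠ y → x' ≠ y' → ∃ g ∈ N, g x = x' ∧ g y = y') :
    ∀ g ∈ N, ∃ a b : ZMod l, ∀ x, g x = a * x + b := by
  classical
  have htr := trans_mem N hc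
  set D : Finset (ZMod l) := Finset.univ.filter fun d => ∃ g ∈ N, d = g 1 - g 0 with hD
  have memD : ∀ d, d ∈ D ↔ ∃ g ∈ N, d = g 1 - g 0 := fun d => by simp [hD]
  have h0D : (0 : ZMod l) ∉ D := by
    intro h
    obtain ⟨g, _, hg⟩ := (memD 0).mp h
    exact zero_ne_one (g.injective (sub_eq_zero.mp hg.symm)).symm
  have h1D : (1 : ZMod l) ∈ D := (memD 1).mpr ⟨1, one_mem N, by
    show (1 : ZMod l) = 1 - 0
    rw [sub_zero]⟩
  -- not all nonzero elements are in `D`
  have hex : ∃ d : ZMod l, d ≠ 0 ∧ d ∉ D := by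
    by_contra hcon
    push Not at hcon
    apply hN
    have hmk : ∀ x y : ZMod l, x ≠ y → ∃ h ∈ N, h 0 = x ∧ h 1 = y := by
      intro x y hxy
      obtain ⟨h, hh, he⟩ := (memD _).mp (hcon (y - x) (sub_ne_zero.mpr hxy.symm))
      refine ⟨Equiv.addRight (x - h 0) * h, mul_mem (htr _) hh, ?_, ?_⟩
      · show h 0 + (x - h 0) = x
        ring
      · show h 1 + (x - h 0) = y
        linear_combination -he
    intro x y x' y' hxy hxy'
    obtain ⟨h, hh, h1, h2⟩ := hmk x y hxy
    obtain ⟨h', hh', h1', h2'⟩ := hmk x' y' hxy'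
    refine ⟨h' * h⁻¹, mul_mem hh' (inv_mem hh), ?_, ?_⟩
    · show h' (h.symm x) = x'
      rw [← h1, Equiv.symm_apply_apply, h1']
    · show h' (h.symm y) = y'
      rw [← h2, Equiv.symm_apply_apply, h2']
  have hDD : ∀ g ∈ N, ∀ x : ZMod l, ∀ d ∈ D, g (x + d) - g x ∈ D := by
    intro g hg x d hd
    obtain ⟨h, hh, he⟩ := (memD d).mp hd
    refine (memD _).mpr ⟨g * Equiv.addRight (x - h 0) * h, mul_mem (mul_mem hg (htr _)) hh, ?_⟩
    show g (x + d) - g x = g (h 1 + (x - h 0)) - g (h 0 + (x - h 0))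
    rw [he]
    congr 2
    · ring
    · ring
  set D' : Finset (ZMod l) := (Finset.univ.erase 0) \ D with hD'
  have memD' : ∀ d, d ∈ D' ↔ d ≠ 0 ∧ d ∉ D := fun d => by simp [hD']
  have hDD' : ∀ g ∈ N, ∀ x : ZMod l, ∀ d ∈ D', g (x + d) - g x ∈ D' := by
    intro g hg x d hd
    obtain ⟨hd0, hdD⟩ := (memD' d).mp hd
    have hinj : Function.Injective fun d => g (x + d) - g x := by
      intro a b hab
      have h1 : g (x + a) = g (x + b) := sub_left_injective hab
      exact add_left_cancel (g.injective h1)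
    refine (memD' _).mpr ⟨fun h => hd0 ?_, fun h => hdD ?_⟩
    · have h1 : g (x + d) = g x := sub_eq_zero.mp h
      have h2 := g.injective h1
      exact add_eq_left.mp h2
    · have h1 : D.image (fun d => g (x + d) - g x) = D := by
        refine Finset.eq_of_subset_of_card_le (fun e he => ?_) ?_
        · obtain ⟨a, ha, rfl⟩ := Finset.mem_image.mp he
          exact hDD g hg x a ha
        · rw [Finset.card_image_of_injective _ hinj]
      rw [← h1] at h
      obtain ⟨a, ha, hae⟩ := Finset.mem_image.mp h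
      rw [← hinj hae]
      exact ha
  have hcard : D'.card + D.card + 1 = l := by
    have h1 : D ⊆ Finset.univ.erase (0 : ZMod l) := fun d hd =>
      Finset.mem_erase.mpr ⟨fun h => h0D (h ▸ hd), Finset.mem_univ d⟩
    have h2 := Finset.card_sdiff_add_card_eq_card h1
    rw [Finset.card_erase_of_mem (Finset.mem_univ _), Finset.card_univ, ZMod.card, ← hD'] at h2
    have h3 := (Fact.out : l.Prime).pos
    omega
  intro g hg
  by_cases hlt : 2 * D.card < l
  · exact affine_of_inv D ⟨1, h1D⟩ h0D hlt g g.injective (hDD g hg)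
  · obtain ⟨d, hd0, hd⟩ := hex
    exact affine_of_inv D' ⟨d, (memD' d).mpr ⟨hd0, hd⟩⟩ (fun h => ((memD' 0).mp h).1 rfl) (by omega) g g.injective
      (hDD' g hg)

end Pool.Agent.EXM
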