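import Pool.Agent.EXM.Mul

/-!
# EXM-Nrm: a transitive normal subgroup is 2-transitive if the group is not affine
-/

set_option autoImplicit false

namespace Pool.Agent.EXM

private theorem perm_affine {l : ℕ} [Fact l.Prime] (γ : Equiv.Perm (ZMod l)) (a b : ZMod l)
    (h : ∀ x, (γ * Equiv.addRight (1 : ZMod l) * γ⁻¹) x = a * x + b) :
    ∀ x, γ x = b * x + γ 0 := by
  set δ : Equiv.Perm (ZMod l) := γ * Equiv.addRight (1 : ZMod l) * γ⁻¹ with hδ
  have h1 : ∀ (m : ℕ) (x y : ZMod l), (δ ^ m) x - (δ ^ m) y = a ^ m * (x - y) := by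
    intro m
    induction m with
    | zero =>
        intro x y
        simp
    | succ m ih =>
        intro x y
        have e1 : ∀ z, (δ ^ (m + 1)) z = (δ ^ m) (δ z) := by
          intro z
          rw [pow_succ]
          rfl
        rw [e1, e1, ih, h, h]
        ring
  have hc : ∀ (m : ℕ) (x : ZMod l), ((Equiv.addRight (1 : ZMod l)) ^ m) x = x + m := by
    intro m
    induction m with
    | zero =>
        intro x
        simp
    | succ m ih =>
        intro x
        rw [pow_succ, Equiv.Perm.mul_apply, ih]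
        simp only [Equiv.coe_addRight]
        push_cast
        ring
  have h2 : (Equiv.addRight (1 : ZMod l)) ^ l = 1 := by
    ext x
    rw [hc l x, ZMod.natCast_self, add_zero]
    rfl
  have h3 : δ ^ l = 1 := by
    rw [hδ, conj_pow, h2, mul_one, mul_inv_cancel]
  have ha : a = 1 := by
    have h4 := h1 l 1 0
    rw [h3, ZMod.pow_card] at h4
    simpa using h4.symm
  have h5 : ∀ z, γ (z + 1) = γ z + b := by
    intro z
    have h6 := h (γ z)
    have e1 : δ (γ z) = γ (z + 1) := by
      rw [hδ]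
      show γ (Equiv.addRight (1 : ZMod l) (γ.symm (γ z))) = γ (z + 1)
      rw [Equiv.symm_apply_apply]
      rfl
    rw [e1, ha, one_mul] at h6
    exact h6
  have h6 : ∀ m : ℕ, γ (m : ZMod l) = b * m + γ 0 := by
    intro m
    induction m with
    | zero => simp
    | succ m ih =>
        push_cast
        rw [h5, ih]
        ring
  intro x
  have h7 := h6 x.val
  rw [ZMod.natCast_zmod_val] at h7
  exact h7

private theorem exists_cycle {Ω : Type} [Finite Ω] (l : ℕ) [Fact l.Prime] (hΩ : Nat.card Ω = l)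
    (N' : Subgroup (Equiv.Perm Ω)) (hN : ∀ x y : Ω, ∃ n ∈ N', n x = y) :
    ∃ c ∈ N', ∃ e : ZMod l ≃ Ω, ∀ x, e (x + 1) = c (e x) := by
  classical
  have hl : l.Prime := Fact.out
  have hne : Nonempty Ω := (Nat.card_pos_iff.1 (by rw [hΩ]; exact hl.pos)).1
  obtain ⟨x1⟩ := hne
  have htr : MulAction.IsPretransitive N' Ω := by
    constructor
    intro x y
    obtain ⟨n, hn, h⟩ := hN x y
    exact ⟨⟨n, hn⟩, h⟩
  have h1 : l ∣ Nat.card N' := by
    have h2 := MulAction.index_stabilizer_of_transitive N' x1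
    rw [← hΩ, ← h2]
    exact Subgroup.index_dvd_card _
  obtain ⟨⟨c, hc⟩, hcl⟩ := exists_prime_orderOf_dvd_card' l h1
  have hcl' : orderOf c = l := by
    rw [← hcl, Subgroup.orderOf_mk]
  have hc1 : c ≠ 1 := by
    intro h
    rw [h, orderOf_one] at hcl'
    exact hl.one_lt.ne hcl'
  obtain ⟨x0, hx0⟩ : ∃ x, c x ≠ x := by
    by_contra h
    push Not at h
    exact hc1 (Equiv.ext h)
  have hcl2 : c ^ l = 1 := by
    rw [← hcl']
    exact pow_orderOf_eq_one c
  have hper : ∀ d : ℕ, (c ^ d) x0 = x0 → l ∣ d := by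
    intro d hd
    have h3 : MulAction.period c x0 ∣ d := MulAction.pow_smul_eq_iff_period_dvd.1 hd
    have h4 : MulAction.period c x0 ∣ l := by
      refine MulAction.pow_smul_eq_iff_period_dvd.1 ?_
      rw [hcl2, one_smul]
    rcases (Nat.dvd_prime hl).1 h4 with h5 | h5
    · exfalso
      apply hx0
      have h6 : c ^ 1 • x0 = x0 := MulAction.pow_smul_eq_iff_period_dvd.2 (by rw [h5])
      rw [pow_one] at h6
      exact h6
    · rw [← h5]
      exact h3
  let f : ZMod l → Ω := fun i => (c ^ i.val) x0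
  have hf1 : ∀ x, f (x + 1) = c (f x) := by
    intro x
    show (c ^ (x + 1).val) x0 = c ((c ^ x.val) x0)
    rw [← Equiv.Perm.mul_apply, ← pow_succ', ZMod.val_add, ZMod.val_one, ← pow_mod_orderOf c
      (x.val + 1), hcl']
  have hfi : Function.Injective f := by
    have h3 : ∀ i j : ZMod l, i.val ≤ j.val → f i = f j → i = j := by
      intro i j hij h
      have h4 : (c ^ i.val) ((c ^ (j.val - i.val)) x0) = (c ^ i.val) x0 := by
        rw [← Equiv.Perm.mul_apply, ← pow_add, Nat.add_sub_cancel' hij]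
        exact h.symm
      have h5 := hper _ ((c ^ i.val).injective h4)
      have h6 : j.val < l := ZMod.val_lt j
      have h7 : j.val - i.val = 0 := Nat.eq_zero_of_dvd_of_lt h5 (by omega)
      exact ZMod.val_injective l (by omega)
    intro i j h
    rcases le_total i.val j.val with h4 | h4
    · exact h3 i j h4 h
    · exact (h3 j i h4 h.symm).symm
  have : Fintype Ω := Fintype.ofFinite Ω
  have hfb : Function.Bijective f := by
    refine (Fintype.bijective_iff_injective_and_card f).2 ⟨hfi, ?_⟩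
    rw [ZMod.card, ← Nat.card_eq_fintype_card, hΩ]
  exact ⟨c, hc, Equiv.ofBijective f hfb, hf1⟩

theorem two_transitive_of_normal {G Ω : Type} [Group G] [Finite G] [MulAction G Ω] [Finite Ω]
    (l : ℕ) (hl : l.Prime) (hΩ : Nat.card Ω = l) (N : Subgroup G) [N.Normal]
    (hN : ∀ x y : Ω, ∃ n ∈ N, n • x = y) (g : G) (hg : ∀ x : Ω, g • x ≠ x) (k : ℕ) (hk : ¬ l ∣ k)
    (hgk : ∃ x : Ω, g ^ k • x = x) :
    ∀ x y x' y' : Ω, x ≠ y → x' ≠ y' → ∃ n ∈ N, n • x = x' ∧ n • y = y' := by
  classical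
  haveI : Fact l.Prime := ⟨hl⟩
  by_contra hcon
  obtain ⟨c, hc, e, he⟩ := exists_cycle l hΩ (N.map (MulAction.toPermHom G Ω)) (by
    intro x y
    obtain ⟨n, hn, h⟩ := hN x y
    exact ⟨_, ⟨n, hn, rfl⟩, h⟩)
  obtain ⟨n0, hn0, hn0c⟩ := hc
  set χ : G →* Equiv.Perm (ZMod l) :=
    (e.symm.permCongrHom.toMonoidHom).comp (MulAction.toPermHom G Ω) with hχ
  have hχa : ∀ (g : G) (x : ZMod l), χ g x = e.symm (g • e x) := fun g x => rfl
  have hχ0 : χ n0 = Equiv.addRight (1 : ZMod l) := by
    ext x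
    rw [hχa]
    have h1 : n0 • e x = c (e x) := by
      rw [← hn0c]
      rfl
    rw [h1, ← he, Equiv.symm_apply_apply]
    rfl
  have hc1 : Equiv.addRight (1 : ZMod l) ∈ N.map χ := ⟨n0, hn0, hχ0⟩
  have hM : ¬ ∀ x y x' y' : ZMod l, x ≠ y → x' ≠ y' → ∃ g ∈ N.map χ, g x = x' ∧ g y = y' := by
    intro h
    apply hcon
    intro x y x' y' hxy hxy'
    obtain ⟨_, ⟨n, hn, rfl⟩, h1, h2⟩ := h (e.symm x) (e.symm y) (e.symm x') (e.symm y')
      (fun h => hxy (e.symm.injective h)) (fun h => hxy' (e.symm.injective h))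
    have h1' : e.symm (n • e (e.symm x)) = e.symm x' := h1
    have h2' : e.symm (n • e (e.symm y)) = e.symm y' := h2
    rw [Equiv.apply_symm_apply] at h1' h2'
    exact ⟨n, hn, e.symm.injective h1', e.symm.injective h2'⟩
  have hconj : χ g * Equiv.addRight (1 : ZMod l) * (χ g)⁻¹ ∈ N.map χ := by
    refine ⟨g * n0 * g⁻¹, ?_, ?_⟩
    · exact (inferInstance : N.Normal).conj_mem n0 hn0 g
    · rw [map_mul, map_mul, map_inv, hχ0]
  obtain ⟨a, b, hab⟩ := affine_of_not_two_transitive (N.map χ) hc1 hM _ hconj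
  have hγ := perm_affine (χ g) a b hab
  have hfix : ∀ x, χ g x ≠ x := by
    intro x h
    have h1 : e.symm (g • e x) = x := h
    rw [Equiv.symm_apply_eq] at h1
    exact hg _ h1
  by_cases hb : b = 1
  · have h0 : χ g 0 ≠ 0 := hfix 0
    have hk' : ∀ (m : ℕ) (x : ZMod l), ((χ g) ^ m) x = x + m * χ g 0 := by
      intro m
      induction m with
      | zero =>
          intro x
          simp
      | succ m ih =>
          intro x
          rw [pow_succ, Equiv.Perm.mul_apply, ih, hγ x, hb]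
          push_cast
          ring
    obtain ⟨x, hx⟩ := hgk
    have h1 : χ (g ^ k) (e.symm x) = e.symm x := by
      rw [hχa, Equiv.apply_symm_apply, hx]
    rw [map_pow, hk'] at h1
    have h2 : (k : ZMod l) * χ g 0 = 0 := by
      linear_combination h1
    rcases mul_eq_zero.1 h2 with h3 | h3
    · exact hk ((ZMod.natCast_eq_zero_iff k l).1 h3)
    · exact h0 h3
  · have hb' : (1 : ZMod l) - b ≠ 0 := sub_ne_zero.2 (Ne.symm hb)
    apply hfix ((1 - b)⁻¹ * χ g 0)
    rw [hγ]
    have h1 : (1 - b) * ((1 - b)⁻¹ * χ g 0) = χ g 0 := by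
      rw [← mul_assoc, mul_inv_cancel₀ hb', one_mul]
    linear_combination -h1

end Pool.Agent.EXM
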