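import Mathlib

/-!
# EXM-Pow (0.5h, Mathlib only): a power sum of nonzero elements does not vanish

If all power sums of exponents `1, ..., E.card` vanish then the Vandermonde matrix of the elements
kills the vector of the elements, which is not zero.
-/

set_option autoImplicit false

namespace Pool.Agent.EXM

theorem exists_pow_sum_ne_zero {F : Type*} [Field F] (E : Finset F) (hE : E.Nonempty)
    (h0 : (0 : F) ∉ E) : ∃ k : ℕ, 1 ≤ k ∧ k ≤ E.card ∧ ∑ d ∈ E, d ^ k ≠ 0 := by
  classical
  by_contra hcon
  push Not at hcon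
  set n := E.card with hn
  set v : Fin n → F := fun i => ((E.equivFin.symm i : E) : F) with hv
  have hinj : Function.Injective v := fun i j hij =>
    E.equivFin.symm.injective (Subtype.ext hij)
  have hdet : (Matrix.vandermonde v).det ≠ 0 := Matrix.det_vandermonde_ne_zero_iff.2 hinj
  have hz : Matrix.vecMul v (Matrix.vandermonde v) = 0 := by
    funext j
    have h1 : Matrix.vecMul v (Matrix.vandermonde v) j = ∑ i, v i ^ ((j : ℕ) + 1) := by
      simp only [Matrix.vecMul, dotProduct, Matrix.vandermonde_apply, pow_succ']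
    rw [h1]
    have h2 : ∑ i, v i ^ ((j : ℕ) + 1) = ∑ d ∈ E, d ^ ((j : ℕ) + 1) := by
      rw [← Finset.sum_coe_sort E (fun d => d ^ ((j : ℕ) + 1))]
      exact Equiv.sum_comp E.equivFin.symm (fun d : E => (d : F) ^ ((j : ℕ) + 1))
    rw [h2, hcon _ (by omega) (by have := j.2; omega)]
    rfl
  have h3 := Matrix.eq_zero_of_vecMul_eq_zero hdet hz
  have hpos : 0 < n := Finset.card_pos.2 hE
  have h4 : v ⟨0, hpos⟩ = 0 := congrFun h3 _
  apply h0
  rw [← h4]
  exact (E.equivFin.symm ⟨0, hpos⟩).2

end Pool.Agent.EXM
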