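import Mathlib

/-!
# EXM-Siev (0.7h, Mathlib only): Gallagher's larger sieve, abstract form

Plan.  For `i ∈ P` let `n_i` be the number of pairs `(a, b)` in `B × B`, `a ≠ b`, with
`c i a = c i b`.  By Cauchy-Schwarz (the fibres of `c i` on `B`, at most `p i` classes)
`n_i + B.card ≥ B.card ^ 2 / p i`, hence `n_i ≥ B.card ^ 2 / (2 p i)` because `2 p i ≤ B.card`.  So
`∑ i, w i * B.card ^ 2 / (2 p i) ≤ ∑ i, w i * n_i = ∑ over pairs (a ≠ b) of ∑_{i : c i a = c i b} w i
≤ B.card ^ 2 * Y`.  Divide by `B.card ^ 2 / 2` (if `P` is empty the claim is `0 ≤ 2 Y`; otherwise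
`B.card > 0`).
-/

set_option autoImplicit false

namespace Pool.Agent.EXM

open Classical in
private theorem pairs_ge {α κ : Type} (B : Finset α) (c : α → κ) {p : ℕ}
    (hc : (c '' (B : Set α)).ncard ≤ p) (hp : 2 * p ≤ B.card) :
    (B.card : ℝ) ^ 2 ≤ 2 * p * ((B.offDiag.filter fun q => c q.1 = c q.2).card : ℝ) := by
  set K := B.image c with hK
  have hKp : K.card ≤ p := by
    rw [← Finset.coe_image, Set.ncard_coe_finset] at hc
    exact hc
  set E := (B ×ˢ B).filter fun q => c q.1 = c q.2 with hE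
  have hmaps : ∀ q ∈ E, c q.1 ∈ K := by
    intro q hq
    rw [hE, Finset.mem_filter, Finset.mem_product] at hq
    exact Finset.mem_image_of_mem c hq.1.1
  have h1 : E.card = ∑ k ∈ K, (B.filter fun a => c a = k).card ^ 2 := by
    rw [Finset.card_eq_sum_card_fiberwise (f := fun q : α × α => c q.1) (t := K) hmaps]
    refine Finset.sum_congr rfl fun k _ => ?_
    rw [pow_two, ← Finset.card_product]
    congr 1
    ext q
    rw [hE]
    simp only [Finset.mem_filter, Finset.mem_product]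
    constructor
    · rintro ⟨⟨⟨h1, h2⟩, h3⟩, h4⟩
      exact ⟨⟨h1, h4⟩, ⟨h2, h3 ▸ h4⟩⟩
    · rintro ⟨⟨h1, h2⟩, ⟨h3, h4⟩⟩
      exact ⟨⟨⟨h1, h3⟩, h2.trans h4.symm⟩, h2⟩
  have h2 : B.card = ∑ k ∈ K, (B.filter fun a => c a = k).card :=
    Finset.card_eq_sum_card_fiberwise (f := c) fun a ha => Finset.mem_image_of_mem c ha
  have h3 : (B.card : ℝ) ^ 2 ≤ K.card * (E.card : ℝ) := by
    rw [h1, h2]
    push_cast
    exact sq_sum_le_card_mul_sum_sq
  have h4 : E.card = (B.offDiag.filter fun q => c q.1 = c q.2).card + B.card := by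
    rw [hE, ← Finset.diag_union_offDiag, Finset.filter_union, Finset.card_union_of_disjoint
      (Finset.disjoint_filter_filter (Finset.disjoint_diag_offDiag B))]
    have h5 : B.diag.filter (fun q => c q.1 = c q.2) = B.diag := by
      rw [Finset.filter_eq_self]
      intro q hq
      rw [(Finset.mem_diag.1 hq).2]
    rw [h5, Finset.diag_card, add_comm]
  have h5 : (E.card : ℝ) = ((B.offDiag.filter fun q => c q.1 = c q.2).card : ℝ) + B.card := by
    exact_mod_cast h4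
  have h6 : (K.card : ℝ) ≤ p := by exact_mod_cast hKp
  have h7 : (2 : ℝ) * p ≤ B.card := by exact_mod_cast hp
  have h8 : (0 : ℝ) ≤ E.card := Nat.cast_nonneg _
  have h9 : (0 : ℝ) ≤ B.card := Nat.cast_nonneg _
  have h10 : (K.card : ℝ) * E.card ≤ p * E.card := mul_le_mul_of_nonneg_right h6 h8
  have h11 : (2 : ℝ) * p * B.card ≤ B.card * B.card := mul_le_mul_of_nonneg_right h7 h9
  rw [h5] at h3 h10
  nlinarith

theorem larger_sieve {α ι : Type} {κ : ι → Type} (B : Finset α) (P : Finset ι) (p : ι → ℕ)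
    (w : ι → ℝ) (hw : ∀ i ∈ P, 0 ≤ w i) (c : (i : ι) → α → κ i)
    (hp : ∀ i ∈ P, 0 < p i ∧ 2 * p i ≤ B.card)
    (hc : ∀ i ∈ P, ((c i) '' (B : Set α)).ncard ≤ p i) (Y : ℝ) (hY0 : 0 ≤ Y)
    (hY : ∀ a ∈ B, ∀ b ∈ B, a ≠ b → ∀ P' : Finset ι, P' ⊆ P → (∀ i ∈ P', c i a = c i b) →
      ∑ i ∈ P', w i ≤ Y) :
    ∑ i ∈ P, w i / (p i : ℝ) ≤ 2 * Y := by
  classical
  rcases P.eq_empty_or_nonempty with hP | ⟨i0, hi0⟩
  · rw [hP, Finset.sum_empty]
    linarith
  have hB : (0 : ℝ) < B.card := by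
    have h1 := hp i0 hi0
    have h2 : 0 < B.card := by omega
    exact_mod_cast h2
  have h1 : (B.card : ℝ) ^ 2 * ∑ i ∈ P, w i / (p i : ℝ) ≤
      2 * ∑ i ∈ P, w i * ((B.offDiag.filter fun q => c i q.1 = c i q.2).card : ℝ) := by
    rw [Finset.mul_sum, Finset.mul_sum]
    refine Finset.sum_le_sum fun i hi => ?_
    have h2 := pairs_ge B (c i) (hc i hi) (hp i hi).2
    have h3 : (0 : ℝ) < p i := by exact_mod_cast (hp i hi).1
    rw [mul_div_assoc', div_le_iff₀ h3]
    have h4 := mul_le_mul_of_nonneg_left h2 (hw i hi)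
    linarith
  have h2 : ∑ i ∈ P, w i * ((B.offDiag.filter fun q => c i q.1 = c i q.2).card : ℝ) =
      ∑ q ∈ B.offDiag, ∑ i ∈ P.filter (fun i => c i q.1 = c i q.2), w i := by
    have h3 : ∀ i ∈ P, w i * ((B.offDiag.filter fun q => c i q.1 = c i q.2).card : ℝ) =
        ∑ q ∈ B.offDiag, if c i q.1 = c i q.2 then w i else 0 := by
      intro i _
      rw [← Finset.sum_filter, Finset.sum_const, nsmul_eq_mul, mul_comm]
    rw [Finset.sum_congr rfl h3, Finset.sum_comm]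
    refine Finset.sum_congr rfl fun q _ => ?_
    rw [Finset.sum_filter]
  have h3 : ∑ q ∈ B.offDiag, ∑ i ∈ P.filter (fun i => c i q.1 = c i q.2), w i ≤
      ∑ q ∈ B.offDiag, Y := by
    refine Finset.sum_le_sum fun q hq => ?_
    rw [Finset.mem_offDiag] at hq
    exact hY q.1 hq.1 q.2 hq.2.1 hq.2.2 _ (Finset.filter_subset _ _)
      fun i hi => (Finset.mem_filter.1 hi).2
  have h4 : ∑ q ∈ B.offDiag, Y ≤ (B.card : ℝ) ^ 2 * Y := by
    rw [Finset.sum_const, nsmul_eq_mul]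
    apply mul_le_mul_of_nonneg_right _ hY0
    have h5 : B.offDiag.card ≤ B.card * B.card := by
      rw [Finset.offDiag_card]
      omega
    rw [pow_two]
    exact_mod_cast h5
  have h5 : (B.card : ℝ) ^ 2 * ∑ i ∈ P, w i / (p i : ℝ) ≤ (B.card : ℝ) ^ 2 * (2 * Y) := by
    rw [h2] at h1
    linarith
  exact le_of_mul_le_mul_left h5 (by positivity)

end Pool.Agent.EXM
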