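import Pool.Agent.EXM.Siev
import Pool.Agent.EXM.Idl

/-!
# EXM-SievH (1.5h): the larger sieve for the integers fixed by `H`

Plan.  `n = H.index ≥ 1`, `h = Nat.card H`, `n h = Nat.card (Gl N) = finrank ℚ N`
(`IsGalois.card_aut_eq_finrank`, `Subgroup.index_mul_card`).  Let `A = ⌈(2X)^(1/n)⌉₊`, so
`A ^ n ≥ 2 X` and `A ≤ 2 (2X)^(1/n)` (as `2X ≥ 1`), `n log A ≤ n log 2 + log (2X)`.  `B` = the set of
the `A ^ n` elements `∑ a_i ω_i`, `a : Fin n → Fin A` (distinct by `hli`); apply `larger_sieve` with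
index set `P`, `c Q = Ideal.Quotient.mk Q`, `w Q = log (p Q)`.  (a) The image of `B` in `𝓞 N ⧸ Q` has
at most `p Q` elements: an element `x` of `B` is fixed by the Frobenius `g ∈ H`, so `x^p - x ∈ Q`,
i.e. its class is a root of `X^p - X` in the domain `𝓞 N ⧸ Q` (at most `p` roots).
(b) For `γ = a - b ≠ 0`: `‖φ γ‖ ≤ n A B0`, so by `abs_norm_le`, `|norm γ| ≤ (n A B0)^(n h)`, and for
`P'` with `γ ∈ Q` for all `Q ∈ P'`: `h * ∑_{P'} log (p Q) ≤ ∑_{P'} log (absNorm Q) ≤ n h log (n A B0)`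
(`sum_log_absNorm_le`; `Q ≠ ⊥` because `p Q ∈ Q`), i.e. `∑_{P'} log (p Q) ≤ Y := n log (n A B0)`.
(c) `2 p Q ≤ 2X ≤ A^n = card B`.  Conclusion `≤ 2 Y ≤ 2 log (2X) + 2 n log (2 n B0)`.
-/

set_option autoImplicit false

namespace Pool.Agent.EXM

open Polynomial NumberField Pool.Agent.Helper1.SP

variable {N : Type} [Field N] [NumberField N]

/-- the combinations of the integers `ω i` with coefficients below `A` -/
private noncomputable def comb {n : ℕ} (ω : Fin n → 𝓞 N) (A : ℕ) (a : Fin n → Fin A) : 𝓞 N :=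
  ∑ i, (a i : ℕ) • ω i

private theorem comb_inj {n : ℕ} {ω : Fin n → 𝓞 N} (hli : LinearIndependent ℤ ω) (A : ℕ) :
    Function.Injective (comb ω A) := by
  intro a b hab
  have h1 : ∑ i, ((a i : ℕ) - (b i : ℕ) : ℤ) • ω i = 0 := by
    have h2 : ∑ i, (a i : ℕ) • ω i = ∑ i, (b i : ℕ) • ω i := hab
    simp only [sub_smul, natCast_zsmul, Finset.sum_sub_distrib]
    rw [h2, sub_self]
  have h2 := Fintype.linearIndependent_iff.1 hli _ h1
  funext i
  have h3 := h2 i
  apply Fin.ext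
  omega

private theorem comb_fixed {n : ℕ} {ω : Fin n → 𝓞 N} {g : Gl N} (h : ∀ i, g • ω i = ω i) (A : ℕ)
    (a : Fin n → Fin A) : g • comb ω A a = comb ω A a := by
  unfold comb
  rw [Finset.smul_sum]
  refine Finset.sum_congr rfl fun i _ => ?_
  rw [smul_comm, h i]

private theorem comb_bound {n : ℕ} {ω : Fin n → 𝓞 N} {B0 : ℝ}
    (hωB : ∀ i, ∀ φ : N →+* ℂ, ‖φ (ω i : N)‖ ≤ B0) (A : ℕ)
    (a b : Fin n → Fin A) (φ : N →+* ℂ) :
    ‖φ ((comb ω A a - comb ω A b : 𝓞 N) : N)‖ ≤ n * A * B0 := by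
  have h1 : ((comb ω A a - comb ω A b : 𝓞 N) : N) =
      ∑ i, (((a i : ℕ) : N) - ((b i : ℕ) : N)) * (ω i : N) := by
    unfold comb
    simp only [map_sub, map_sum, nsmul_eq_mul, map_mul, map_natCast, sub_mul,
      Finset.sum_sub_distrib]
  rw [h1, map_sum]
  refine (norm_sum_le _ _).trans ?_
  have h2 : ∀ i ∈ (Finset.univ : Finset (Fin n)),
      ‖φ ((((a i : ℕ) : N) - ((b i : ℕ) : N)) * (ω i : N))‖ ≤ A * B0 := by
    intro i _
    rw [map_mul, norm_mul, map_sub, map_natCast, map_natCast]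
    have h3 : ‖(((a i : ℕ) : ℂ) - ((b i : ℕ) : ℂ))‖ ≤ A := by
      have h4 : (((a i : ℕ) : ℂ) - ((b i : ℕ) : ℂ)) = (((a i : ℕ) - (b i : ℕ) : ℤ) : ℂ) := by
        push_cast
        rfl
      rw [h4, Complex.norm_intCast]
      have h5 : |((a i : ℕ) - (b i : ℕ) : ℤ)| ≤ (A : ℤ) := by
        rw [abs_le]
        have := (a i).2
        have := (b i).2
        constructor <;> omega
      exact_mod_cast h5
    exact mul_le_mul h3 (hωB i φ) (norm_nonneg _) (Nat.cast_nonneg _)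
  refine (Finset.sum_le_sum h2).trans ?_
  rw [Finset.sum_const, Finset.card_univ, Fintype.card_fin, nsmul_eq_mul, mul_assoc]

/-- at most `p` elements of a domain are equal to their `p`-th power -/
private theorem ncard_frob {R : Type} [CommRing R] [IsDomain R] {p : ℕ} (hp : 1 < p) (T : Set R)
    (hT : ∀ x ∈ T, x ^ p = x) : T.ncard ≤ p := by
  classical
  have hf : (X ^ p - X : R[X]) ≠ 0 := by
    intro h
    have h1 := congrArg (fun f => Polynomial.coeff f p) h
    simp only [coeff_sub, coeff_X_pow, if_true, coeff_zero] at h1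
    rw [coeff_X_of_ne_one (by omega), sub_zero] at h1
    exact one_ne_zero h1
  have h1 : T ⊆ ((X ^ p - X : R[X]).roots.toFinset : Set R) := by
    intro x hx
    rw [Finset.mem_coe, Multiset.mem_toFinset, mem_roots hf, IsRoot.def, eval_sub, eval_pow, eval_X,
      hT x hx, sub_self]
  have h2 : (X ^ p - X : R[X]).natDegree ≤ p := by
    refine (natDegree_sub_le _ _).trans ?_
    rw [natDegree_X_pow, natDegree_X]
    omega
  calc T.ncard ≤ ((X ^ p - X : R[X]).roots.toFinset : Set R).ncard :=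
        Set.ncard_le_ncard h1 (Finset.finite_toSet _)
    _ = (X ^ p - X : R[X]).roots.toFinset.card := Set.ncard_coe_finset _
    _ ≤ (X ^ p - X : R[X]).roots.card := Multiset.toFinset_card_le _
    _ ≤ (X ^ p - X : R[X]).natDegree := card_roots' _
    _ ≤ p := h2

/-- the size of the box -/
private theorem exists_box {n : ℕ} (hn : 0 < n) {X : ℝ} (hX : 1 ≤ X) :
    ∃ A : ℕ, 1 ≤ A ∧ 2 * X ≤ (A : ℝ) ^ n ∧
      n * Real.log A ≤ n * Real.log 2 + Real.log (2 * X) := by
  have hn' : (0 : ℝ) < n := by exact_mod_cast hn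
  have h2X : (0 : ℝ) < 2 * X := by linarith
  set y : ℝ := (2 * X) ^ ((1 : ℝ) / n) with hy
  have hy1 : 1 ≤ y := Real.one_le_rpow (by linarith) (by positivity)
  have hyn : y ^ n = 2 * X := by
    rw [hy, ← Real.rpow_natCast, ← Real.rpow_mul h2X.le, one_div, inv_mul_cancel₀ hn'.ne',
      Real.rpow_one]
  refine ⟨⌈y⌉₊, Nat.one_le_ceil_iff.2 (by linarith), ?_, ?_⟩
  · rw [← hyn]
    exact pow_le_pow_left₀ (by linarith) (Nat.le_ceil y) n
  · have h1 : (⌈y⌉₊ : ℝ) ≤ 2 * y := by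
      have := Nat.ceil_lt_add_one (a := y) (by linarith)
      linarith
    have h0 : (0 : ℝ) < (⌈y⌉₊ : ℝ) := by
      have := Nat.le_ceil y
      linarith
    have h2 : Real.log (⌈y⌉₊ : ℝ) ≤ Real.log 2 + Real.log y := by
      rw [← Real.log_mul (by norm_num) (by linarith)]
      exact Real.log_le_log h0 h1
    have h3 : n * Real.log y = Real.log (2 * X) := by
      rw [← Real.log_pow, hyn]
    have h4 := mul_le_mul_of_nonneg_left h2 hn'.le
    rw [mul_add, h3] at h4
    exact h4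

theorem sieve_H [IsGalois ℚ N] (H : Subgroup (Gl N)) (ω : Fin H.index → 𝓞 N)
    (hinv : ∀ i, ∀ h ∈ H, h • ω i = ω i) (hli : LinearIndependent ℤ ω) (B0 : ℝ) (hB : 1 ≤ B0)
    (hωB : ∀ i, ∀ φ : N →+* ℂ, ‖φ (ω i : N)‖ ≤ B0) (X : ℝ) (hX : 1 ≤ X)
    (P : Finset (Ideal (𝓞 N))) (p : Ideal (𝓞 N) → ℕ)
    (hP : ∀ Q ∈ P, (p Q).Prime ∧ Above (p Q) Q ∧ (p Q : ℝ) ≤ X ∧ (∃ g ∈ H, IsFrob (p Q) Q g) ∧
      (p Q) ^ (Nat.card H) ≤ Ideal.absNorm Q) :
    ∑ Q ∈ P, Real.log (p Q : ℝ) / (p Q : ℝ) ≤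
      2 * Real.log (2 * X) + 2 * (H.index : ℝ) * Real.log (2 * (H.index : ℝ) * B0) := by
  classical
  have hidx : H.index * Nat.card H = Nat.card (Gl N) := Subgroup.index_mul_card H
  have hfin : Nat.card (Gl N) = Module.finrank ℚ N := IsGalois.card_aut_eq_finrank ℚ N
  have hh : 0 < Nat.card H := Nat.card_pos
  have hn : 0 < H.index := Nat.pos_of_ne_zero Subgroup.index_ne_zero_of_finite
  have hn' : (1 : ℝ) ≤ (H.index : ℝ) := by exact_mod_cast hn
  obtain ⟨A, hA1, hA2, hA3⟩ := exists_box hn hX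
  have hA1' : (1 : ℝ) ≤ (A : ℝ) := by exact_mod_cast hA1
  set B : Finset (𝓞 N) := Finset.univ.image (comb ω A) with hBdef
  have hBcard : B.card = A ^ H.index := by
    rw [hBdef, Finset.card_image_of_injective _ (comb_inj hli A), Finset.card_univ,
      Fintype.card_fun, Fintype.card_fin, Fintype.card_fin]
  have hR1 : (1 : ℝ) ≤ H.index * A * B0 :=
    one_le_mul_of_one_le_of_one_le (one_le_mul_of_one_le_of_one_le hn' hA1') hB
  have hY0 : (0 : ℝ) ≤ H.index * Real.log (H.index * A * B0) :=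
    mul_nonneg (Nat.cast_nonneg _) (Real.log_nonneg hR1)
  have key := larger_sieve B P p (fun Q => Real.log (p Q : ℝ))
    (fun Q hQ => Real.log_nonneg (by exact_mod_cast (hP Q hQ).1.one_lt.le))
    (κ := fun Q => 𝓞 N ⧸ Q) (fun Q => Ideal.Quotient.mk Q)
    (by
      intro Q hQ
      obtain ⟨h1, h2, h3, h4, h5⟩ := hP Q hQ
      refine ⟨h1.pos, ?_⟩
      rw [hBcard]
      have h6 : (2 : ℝ) * (p Q : ℝ) ≤ (A : ℝ) ^ H.index := by linarith
      exact_mod_cast h6)
    (by
      intro Q hQ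
      obtain ⟨h1, h2, h3, ⟨g, hgH, hg⟩, h5⟩ := hP Q hQ
      have := h2.1
      refine ncard_frob h1.one_lt _ ?_
      rintro _ ⟨x, hx, rfl⟩
      rw [Finset.mem_coe, hBdef, Finset.mem_image] at hx
      obtain ⟨a, -, rfl⟩ := hx
      have h6 := hg (comb ω A a)
      rw [comb_fixed (fun i => hinv i g hgH) A a] at h6
      rw [← map_pow]
      exact (Ideal.Quotient.eq.2 h6).symm)
    (H.index * Real.log (H.index * A * B0)) hY0
    (by
      intro x hx y hy hxy P' hP' hc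
      rw [hBdef, Finset.mem_image] at hx hy
      obtain ⟨a, -, rfl⟩ := hx
      obtain ⟨b, -, rfl⟩ := hy
      have hγ : comb ω A a - comb ω A b ≠ 0 := sub_ne_zero.2 hxy
      have h1 := sum_log_absNorm_le _ hγ P' (fun Q hQ => by
        obtain ⟨g1, g2, -⟩ := hP Q (hP' hQ)
        refine ⟨g2.1, ?_, Ideal.Quotient.eq.1 (hc Q hQ)⟩
        intro hbot
        have h2 : ((p Q : ℕ) : 𝓞 N) ∈ (⊥ : Ideal (𝓞 N)) := by
          have h2' := g2.2
          generalize p Q = q at h2' ⊢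
          rw [hbot] at h2'
          exact h2'
        rw [Ideal.mem_bot, Nat.cast_eq_zero] at h2
        exact g1.ne_zero h2)
      have h2 := abs_norm_le (comb ω A a - comb ω A b) (H.index * A * B0) (by linarith)
        (comb_bound hωB A a b)
      have h3 : (0 : ℝ) < |((Algebra.norm ℤ (comb ω A a - comb ω A b) : ℤ) : ℝ)| := by
        rw [abs_pos, Int.cast_ne_zero]
        exact Algebra.norm_ne_zero_iff.2 hγ
      have h4 := Real.log_le_log h3 h2
      rw [Real.log_pow, ← hfin, ← hidx, Nat.cast_mul] at h4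
      have h5 : (Nat.card H : ℝ) * ∑ Q ∈ P', Real.log (p Q : ℝ) ≤
          ∑ Q ∈ P', Real.log (Ideal.absNorm Q : ℝ) := by
        rw [Finset.mul_sum]
        refine Finset.sum_le_sum fun Q hQ => ?_
        obtain ⟨g1, -, -, -, g5⟩ := hP Q (hP' hQ)
        rw [← Real.log_pow]
        refine Real.log_le_log ?_ (by exact_mod_cast g5)
        have : (0 : ℝ) < (p Q : ℝ) := by exact_mod_cast g1.pos
        positivity
      have h6 : (0 : ℝ) < (Nat.card H : ℝ) := by exact_mod_cast hh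
      have h7 : (Nat.card H : ℝ) * ∑ Q ∈ P', Real.log (p Q : ℝ) ≤
          (Nat.card H : ℝ) * (H.index * Real.log (H.index * A * B0)) := by
        refine (h5.trans (h1.trans h4)).trans (le_of_eq ?_)
        ring
      exact le_of_mul_le_mul_left h7 h6)
  refine key.trans ?_
  have hB' : (0 : ℝ) < B0 := by linarith
  have hn0 : (0 : ℝ) < (H.index : ℝ) := by linarith
  have hA0 : (0 : ℝ) < (A : ℝ) := by linarith
  have e1 : Real.log (H.index * A * B0) = Real.log H.index + Real.log A + Real.log B0 := by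
    rw [Real.log_mul (by positivity) hB'.ne', Real.log_mul hn0.ne' hA0.ne']
  have e2 : Real.log (2 * (H.index : ℝ) * B0) = Real.log 2 + Real.log H.index + Real.log B0 := by
    rw [Real.log_mul (by positivity) hB'.ne', Real.log_mul (by norm_num) hn0.ne']
  rw [e1, e2]
  nlinarith [hA3]

end Pool.Agent.EXM
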