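import Pool.Agent.EXM.Defs

/-!
# EXM-Span (1.2h): the monomials with small exponents span `N`

Plan.  Let `S` be the span.  It contains `1` (`L ≥ 1`, exponents `0`).  It is stable under
multiplication by each `θ ∈ Ω0`: for a monomial with exponent `e θ < L - 1` clear
(`Function.update e θ (e θ + 1)`); if `e θ = L - 1` then `θ^L` is, by the monic polynomial `f` of
degree `d ≤ L` (multiply by `X^(L-d)`), an integral combination of `θ^i`, `i < L`.  So
`{y | ∀ s ∈ S, y * s ∈ S}` is a `ℚ`-subalgebra containing `Ω0`, hence everything (`hgen`); apply it to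
`s = 1`.
-/

set_option autoImplicit false

namespace Pool.Agent.EXM

open Polynomial NumberField Pool.Agent.Helper1.SP

variable {N : Type} [Field N] [NumberField N]

omit [NumberField N] in
private theorem prod_update [DecidableEq (𝓞 N)] (Ω0 : Finset (𝓞 N)) (e : 𝓞 N → ℕ) {θ : 𝓞 N}
    (hθ : θ ∈ Ω0) (i : ℕ) : ∏ x ∈ Ω0, x ^ Function.update e θ i x =
      θ ^ i * ∏ x ∈ Ω0.erase θ, x ^ e x := by
  rw [← Finset.mul_prod_erase Ω0 _ hθ, Function.update_self]
  refine congrArg (fun z => θ ^ i * z) (Finset.prod_congr rfl fun x hx => ?_)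
  rw [Function.update_of_ne (Finset.ne_of_mem_erase hx)]

theorem span_monomials (Ω0 : Finset (𝓞 N))
    (hgen : Algebra.adjoin ℚ ((fun x : 𝓞 N => (x : N)) '' (Ω0 : Set (𝓞 N))) = ⊤) (L : ℕ) (hL : 1 ≤ L)
    (hdeg : ∀ θ ∈ Ω0, ∃ f : ℤ[X], f.Monic ∧ f.natDegree ≤ L ∧ aeval θ f = 0) :
    Submodule.span ℚ {y : N | ∃ e : 𝓞 N → ℕ, (∀ θ, e θ < L) ∧
      y = ((∏ θ ∈ Ω0, θ ^ e θ : 𝓞 N) : N)} = ⊤ := by
  classical
  obtain ⟨S, hS⟩ : ∃ S, S = Submodule.span ℚ {y : N | ∃ e : 𝓞 N → ℕ, (∀ θ, e θ < L) ∧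
      y = ((∏ θ ∈ Ω0, θ ^ e θ : 𝓞 N) : N)} := ⟨_, rfl⟩
  rw [← hS]
  have hmono : ∀ (e : 𝓞 N → ℕ), (∀ θ, e θ < L) → ((∏ θ ∈ Ω0, θ ^ e θ : 𝓞 N) : N) ∈ S := by
    intro e he
    rw [hS]
    exact Submodule.subset_span ⟨e, he, rfl⟩
  have hone : (1 : N) ∈ S := by
    have h1 := hmono (fun _ => 0) (fun _ => hL)
    have h2 : ((∏ θ ∈ Ω0, θ ^ (0 : ℕ) : 𝓞 N) : N) = 1 := by
      rw [Finset.prod_congr rfl fun θ _ => pow_zero θ, Finset.prod_const_one]
      exact map_one (algebraMap (𝓞 N) N)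
    rwa [h2] at h1
  have hstab : ∀ θ ∈ Ω0, ∀ y ∈ S, (θ : N) * y ∈ S := by
    intro θ hθ y hy
    rw [hS] at hy
    induction hy using Submodule.span_induction with
    | mem y hy =>
      obtain ⟨e, he, rfl⟩ := hy
      have hupd : ∀ i < L, ((θ ^ i * ∏ x ∈ Ω0.erase θ, x ^ e x : 𝓞 N) : N) ∈ S := by
        intro i hi
        rw [← prod_update Ω0 e hθ i]
        refine hmono _ fun x => ?_
        by_cases hx : x = θ
        · rw [hx, Function.update_self]
          exact hi
        · rw [Function.update_of_ne hx]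
          exact he x
      have hprod : (∏ x ∈ Ω0, x ^ e x : 𝓞 N) = θ ^ e θ * ∏ x ∈ Ω0.erase θ, x ^ e x :=
        (Finset.mul_prod_erase Ω0 _ hθ).symm
      have hcast : (θ : N) * ((∏ x ∈ Ω0, x ^ e x : 𝓞 N) : N) =
          ((θ ^ (e θ + 1) * ∏ x ∈ Ω0.erase θ, x ^ e x : 𝓞 N) : N) := by
        rw [hprod, ← map_mul, pow_succ]
        congr 1
        ring
      rw [hcast]
      rcases Nat.lt_or_ge (e θ + 1) L with hlt | hge
      · exact hupd _ hlt
      · have heL : e θ + 1 = L := le_antisymm (he θ) hge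
        rw [heL]
        obtain ⟨f, hf, hfd, hf0⟩ := hdeg θ hθ
        obtain ⟨g, hg⟩ : ∃ g : ℤ[X], g = X ^ (L - f.natDegree) * f := ⟨_, rfl⟩
        have hgm : g.Monic := by
          rw [hg]
          exact (monic_X_pow _).mul hf
        have hgd : g.natDegree = L := by
          rw [hg, (monic_X_pow _).natDegree_mul hf, natDegree_X_pow]
          omega
        have hg0 : aeval θ g = 0 := by
          rw [hg, map_mul, hf0, mul_zero]
        rw [hgm.as_sum, hgd, map_add, map_pow, aeval_X, map_sum] at hg0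
        have h3 : θ ^ L = -∑ i ∈ Finset.range L, (g.coeff i) • θ ^ i := by
          rw [eq_neg_iff_add_eq_zero, ← hg0]
          congr 1
          refine Finset.sum_congr rfl fun i _ => ?_
          rw [map_mul, map_pow, aeval_X, aeval_C, Algebra.smul_def]
        have h4 : ((θ ^ L * ∏ x ∈ Ω0.erase θ, x ^ e x : 𝓞 N) : N) =
            -∑ i ∈ Finset.range L, (g.coeff i) •
              ((θ ^ i * ∏ x ∈ Ω0.erase θ, x ^ e x : 𝓞 N) : N) := by
          rw [h3, neg_mul, Finset.sum_mul]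
          show algebraMap (𝓞 N) N _ = -∑ i ∈ Finset.range L, (g.coeff i) •
              algebraMap (𝓞 N) N (θ ^ i * ∏ x ∈ Ω0.erase θ, x ^ e x)
          rw [map_neg, map_sum]
          refine congrArg Neg.neg (Finset.sum_congr rfl fun i _ => ?_)
          rw [smul_mul_assoc, map_zsmul]
        rw [h4]
        exact S.neg_mem (Submodule.sum_mem _ fun i hi =>
          zsmul_mem (hupd i (Finset.mem_range.1 hi)) _)
    | zero =>
      rw [mul_zero]
      exact S.zero_mem
    | add y z _ _ hy hz =>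
      rw [mul_add]
      exact S.add_mem hy hz
    | smul q y _ hy =>
      rw [mul_smul_comm]
      exact S.smul_mem q hy
  have hall : ∀ y : N, ∀ s ∈ S, y * s ∈ S := by
    intro y
    have hy : y ∈ Algebra.adjoin ℚ ((fun x : 𝓞 N => (x : N)) '' (Ω0 : Set (𝓞 N))) := by
      rw [hgen]
      exact Algebra.mem_top
    induction hy using Algebra.adjoin_induction with
    | mem y hy =>
      obtain ⟨θ, hθ, rfl⟩ := hy
      exact fun s hs => hstab θ hθ s hs
    | algebraMap q =>
      intro s hs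
      rw [← Algebra.smul_def]
      exact S.smul_mem q hs
    | add x y _ _ hx hy =>
      intro s hs
      rw [add_mul]
      exact S.add_mem (hx s hs) (hy s hs)
    | mul x y _ _ hx hy =>
      intro s hs
      rw [mul_assoc]
      exact hx _ (hy s hs)
  rw [eq_top_iff]
  intro y _
  have h5 := hall y 1 hone
  rwa [mul_one] at h5

end Pool.Agent.EXM
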