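import Mathlib

/-!
# EXM-Tot (Mathlib only): `m ≤ φ(m) (log₂ m + 1)`

`Nat.totient_mul_prod_primeFactors : φ n * ∏ p ∈ n.primeFactors, p = n * ∏ (p - 1)`.  For every
finite set `Q` of integers `≥ 2`: `∏ q ∈ Q, q ≤ (Q.card + 1) * ∏ q ∈ Q, (q - 1)` (induction on the
largest element).  And `2 ^ card (primeFactors m) ≤ ∏ p ≤ m`, so `card ≤ Nat.log 2 m`.
-/

set_option autoImplicit false

namespace Pool.Agent.EXM

private theorem prod_le (Q : Finset ℕ) :
    (∀ q ∈ Q, 2 ≤ q) → ∏ q ∈ Q, q ≤ (Q.card + 1) * ∏ q ∈ Q, (q - 1) := by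
  induction Q using Finset.induction_on_max with
  | empty => intro _; simp
  | insert a s ha ih =>
    intro h
    have has : a ∉ s := fun hh => lt_irrefl _ (ha a hh)
    have hs : ∀ q ∈ s, 2 ≤ q := fun q hq => h q (Finset.mem_insert_of_mem hq)
    have h2 : 2 ≤ a := h a (Finset.mem_insert_self a s)
    have ih' := ih hs
    have hc : s.card ≤ a - 2 := by
      have hsub : s ⊆ Finset.Ico 2 a := fun q hq => Finset.mem_Ico.2 ⟨hs q hq, ha q hq⟩
      have := Finset.card_le_card hsub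
      simpa using this
    rw [Finset.prod_insert has, Finset.prod_insert has, Finset.card_insert_of_notMem has]
    obtain ⟨b, rfl⟩ : ∃ b, a = b + 2 := ⟨a - 2, by omega⟩
    have e : b + 2 - 1 = b + 1 := by omega
    rw [e]
    have hc' : s.card ≤ b := by omega
    generalize ∏ q ∈ s, q = P at ih' ⊢
    generalize ∏ q ∈ s, (q - 1) = R at ih' ⊢
    generalize s.card = c at ih' hc' ⊢
    have h3 : (b + 2) * P ≤ (b + 2) * ((c + 1) * R) := Nat.mul_le_mul_left _ ih'
    have h4 : (b + 2) * (c + 1) ≤ (c + 1 + 1) * (b + 1) := by nlinarith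
    calc (b + 2) * P ≤ (b + 2) * ((c + 1) * R) := h3
      _ = (b + 2) * (c + 1) * R := by ring
      _ ≤ (c + 1 + 1) * (b + 1) * R := Nat.mul_le_mul_right _ h4
      _ = (c + 1 + 1) * ((b + 1) * R) := by ring

theorem le_totient_mul (m : ℕ) (hm : 1 ≤ m) : m ≤ Nat.totient m * (Nat.log 2 m + 1) := by
  have h1 := Nat.totient_mul_prod_primeFactors m
  have h2 : ∀ q ∈ m.primeFactors, 2 ≤ q := fun q hq => (Nat.prime_of_mem_primeFactors hq).two_le
  have h3 := prod_le m.primeFactors h2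
  have h4 : 2 ^ m.primeFactors.card ≤ m := by
    refine le_trans ?_ (Nat.le_of_dvd hm (Nat.prod_primeFactors_dvd m))
    exact Finset.pow_card_le_prod _ _ _ h2
  have h5 : m.primeFactors.card ≤ Nat.log 2 m := Nat.le_log_of_pow_le one_lt_two h4
  have hR : 0 < ∏ p ∈ m.primeFactors, (p - 1) :=
    Finset.prod_pos fun q hq => by have := h2 q hq; omega
  have h6 : m * ∏ p ∈ m.primeFactors, (p - 1) ≤
      Nat.totient m * (Nat.log 2 m + 1) * ∏ p ∈ m.primeFactors, (p - 1) := by
    rw [← h1]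
    calc Nat.totient m * ∏ p ∈ m.primeFactors, p
        ≤ Nat.totient m * ((m.primeFactors.card + 1) * ∏ p ∈ m.primeFactors, (p - 1)) :=
          Nat.mul_le_mul_left _ h3
      _ ≤ Nat.totient m * ((Nat.log 2 m + 1) * ∏ p ∈ m.primeFactors, (p - 1)) :=
          Nat.mul_le_mul_left _ (Nat.mul_le_mul_right _ (by omega))
      _ = _ := by ring
  exact Nat.le_of_mul_le_mul_right h6 hR

end Pool.Agent.EXM
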